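import Pool.Agent.Work.MP_0f1f76_lc.Tens.Defs

/-!
# A calculus for straight-line programs

A wire is a register content as a function of the data and of the query.  `Cost A I O n` says that
from the wires in `I` all wires in `O` can be computed with at most `n` instructions whose tables
are admissible (`A`).
-/

namespace Pool.Agent.OMV.Tens

open Finset

/-- The content of a register as a function of the data and the query. -/
abbrev Wire (𝒟 𝒳 : Type) (w : ℕ) := 𝒟 → 𝒳 → Word w

variable {𝒟 𝒳 : Type} {w : ℕ}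

/-- `R'` is obtained from `R` by `n` instructions. -/
inductive Ext (A : (𝒟 → Word w → Word w) → Prop) (R : List (Wire 𝒟 𝒳 w)) :
    ℕ → List (Wire 𝒟 𝒳 w) → Prop
  | nil : Ext A R 0 R
  | xor {n : ℕ} {R' : List (Wire 𝒟 𝒳 w)} (f g : Wire 𝒟 𝒳 w) : Ext A R n R' → f ∈ R' → g ∈ R' →
      Ext A R (n + 1) (R' ++ [fun d x => f d x + g d x])
  | look {n : ℕ} {R' : List (Wire 𝒟 𝒳 w)} (T : 𝒟 → Word w → Word w) (f : Wire 𝒟 𝒳 w) :
      Ext A R n R' → A T → (f ∈ R' ∨ f = 0) → Ext A R (n + 1) (R' ++ [fun d x => T d (f d x)])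

theorem Ext.subset {A : (𝒟 → Word w → Word w) → Prop} {R : List (Wire 𝒟 𝒳 w)} {n : ℕ}
    {R' : List (Wire 𝒟 𝒳 w)} (h : Ext A R n R') : ∀ f ∈ R, f ∈ R' := by
  induction h with
  | nil => exact fun f hf => hf
  | xor f g _ _ _ ih => exact fun a ha => List.mem_append_left _ (ih a ha)
  | look T f _ _ _ ih => exact fun a ha => List.mem_append_left _ (ih a ha)

theorem Ext.trans {A : (𝒟 → Word w → Word w) → Prop} {R : List (Wire 𝒟 𝒳 w)} {n : ℕ}
    {R' : List (Wire 𝒟 𝒳 w)} (h : Ext A R n R') {m : ℕ} {R'' : List (Wire 𝒟 𝒳 w)}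
    (h' : Ext A R' m R'') : Ext A R (n + m) R'' := by
  induction h' with
  | nil => exact h
  | xor f g _ hf hg ih => exact Ext.xor f g ih hf hg
  | look T f _ hT hf ih => exact Ext.look T f ih hT hf

/-- From the wires in `I` all wires in `O` can be computed with at most `n` instructions. -/
def Cost (A : (𝒟 → Word w → Word w) → Prop) (I O : Set (Wire 𝒟 𝒳 w)) (n : ℕ) : Prop :=
  ∀ R : List (Wire 𝒟 𝒳 w), (∀ f ∈ I, f ∈ R) →
    ∃ m R', m ≤ n ∧ Ext A R m R' ∧ ∀ f ∈ O, f ∈ R'

variable {A : (𝒟 → Word w → Word w) → Prop} {I J O : Set (Wire 𝒟 𝒳 w)}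

theorem Cost.refl : Cost A I I 0 := fun R hR => ⟨0, R, le_rfl, Ext.nil, hR⟩

theorem Cost.mono {I' O' : Set (Wire 𝒟 𝒳 w)} {n n' : ℕ} (h : Cost A I O n) (hI : I ⊆ I')
    (hO : O' ⊆ O) (hn : n ≤ n') : Cost A I' O' n' := by
  intro R hR
  obtain ⟨m, R', hm, hE, hO1⟩ := h R (fun f hf => hR f (hI hf))
  exact ⟨m, R', hm.trans hn, hE, fun f hf => hO1 f (hO hf)⟩

theorem Cost.comp {n m : ℕ} (h : Cost A I J n) (h' : Cost A (I ∪ J) O m) :
    Cost A I (J ∪ O) (n + m) := by
  intro R hR
  obtain ⟨k, R', hk, hE, hJ⟩ := h R hR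
  obtain ⟨k', R'', hk', hE', hO⟩ := h' R' (by
    rintro f (hf | hf)
    · exact hE.subset f (hR f hf)
    · exact hJ f hf)
  refine ⟨k + k', R'', add_le_add hk hk', hE.trans hE', ?_⟩
  rintro f (hf | hf)
  · exact hE'.subset f (hJ f hf)
  · exact hO f hf

theorem Cost.biUnion {β : Type*} (s : Finset β) (O : β → Set (Wire 𝒟 𝒳 w)) (n : β → ℕ)
    (h : ∀ b ∈ s, Cost A I (O b) (n b)) : Cost A I (⋃ b ∈ s, O b) (∑ b ∈ s, n b) := by
  classical
  induction s using Finset.induction_on with
  | empty =>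
    intro R hR
    exact ⟨0, R, Nat.zero_le _, Ext.nil, by simp⟩
  | insert b s hb ih =>
    rw [sum_insert hb, add_comm]
    have h1 := ih (fun c hc => h c (mem_insert_of_mem hc))
    have h2 := h b (mem_insert_self b s)
    have h3 := h1.comp (h2.mono (Set.subset_union_left) (le_refl _) (le_refl _))
    refine h3.mono (le_refl _) ?_ (le_refl _)
    intro f hf
    simp only [mem_insert, Set.iUnion_iUnion_eq_or_left, Set.mem_union] at hf
    rcases hf with hf | hf
    · exact Or.inr hf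
    · exact Or.inl hf

/-- A version of `biUnion` with a uniform bound and a family of single wires. -/
theorem Cost.family {β : Type*} (s : Finset β) (o : β → Wire 𝒟 𝒳 w) (n : ℕ)
    (h : ∀ b ∈ s, Cost A I {o b} n) : Cost A I {f | ∃ b ∈ s, f = o b} (s.card * n) := by
  refine (Cost.biUnion s (fun b => {o b}) (fun _ => n) h).mono (le_refl _) ?_ ?_
  · rintro f ⟨b, hb, rfl⟩
    simp only [Set.mem_iUnion]
    exact ⟨b, hb, rfl⟩
  · rw [sum_const, smul_eq_mul]

theorem Cost.xor {f g : Wire 𝒟 𝒳 w} (hf : f ∈ I) (hg : g ∈ I) :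
    Cost A I {fun d x => f d x + g d x} 1 := by
  intro R hR
  refine ⟨1, _, le_rfl, Ext.xor f g Ext.nil (hR f hf) (hR g hg), ?_⟩
  rintro _ rfl
  simp

theorem Cost.look {T : 𝒟 → Word w → Word w} {f : Wire 𝒟 𝒳 w} (hT : A T) (hf : f ∈ I) :
    Cost A I {fun d x => T d (f d x)} 1 := by
  intro R hR
  refine ⟨1, _, le_rfl, Ext.look T f Ext.nil hT (Or.inl (hR f hf)), ?_⟩
  rintro _ rfl
  simp

theorem Cost.const {T : 𝒟 → Word w → Word w} (hT : A T) :
    Cost A I {fun d _ => T d 0} 1 := by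
  intro R hR
  refine ⟨1, _, le_rfl, Ext.look T 0 Ext.nil hT (Or.inr rfl), ?_⟩
  rintro _ rfl
  simp

/-- A sum of wires. -/
theorem Cost.sum (h0 : A (fun _ _ => 0)) {β : Type*} (s : Finset β) (F : β → Wire 𝒟 𝒳 w)
    (hF : ∀ b ∈ s, F b ∈ I) : Cost A I {fun d x => ∑ b ∈ s, F b d x} (s.card + 1) := by
  classical
  induction s using Finset.induction_on with
  | empty =>
    simp only [sum_empty, card_empty]
    exact Cost.const h0
  | insert b s hb ih =>
    have h1 := ih (fun c hc => hF c (mem_insert_of_mem hc))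
    rw [card_insert_of_notMem hb]
    have h2 : Cost A (I ∪ {fun d x => ∑ b ∈ s, F b d x})
        {fun d x => F b d x + ∑ b ∈ s, F b d x} 1 :=
      Cost.xor (Or.inl (hF b (mem_insert_self b s))) (Or.inr rfl)
    refine (h1.comp h2).mono (le_refl _) ?_ (le_refl _)
    rintro f hf
    right
    simp only [Set.mem_singleton_iff] at hf ⊢
    rw [hf]
    funext d x
    rw [sum_insert hb]

/-- A sum of table look-ups. -/
theorem Cost.lin (h0 : A (fun _ _ => 0)) {β : Type*} (s : Finset β) (F : β → Wire 𝒟 𝒳 w)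
    (T : β → 𝒟 → Word w → Word w) (hT : ∀ b ∈ s, A (T b)) (hF : ∀ b ∈ s, F b ∈ I) :
    Cost A I {fun d x => ∑ b ∈ s, T b d (F b d x)} (2 * s.card + 1) := by
  have h1 := Cost.family (A := A) (I := I) s (fun b d x => T b d (F b d x)) 1
    (fun b hb => Cost.look (hT b hb) (hF b hb))
  have h2 : Cost A (I ∪ {f | ∃ b ∈ s, f = (fun d x => T b d (F b d x))})
      {fun d x => ∑ b ∈ s, T b d (F b d x)} (s.card + 1) :=
    Cost.sum h0 s (fun b d x => T b d (F b d x)) (fun b hb => Or.inr ⟨b, hb, rfl⟩)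
  refine (h1.comp h2).mono (le_refl _) Set.subset_union_right (by omega)

/-! ### Realisation by a program -/

/-- Admissible tables: no condition, or affine in the data. -/
def Adm (aff : Bool) {ι : Type} {w : ℕ} (T : (ι → ZMod 2) → Word w → Word w) : Prop :=
  aff = true → ∃ (base : Word w → Word w) (lin : (ι → ZMod 2) →ₗ[ZMod 2] (Word w → Word w)),
    ∀ d, T d = base + lin d

theorem Adm.const {aff : Bool} {ι : Type} {w : ℕ} (T : Word w → Word w) :
    Adm aff (fun _ : ι → ZMod 2 => T) := fun _ => ⟨T, 0, fun d => by simp⟩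

/-- The input wires of a problem. -/
def inW (B : Problem) (w k : ℕ) : Wire (B.ι → ZMod 2) (Fin B.q → ZMod 2) w :=
  fun _ x => (packed w x).getD k 0

/-- The set of the input wires. -/
def inSet (B : Problem) (w : ℕ) : Set (Wire (B.ι → ZMod 2) (Fin B.q → ZMod 2) w) :=
  {f | ∃ k < (B.q + w - 1) / w, f = inW B w k}

/-! ### Tools: bits -/

/-- A linear combination of bits, in bit `0` of a new wire. -/
theorem Cost.linBit (hA : ∀ T : Word w → Word w, A (fun _ => T)) (hw : 0 < w) {β : Type*}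
    (s : Finset β) (F : β → Wire 𝒟 𝒳 w) (p : β → Fin w) (c : β → ZMod 2)
    (hF : ∀ b ∈ s, F b ∈ I) :
    ∃ o : Wire 𝒟 𝒳 w, Cost A I {o} (2 * s.card + 1) ∧
      ∀ d x, o d x ⟨0, hw⟩ = ∑ b ∈ s, c b * F b d x (p b) := by
  let T : β → Word w → Word w := fun b W => Pi.single ⟨0, hw⟩ (c b * W (p b))
  refine ⟨fun d x => ∑ b ∈ s, T b (F b d x),
    Cost.lin (hA 0) s F (fun b _ => T b) (fun b _ => hA _) hF, ?_⟩
  intro d x
  simp [T, Finset.sum_apply]

/-- A product of two bits, in bit `0` of a new wire. -/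
theorem Cost.mulBit (hA : ∀ T : Word w → Word w, A (fun _ => T)) (hw : 2 ≤ w)
    {f g : Wire 𝒟 𝒳 w} (hf : f ∈ I) (hg : g ∈ I) (p q : Fin w) :
    ∃ o : Wire 𝒟 𝒳 w, Cost A I {o} 4 ∧
      ∀ d x, o d x ⟨0, by omega⟩ = f d x p * g d x q := by
  let T1 : Word w → Word w := fun W => Pi.single ⟨0, by omega⟩ (W p)
  let T2 : Word w → Word w := fun W => Pi.single ⟨1, by omega⟩ (W q)
  let T3 : Word w → Word w := fun W =>
    Pi.single ⟨0, by omega⟩ (W ⟨0, by omega⟩ * W ⟨1, by omega⟩)
  have h1 : Cost A I {fun d x => T1 (f d x)} 1 := Cost.look (hA T1) hf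
  have h2 : Cost A (I ∪ {fun d x => T1 (f d x)}) {fun d x => T2 (g d x)} 1 :=
    Cost.look (hA T2) (Or.inl hg)
  have h3 : Cost A (I ∪ ({fun d x => T1 (f d x)} ∪ {fun d x => T2 (g d x)}))
      {fun d x => T1 (f d x) + T2 (g d x)} 1 :=
    Cost.xor (Or.inr (Or.inl rfl)) (Or.inr (Or.inr rfl))
  have h12 := h1.comp h2
  have h123 := h12.comp h3
  have h4 : Cost A (I ∪ (({fun d x => T1 (f d x)} ∪ {fun d x => T2 (g d x)}) ∪
      {fun d x => T1 (f d x) + T2 (g d x)})) {fun d x => T3 (T1 (f d x) + T2 (g d x))} 1 :=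
    Cost.look (hA T3) (Or.inr (Or.inr rfl))
  have h1234 := h123.comp h4
  refine ⟨fun d x => T3 (T1 (f d x) + T2 (g d x)),
    h1234.mono (le_refl _) Set.subset_union_right (by norm_num), ?_⟩
  intro d x
  have e1 : (⟨0, by omega⟩ : Fin w) ≠ ⟨1, by omega⟩ := by simp
  simp [T1, T2, T3, Pi.single_apply, e1, e1.symm]

theorem packed_apply {n wq : ℕ} (hwq : 0 < wq) (x : Fin n → ZMod 2) (k : ℕ) (c : Fin wq) :
    (packed wq x).getD k 0 c = if h : k * wq + (c : ℕ) < n then x ⟨k * wq + c, h⟩ else 0 := by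
  unfold packed
  rw [List.getD_eq_getElem?_getD, List.getElem?_map]
  by_cases hk : k < (n + wq - 1) / wq
  · rw [List.getElem?_range hk]
    simp
  · have h1 : n ≤ k * wq := by
      have h2 := Nat.div_add_mod (n + wq - 1) wq
      have h3 := Nat.mod_lt (n + wq - 1) hwq
      have h4 : wq * ((n + wq - 1) / wq) ≤ wq * k := Nat.mul_le_mul_left _ (not_lt.1 hk)
      have h5 : k * wq = wq * k := mul_comm _ _
      omega
    have h6 : ¬ (k * wq + (c : ℕ) < n) := by omega
    rw [List.getElem?_eq_none (by simpa using not_lt.1 hk)]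
    simp [h6]

/-- Packing of bits into words of `wq ≤ w` bits. -/
theorem Cost.pack (hA : ∀ T : Word w → Word w, A (fun _ => T)) {wq : ℕ} (hwq : 0 < wq)
    (hw : wq ≤ w) {q : ℕ} (F : Fin q → Wire 𝒟 𝒳 w) (p : Fin q → Fin w) (hF : ∀ i, F i ∈ I) :
    ∃ o : ℕ → Wire 𝒟 𝒳 w,
      Cost A I {f | ∃ k < (q + wq - 1) / wq, f = o k} (3 * q + 1) ∧
      ∀ k d x (c : Fin wq), o k d x (Fin.castLE hw c) =
        (packed wq (fun i => F i d x (p i))).getD k 0 c := by
  classical
  let T : Fin q → Word w → Word w := fun i W =>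
    Pi.single (Fin.castLE hw ⟨(i : ℕ) % wq, Nat.mod_lt _ hwq⟩) (W (p i))
  let s : ℕ → Finset (Fin q) := fun k => univ.filter (fun i => (i : ℕ) / wq = k)
  let o : ℕ → Wire 𝒟 𝒳 w := fun k d x => ∑ i ∈ s k, T i (F i d x)
  refine ⟨o, ?_, ?_⟩
  · have h1 : Cost A I (⋃ k ∈ range ((q + wq - 1) / wq), {o k})
        (∑ k ∈ range ((q + wq - 1) / wq), (2 * (s k).card + 1)) :=
      Cost.biUnion _ (fun k => {o k}) (fun k => 2 * (s k).card + 1)
        (fun k _ => Cost.lin (hA 0) (s k) F (fun i _ => T i) (fun i _ => hA _) (fun i _ => hF i))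
    refine h1.mono (le_refl _) ?_ ?_
    · rintro f ⟨k, hk, rfl⟩
      simp only [Set.mem_iUnion, mem_range]
      exact ⟨k, hk, rfl⟩
    · have h2 : ∑ k ∈ range ((q + wq - 1) / wq), (s k).card ≤ q := by
        have h3 : ∑ k ∈ range ((q + wq - 1) / wq), (s k).card ≤ (univ : Finset (Fin q)).card := by
          rw [← card_biUnion]
          · exact card_le_card (subset_univ _)
          · intro k _ k' _ hkk
            rw [Function.onFun, disjoint_left]
            intro i hi hi'
            exact hkk ((mem_filter.1 hi).2.symm.trans (mem_filter.1 hi').2)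
        simpa using h3
      have h4 : (q + wq - 1) / wq ≤ q := by
        rcases Nat.eq_zero_or_pos q with rfl | hq
        · rw [Nat.div_eq_of_lt (by omega)]
        · rw [Nat.div_le_iff_le_mul_add_pred hwq]
          have := Nat.le_mul_of_pos_left q hwq
          omega
      rw [sum_add_distrib, ← mul_sum, sum_const, card_range, smul_eq_mul, mul_one]
      omega
  · intro k d x c
    rw [packed_apply hwq]
    simp only [o, s, T, Finset.sum_apply, Pi.single_apply]
    rw [sum_filter]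
    split_ifs with h
    · rw [sum_eq_single ⟨k * wq + c, h⟩]
      · have h1 : (k * wq + (c : ℕ)) / wq = k := by
          rw [mul_comm, Nat.mul_add_div hwq, Nat.div_eq_of_lt c.2, add_zero]
        have h2 : (k * wq + (c : ℕ)) % wq = c := by
          rw [mul_comm, Nat.mul_add_mod, Nat.mod_eq_of_lt c.2]
        simp [h1, h2]
      · intro i _ hi
        split_ifs with h1 h2
        · exfalso
          apply hi
          apply Fin.ext
          have h3 : (c : ℕ) = (i : ℕ) % wq := by
            have := congrArg Fin.val h2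
            simpa using this
          have h4 := Nat.div_add_mod (i : ℕ) wq
          simp only
          rw [h3, ← h1, mul_comm]
          exact h4.symm
        · rfl
        · rfl
      · intro h1
        exact absurd (mem_univ _) h1
    · apply sum_eq_zero
      intro i _
      split_ifs with h1 h2
      · exfalso
        apply h
        have h3 : (c : ℕ) = (i : ℕ) % wq := by
          have := congrArg Fin.val h2
          simpa using this
        have h4 := Nat.div_add_mod (i : ℕ) wq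
        rw [h3, ← h1, mul_comm, h4]
        exact i.2
      · rfl
      · rfl

end Pool.Agent.OMV.Tens
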