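import Pool.Agent.Work.MP_0f1f76_lc.Tens.Key
import Pool.Agent.Work.MP_0f1f76_lc.Fast.Conv

/-!
Module CONV: from the key identity to a gadget over `F_2`.
-/

namespace Pool.Agent.OMV.Tens

open Finset Pool.Agent.OMV.Toric

/-- A form gadget with arbitrary index types. -/
structure TGadget (D : ℕ) (R Cl P I : Type) [Fintype R] [Fintype Cl] [Fintype P] [Fintype I] where
  addr : I → (Cl → ZMod 2) →ₗ[ZMod 2] (Fin D → P → ZMod 2)
  dec : R → I → ZMod 2
  tab : (R → Cl → ZMod 2) →ₗ[ZMod 2] (I → (Fin D → P) → ZMod 2)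
  univ : ∀ M x i, ∑ c, dec i c * ∑ a, tab M c a * ∏ j, addr c x j (a j) = ∑ j, M i j * x j

/-- Add `k` empty cells. -/
def TGadget.pad {D : ℕ} {R Cl P I : Type} [Fintype R] [Fintype Cl] [Fintype P] [Fintype I]
    (G : TGadget D R Cl P I) (k : ℕ) : TGadget D R Cl P (I ⊕ Fin k) where
  addr := Sum.elim G.addr (fun _ => 0)
  dec i := Sum.elim (G.dec i) (fun _ => 0)
  tab :=
    { toFun := fun M => Sum.elim (G.tab M) (fun _ => 0)
      map_add' := by
        intro M M'
        funext c
        cases c with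
        | inl c => simp
        | inr c => simp
      map_smul' := by
        intro z M
        funext c
        cases c with
        | inl c => simp
        | inr c => simp }
  univ := by
    intro M x i
    rw [Fintype.sum_sum_type]
    simpa using G.univ M x i

/-- Reindexing. -/
def TGadget.toForm {D r m s t : ℕ} {R Cl P I : Type} [Fintype R] [Fintype Cl] [Fintype P]
    [Fintype I] (G : TGadget D R Cl P I) (eR : Fin r ≃ R) (eC : Fin m ≃ Cl) (eP : Fin s ≃ P)
    (eI : Fin t ≃ I) : FormGadget D r m s t where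
  addr c :=
    { toFun := fun x q => G.addr (eI c) (fun l => x (eC.symm l)) (finProdFinEquiv.symm q).1
        (eP (finProdFinEquiv.symm q).2)
      map_add' := by
        intro x y
        funext q
        have h : (fun l => (x + y) (eC.symm l)) =
            (fun l => x (eC.symm l)) + (fun l => y (eC.symm l)) := rfl
        rw [h, map_add]
        rfl
      map_smul' := by
        intro z x
        funext q
        have h : (fun l => (z • x) (eC.symm l)) = z • (fun l => x (eC.symm l)) := rfl
        rw [h, map_smul]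
        rfl }
  dec i c := G.dec (eR i) (eI c)
  tab :=
    { toFun := fun M c a => G.tab (fun i j => M (eR.symm i) (eC.symm j)) (eI c)
        (fun j => eP (a j))
      map_add' := by
        intro x y
        funext c a
        have h : (fun i j => (x + y) (eR.symm i) (eC.symm j)) =
            (fun i j => x (eR.symm i) (eC.symm j)) + (fun i j => y (eR.symm i) (eC.symm j)) := rfl
        rw [h, map_add]
        rfl
      map_smul' := by
        intro z x
        funext c a
        have h : (fun i j => (z • x) (eR.symm i) (eC.symm j)) =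
            z • (fun i j => x (eR.symm i) (eC.symm j)) := rfl
        rw [h, map_smul]
        rfl }
  univ := by
    intro M x i
    have h1 := G.univ (fun i j => M (eR.symm i) (eC.symm j)) (fun l => x (eC.symm l)) (eR i)
    have h2 : ∑ j, M (eR.symm (eR i)) (eC.symm j) * x (eC.symm j) = ∑ j, M i j * x j := by
      rw [Equiv.symm_apply_apply]
      exact Equiv.sum_comp eC.symm (fun j => M i j * x j)
    rw [← h2, ← h1, ← Equiv.sum_comp eI]
    refine sum_congr rfl (fun c _ => ?_)
    congr 1
    rw [← Equiv.sum_comp (Equiv.arrowCongr (Equiv.refl (Fin D)) eP)]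
    refine sum_congr rfl (fun a _ => ?_)
    simp only [tens, LinearMap.coe_mk, AddHom.coe_mk, Equiv.symm_apply_apply]
    rfl

/-- From a gadget over a field with `2^e` elements to a gadget over `F_2`. -/
theorem tgadget_of_field {F : Type} [Field F] [Fintype F] [CharP F 2] {b e : ℕ}
    {R Cl P I : Type} [Fintype R] [DecidableEq R] [Fintype Cl] [Fintype P] [DecidableEq P]
    [Fintype I] (he : Fintype.card F = 2 ^ e)
    (A : I → (Cl → F) →ₗ[F] (Fin (2 ^ b) → P → F)) (decF : R → I → F) (coef : R → Cl → I → F)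
    (sel : Cl → Fin (2 ^ b) → P)
    (h : ∀ τ ρ l x, ∑ v, decF ρ v * (coef τ l v * ∏ j, A v x j (sel l j)) =
      if τ = ρ then x l ^ 2 ^ b else 0) :
    Nonempty (TGadget (2 ^ b) R (Cl × Fin e) (P × Fin e) (I × Fin e)) := by
  classical
  let _ : Algebra (ZMod 2) F := ZMod.algebra F 2
  have : FiniteDimensional (ZMod 2) F := Module.Finite.of_finite
  have hrank : Module.finrank (ZMod 2) F = e := by
    have h1 := Module.card_eq_pow_finrank (K := ZMod 2) (V := F)
    rw [he, ZMod.card] at h1
    exact (Nat.pow_right_injective le_rfl h1).symm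
  have hrank' : Module.finrank (ZMod 2) F = Module.finrank (ZMod 2) (Fin e → ZMod 2) := by
    rw [hrank]; simp
  let c : F ≃ₗ[ZMod 2] (Fin e → ZMod 2) := LinearEquiv.ofFinrankEq _ _ hrank'
  have he0 : 0 < e := by
    rcases Nat.eq_zero_or_pos e with h0 | h0
    · subst h0
      have : 1 < Fintype.card F := Fintype.one_lt_card
      simp [he] at this
    · exact h0
  let τ : F →ₗ[ZMod 2] ZMod 2 := (LinearMap.proj ⟨0, he0⟩).comp c.toLinearMap
  have hτ : τ ≠ 0 := by
    intro h0
    have h1 := LinearMap.congr_fun h0 (c.symm (fun _ => 1))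
    simp [τ] at h1
  let bs : Fin e → F := fun ε => c.symm (Pi.single ε 1)
  have hbs : ∀ z : F, ∑ ε, c z ε • bs ε = z := by
    intro z
    apply c.injective
    rw [map_sum]
    funext k
    rw [Finset.sum_apply]
    simp [bs, Pi.single_apply]
  have hμ : ∀ ε : Fin e, ∃ μ : F, ∀ x : F, c x ε = τ (μ * x ^ 2 ^ b) := by
    intro ε
    exact exists_mul_functional b τ hτ ((LinearMap.proj ε).comp c.toLinearMap)
  choose μ hμ using hμ
  -- unpacking
  let upk : (Cl × Fin e → ZMod 2) →ₗ[ZMod 2] (Cl → F) :=
    { toFun := fun y l => c.symm (fun ε => y (l, ε))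
      map_add' := by
        intro x y
        funext l
        rw [Pi.add_apply, ← map_add]
        rfl
      map_smul' := by
        intro z x
        funext l
        rw [RingHom.id_apply, Pi.smul_apply, ← map_smul]
        rfl }
  let TF : (R → Cl × Fin e → ZMod 2) → I → (Fin (2 ^ b) → P × Fin e) → F := fun M v idx =>
    ∑ ρ, ∑ l, ∑ ε, M ρ (l, ε) • (μ ε * coef ρ l v *
      ∏ j, (if (idx j).1 = sel l j then bs (idx j).2 else 0))
  have hTFadd : ∀ M M' v idx, TF (M + M') v idx = TF M v idx + TF M' v idx := by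
    intro M M' v idx
    simp only [TF, Pi.add_apply, add_smul, sum_add_distrib]
  have hTFsmul : ∀ (z : ZMod 2) M v idx, TF (z • M) v idx = z • TF M v idx := by
    intro z M v idx
    simp only [TF, Pi.smul_apply, smul_eq_mul, mul_smul, smul_sum]
  refine ⟨{
    addr := fun i =>
      { toFun := fun y j q => c (A i.1 (upk y) j q.1) q.2
        map_add' := by
          intro x y
          funext j q
          rw [map_add, map_add, Pi.add_apply, Pi.add_apply, map_add]
          rfl
        map_smul' := by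
          intro z x
          funext j q
          have h1 : A i.1 (z • upk x) = z • A i.1 (upk x) :=
            ((A i.1).restrictScalars (ZMod 2)).map_smul z (upk x)
          rw [map_smul, h1, Pi.smul_apply, Pi.smul_apply, map_smul]
          rfl }
    dec := fun ρ i => τ (decF ρ i.1 * bs i.2)
    tab :=
      { toFun := fun M i idx => c (TF M i.1 idx) i.2
        map_add' := by
          intro M M'
          funext i idx
          rw [hTFadd, map_add]
          rfl
        map_smul' := by
          intro z M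
          funext i idx
          rw [hTFsmul, map_smul]
          rfl }
    univ := ?_ }⟩
  intro M y ρ
  simp only [LinearMap.coe_mk, AddHom.coe_mk]
  set X := upk y with hX
  -- the value of the form at a cell
  have hprod : ∀ (v : I) (l : Cl),
      ∑ idx : Fin (2 ^ b) → P × Fin e, (∏ j, c (A v X j (idx j).1) (idx j).2) •
        ∏ j, (if (idx j).1 = sel l j then bs (idx j).2 else 0) = ∏ j, A v X j (sel l j) := by
    intro v l
    have h1 : ∀ idx : Fin (2 ^ b) → P × Fin e, (∏ j, c (A v X j (idx j).1) (idx j).2) •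
        ∏ j, (if (idx j).1 = sel l j then bs (idx j).2 else 0) =
        ∏ j, (c (A v X j (idx j).1) (idx j).2 •
          (if (idx j).1 = sel l j then bs (idx j).2 else 0)) := by
      intro idx
      simp only [Algebra.smul_def, map_prod, prod_mul_distrib]
    rw [sum_congr rfl (fun idx _ => h1 idx)]
    have h2 := Finset.prod_univ_sum (fun _ : Fin (2 ^ b) => (univ : Finset (P × Fin e)))
      (fun j q => c (A v X j q.1) q.2 • (if q.1 = sel l j then bs q.2 else 0))
    rw [Fintype.piFinset_univ] at h2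
    rw [← h2]
    refine prod_congr rfl (fun j _ => ?_)
    rw [Fintype.sum_prod_type]
    have h3 : ∀ p : P, ∑ ε : Fin e, c (A v X j p) ε • (if p = sel l j then bs ε else 0) =
        if p = sel l j then A v X j p else 0 := by
      intro p
      split_ifs with hp
      · exact hbs _
      · simp
    simp only []
    rw [sum_congr rfl (fun p _ => h3 p)]
    simp
  have hform : ∀ v : I, ∑ idx : Fin (2 ^ b) → P × Fin e,
      (∏ j, c (A v X j (idx j).1) (idx j).2) • TF M v idx =
      ∑ ρ', ∑ l, ∑ ε, M ρ' (l, ε) • (μ ε * (coef ρ' l v * ∏ j, A v X j (sel l j))) := by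
    intro v
    simp only [TF, smul_sum]
    rw [sum_comm]
    refine sum_congr rfl (fun ρ' _ => ?_)
    rw [sum_comm]
    refine sum_congr rfl (fun l _ => ?_)
    rw [sum_comm]
    refine sum_congr rfl (fun ε _ => ?_)
    rw [← hprod v l, mul_sum, mul_sum, smul_sum]
    refine sum_congr rfl (fun idx _ => ?_)
    simp only [Algebra.smul_def]
    ring
  have hcell : ∀ (v : I), ∑ β : Fin e, τ (decF ρ v * bs β) *
      ∑ idx : Fin (2 ^ b) → P × Fin e, c (TF M v idx) β * ∏ j, c (A v X j (idx j).1) (idx j).2 =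
      τ (decF ρ v * ∑ ρ', ∑ l, ∑ ε, M ρ' (l, ε) •
        (μ ε * (coef ρ' l v * ∏ j, A v X j (sel l j)))) := by
    intro v
    rw [← hform v]
    simp only [mul_sum, map_sum]
    rw [sum_comm]
    refine sum_congr rfl (fun idx _ => ?_)
    have h1 : TF M v idx = ∑ β, c (TF M v idx) β • bs β := (hbs _).symm
    set Pr := ∏ j, c (A v X j (idx j).1) (idx j).2 with hPr
    calc ∑ β, τ (decF ρ v * bs β) * (c (TF M v idx) β * Pr)
        = ∑ β, τ ((c (TF M v idx) β * Pr) • (decF ρ v * bs β)) := by
          refine sum_congr rfl (fun β _ => ?_)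
          rw [map_smul, smul_eq_mul, mul_comm]
      _ = τ (decF ρ v * Pr • ∑ β, c (TF M v idx) β • bs β) := by
          rw [← map_sum, smul_sum, mul_sum]
          congr 1
          refine sum_congr rfl (fun β _ => ?_)
          simp only [Algebra.smul_def, map_mul]
          ring
      _ = τ (decF ρ v * Pr • TF M v idx) := by rw [← h1]
  rw [Fintype.sum_prod_type]
  simp only []
  rw [sum_congr rfl (fun v _ => hcell v), ← map_sum]
  have hmain : ∑ v, decF ρ v * ∑ ρ', ∑ l, ∑ ε, M ρ' (l, ε) •
        (μ ε * (coef ρ' l v * ∏ j, A v X j (sel l j))) =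
      ∑ l, ∑ ε, M ρ (l, ε) • (μ ε * X l ^ 2 ^ b) := by
    have h1 : ∀ v, decF ρ v * ∑ ρ', ∑ l, ∑ ε, M ρ' (l, ε) •
        (μ ε * (coef ρ' l v * ∏ j, A v X j (sel l j))) =
        ∑ ρ', ∑ l, ∑ ε, M ρ' (l, ε) •
        (μ ε * (decF ρ v * (coef ρ' l v * ∏ j, A v X j (sel l j)))) := by
      intro v
      rw [mul_sum]
      refine sum_congr rfl (fun ρ' _ => ?_)
      rw [mul_sum]
      refine sum_congr rfl (fun l _ => ?_)
      rw [mul_sum]
      refine sum_congr rfl (fun ε _ => ?_)
      simp only [Algebra.smul_def]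
      ring
    rw [sum_congr rfl (fun v _ => h1 v), sum_comm]
    have h2 : ∀ ρ', ∑ v, ∑ l, ∑ ε, M ρ' (l, ε) •
        (μ ε * (decF ρ v * (coef ρ' l v * ∏ j, A v X j (sel l j)))) =
        if ρ' = ρ then ∑ l, ∑ ε, M ρ (l, ε) • (μ ε * X l ^ 2 ^ b) else 0 := by
      intro ρ'
      rw [sum_comm]
      have h3 : ∀ l, ∑ v, ∑ ε, M ρ' (l, ε) •
          (μ ε * (decF ρ v * (coef ρ' l v * ∏ j, A v X j (sel l j)))) =
          ∑ ε, M ρ' (l, ε) • (μ ε * (if ρ' = ρ then X l ^ 2 ^ b else 0)) := by
        intro l
        rw [sum_comm]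
        refine sum_congr rfl (fun ε _ => ?_)
        rw [← smul_sum, ← mul_sum, h ρ' ρ l X]
      rw [sum_congr rfl (fun l _ => h3 l)]
      split_ifs with hρ
      · subst hρ
        rfl
      · simp
    rw [sum_congr rfl (fun ρ' _ => h2 ρ')]
    simp
  rw [hmain, map_sum, Fintype.sum_prod_type]
  refine sum_congr rfl (fun l _ => ?_)
  rw [map_sum]
  refine sum_congr rfl (fun ε _ => ?_)
  rw [map_smul, ← hμ, smul_eq_mul]
  congr 1
  simp [hX, upk]

/-- The address map of a grid cell, as a linear map. -/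
def adrLin {F : Type} [Field F] {b h M s C : ℕ} (θ : Fin (2 ^ b * (2 * h + 2)) → F)
    (a : Fin C → Fin (2 ^ b) → Fin s) (σ : Fin C → Fin M → Bool)
    (v : Grid (2 ^ b * (2 * h + 2)) M) : (Col C M → F) →ₗ[F] (Fin (2 ^ b) → Fin s → F) where
  toFun x j p := adrT θ a σ v x j p
  map_add' := by
    intro x y
    funext j p
    change adrT θ a σ v (x + y) j p = adrT θ a σ v x j p + adrT θ a σ v y j p
    simp only [adrT, Pi.add_apply, ← sum_add_distrib]
    refine sum_congr rfl (fun l _ => ?_)
    split_ifs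
    · ring
    · ring
  map_smul' := by
    intro z x
    funext j p
    change adrT θ a σ v (z • x) j p = z * adrT θ a σ v x j p
    simp only [adrT, Pi.smul_apply, smul_eq_mul, mul_sum]
    refine sum_congr rfl (fun l _ => ?_)
    split_ifs
    · ring
    · ring

/-- The address map of the cell of a bad pair with column `l`, as a linear map. -/
def badLin {F : Type} [Field F] {b M s C : ℕ}
    (a : Fin C → Fin (2 ^ b) → Fin s) (l : Col C M) :
    (Col C M → F) →ₗ[F] (Fin (2 ^ b) → Fin s → F) where
  toFun x j p := if a l.1 j = p then x l else 0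
  map_add' := by
    intro x y
    funext j p
    simp only [Pi.add_apply]
    split_ifs
    · rfl
    · ring
  map_smul' := by
    intro z x
    funext j p
    simp only [Pi.smul_apply, smul_eq_mul, RingHom.id_apply]
    split_ifs
    · rfl
    · ring

open Classical in
/-- The gadget over `F_2` obtained from a field with `2^e` elements. -/
theorem gadget_field (F : Type) [Field F] [Fintype F] [CharP F 2] (b h M s e B : ℕ)
    (hcard : Fintype.card F = 2 ^ e)
    (hL : 2 ^ b * (2 * h + 2) ≤ 2 ^ e) (σ : Fin (s ^ 2 ^ b) → Fin M → Bool)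
    (hB : ((univ : Finset (Row (2 ^ b) h M × (Fin M → Bool))).filter
        (fun p => ¬ Fine σ p.1 p.2)).card ≤ B) :
    Nonempty (FormGadget (2 ^ b) (((2 ^ b) ^ 2 * (2 * h * h)) ^ M) (s ^ 2 ^ b * 2 ^ M * e) (s * e)
      (((2 ^ b * (2 * h + 2)) ^ (2 * M) + s ^ 2 ^ b * B) * e)) := by
  obtain ⟨θ⟩ : Nonempty (Fin (2 ^ b * (2 * h + 2)) ↪ F) :=
    Function.Embedding.nonempty_of_card_le (by rw [hcard, Fintype.card_fin]; exact hL)
  obtain ⟨d, hd⟩ := exists_dual θ θ.injective
  let a : Fin (s ^ 2 ^ b) → Fin (2 ^ b) → Fin s := fun c => finFunctionFinEquiv.symm c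
  have ha : Function.Injective a := fun x y hxy => finFunctionFinEquiv.symm.injective hxy
  let BadT := {p : Row (2 ^ b) h M × Col (s ^ 2 ^ b) M // ¬ Fine σ p.1 p.2.2}
  let I := Grid (2 ^ b * (2 * h + 2)) M ⊕ BadT
  let A : I → (Col (s ^ 2 ^ b) M → F) →ₗ[F] (Fin (2 ^ b) → Fin s → F) :=
    Sum.elim (fun v => adrLin θ a σ v) (fun q => badLin a q.1.2)
  let decF : Row (2 ^ b) h M → I → F := fun ρ =>
    Sum.elim (dec d ρ) (fun q => if q.1.1 = ρ then 1 else 0)
  let coef : Row (2 ^ b) h M → Col (s ^ 2 ^ b) M → I → F := fun τ l =>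
    Sum.elim (fun v => if Fine σ τ l.2 then mon θ v (kap τ (σ l.1) l.2) else 0)
      (fun q => if q.1 = (τ, l) then 1 else 0)
  let sel : Col (s ^ 2 ^ b) M → Fin (2 ^ b) → Fin s := fun l => a l.1
  have hkey : ∀ τ ρ l x, ∑ v, decF ρ v * (coef τ l v * ∏ j, A v x j (sel l j)) =
      if τ = ρ then x l ^ 2 ^ b else 0 := by
    intro τ ρ l x
    rw [Fintype.sum_sum_type]
    by_cases hg : Fine σ τ l.2
    · have h1 : ∑ q : BadT, decF ρ (Sum.inr q) * (coef τ l (Sum.inr q) *
          ∏ j, A (Sum.inr q) x j (sel l j)) = 0 := by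
        apply sum_eq_zero
        intro q _
        have h2 : coef τ l (Sum.inr q) = 0 := by
          change (if q.1 = (τ, l) then (1 : F) else 0) = 0
          rw [if_neg]
          intro h3
          have h4 := q.2
          rw [h3] at h4
          exact h4 hg
        rw [h2, zero_mul, mul_zero]
      rw [h1, add_zero]
      have h2 := keyT θ d a σ hd ha τ ρ l hg x
      rw [← h2]
      refine sum_congr rfl (fun v _ => ?_)
      change dec d ρ v * ((if Fine σ τ l.2 then mon θ v (kap τ (σ l.1) l.2) else 0) *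
        ∏ j, adrT θ a σ v x j (a l.1 j)) = _
      rw [if_pos hg]
    · have h1 : ∑ v : Grid (2 ^ b * (2 * h + 2)) M, decF ρ (Sum.inl v) * (coef τ l (Sum.inl v) *
          ∏ j, A (Sum.inl v) x j (sel l j)) = 0 := by
        apply sum_eq_zero
        intro v _
        have h2 : coef τ l (Sum.inl v) = 0 := by
          change (if Fine σ τ l.2 then mon θ v (kap τ (σ l.1) l.2) else 0) = 0
          rw [if_neg hg]
        rw [h2, zero_mul, mul_zero]
      rw [h1, zero_add]
      let q0 : BadT := ⟨(τ, l), hg⟩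
      rw [Fintype.sum_eq_single q0]
      · change (if τ = ρ then (1 : F) else 0) * ((if (τ, l) = (τ, l) then (1 : F) else 0) *
          ∏ j, (if a l.1 j = a l.1 j then x l else 0)) = _
        simp
      · intro q hq
        have h2 : coef τ l (Sum.inr q) = 0 := by
          change (if q.1 = (τ, l) then (1 : F) else 0) = 0
          rw [if_neg]
          intro h3
          exact hq (Subtype.ext h3)
        rw [h2, zero_mul, mul_zero]
  obtain ⟨G⟩ := tgadget_of_field hcard A decF coef sel hkey
  -- cardinalities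
  have hcR : Fintype.card (Row (2 ^ b) h M) = ((2 ^ b) ^ 2 * (2 * h * h)) ^ M := by
    simp only [Fintype.card_fun, Fintype.card_prod, Fintype.card_fin]
    congr 1
    ring
  have hcC : Fintype.card (Col (s ^ 2 ^ b) M × Fin e) = s ^ 2 ^ b * 2 ^ M * e := by
    simp only [Fintype.card_fun, Fintype.card_prod, Fintype.card_fin, Fintype.card_bool]
  have hcBad : Fintype.card BadT ≤ s ^ 2 ^ b * B := by
    let g : BadT → Fin (s ^ 2 ^ b) × {p : Row (2 ^ b) h M × (Fin M → Bool) // ¬ Fine σ p.1 p.2} :=
      fun q => (q.1.2.1, ⟨(q.1.1, q.1.2.2), q.2⟩)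
    have hg : Function.Injective g := by
      rintro ⟨⟨τ, c, β⟩, hq⟩ ⟨⟨τ', c', β'⟩, hq'⟩ hh
      simp only [g, Prod.mk.injEq, Subtype.mk.injEq] at hh
      obtain ⟨h1, h2, h3⟩ := hh
      subst h1; subst h2; subst h3
      rfl
    have h1 := Fintype.card_le_of_injective g hg
    refine h1.trans ?_
    rw [Fintype.card_prod, Fintype.card_fin, Fintype.card_subtype]
    exact Nat.mul_le_mul_left _ hB
  have hcI : Fintype.card I ≤ (2 ^ b * (2 * h + 2)) ^ (2 * M) + s ^ 2 ^ b * B := by
    rw [Fintype.card_sum]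
    refine Nat.add_le_add (le_of_eq ?_) hcBad
    simp only [Fintype.card_fun, Fintype.card_fin, Fintype.card_bool]
    rw [← pow_mul]
  have hcI' : Fintype.card (I × Fin e) ≤
      ((2 ^ b * (2 * h + 2)) ^ (2 * M) + s ^ 2 ^ b * B) * e := by
    rw [Fintype.card_prod, Fintype.card_fin]
    exact Nat.mul_le_mul_right _ hcI
  obtain ⟨k, hk⟩ := Nat.exists_eq_add_of_le hcI'
  have hcT : Fintype.card ((I × Fin e) ⊕ Fin k) =
      ((2 ^ b * (2 * h + 2)) ^ (2 * M) + s ^ 2 ^ b * B) * e := by
    rw [Fintype.card_sum, Fintype.card_fin, hk]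
  exact ⟨(G.pad k).toForm (Fintype.equivFinOfCardEq hcR).symm (Fintype.equivFinOfCardEq hcC).symm
    finProdFinEquiv.symm (Fintype.equivFinOfCardEq hcT).symm⟩

open Classical in
/-- The gadget over `F_2` obtained from a field with `2^e` elements.  Cells: (grid cell or bad
pair) and a bit `< e`.  A bad pair `(τ, l)` has the cell with address vectors `x_l` at position
`(a l.1 j)` (zero elsewhere) and decoder `[ρ = τ]`. -/
theorem gadget_exists (b h M s e B : ℕ) (hs : 0 < s)
    (hL : 2 ^ b * (2 * h + 2) ≤ 2 ^ e) (σ : Fin (s ^ 2 ^ b) → Fin M → Bool)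
    (hB : ((univ : Finset (Row (2 ^ b) h M × (Fin M → Bool))).filter
        (fun p => ¬ Fine σ p.1 p.2)).card ≤ B) :
    Nonempty (FormGadget (2 ^ b) (((2 ^ b) ^ 2 * (2 * h * h)) ^ M) (s ^ 2 ^ b * 2 ^ M * e) (s * e)
      (((2 ^ b * (2 * h + 2)) ^ (2 * M) + s ^ 2 ^ b * B) * e)) := by
  have hb0 : 0 < 2 ^ b := by positivity
  have he : e ≠ 0 := by
    rintro rfl
    have h1 : 1 * 2 ≤ 2 ^ b * (2 * h + 2) := Nat.mul_le_mul hb0 (by omega)
    rw [pow_zero] at hL
    omega
  have : Fact (Nat.Prime 2) := ⟨Nat.prime_two⟩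
  have : Fintype (GaloisField 2 e) := Fintype.ofFinite _
  have hcard : Fintype.card (GaloisField 2 e) = 2 ^ e := by
    rw [← Nat.card_eq_fintype_card]
    exact GaloisField.card 2 e he
  exact gadget_field (GaloisField 2 e) b h M s e B hcard hL σ hB

end Pool.Agent.OMV.Tens
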