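import Mathlib
import Pool.Agent.Work.MP_0f1f76_lc.Fast.Model

/-!
# Online evaluation problems over `F_2` and straight-line word programs

The machine model (words, instructions, `run`, `packed`) is the one of `Fast.Model`.
-/

namespace Pool.Agent.OMV.Tens

open Finset

/-- An online evaluation problem over `F_2`: the data (a vector over `F_2` indexed by `ι`) may be
preprocessed; a query consists of `q` bits and the answer of `a` bits. -/
structure Problem where
  ι : Type
  q : ℕ
  a : ℕ
  f : (ι → ZMod 2) → (Fin q → ZMod 2) → Fin a → ZMod 2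

/-- Matrix-vector multiplication: the data are an `n × n` matrix `M`, the query is a vector `x`,
the answer is `M x`. -/
def omv (n : ℕ) : Problem where
  ι := Fin n × Fin n
  q := n
  a := n
  f M x i := ∑ j, M (i, j) * x j

/-- The entry at the multi-index `c` of the pure tensor `w_1 ⊗ ⋯ ⊗ w_D`, where
`w_j = (x (j s), …, x (j s + s - 1))` for `j < D` are the consecutive blocks of `s` bits of `x`. -/
def tens {D s : ℕ} (x : Fin (D * s) → ZMod 2) (c : Fin D → Fin s) : ZMod 2 :=
  ∏ j, x (finProdFinEquiv (j, c j))

/-- Evaluation of a `D`-linear form `T : (F_2^s)^D → F_2` (the data are its `s^D` coefficients) at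
the query `(w_1, …, w_D)`. -/
def form (D s : ℕ) : Problem where
  ι := Fin D → Fin s
  q := D * s
  a := 1
  f T x _ := ∑ c, T c * tens x c

/-- Matrix-vector multiplication for pure tensors: the data are an `s^D × s^D` matrix `M` (columns
indexed by multi-indices), the query is `(w_1, …, w_D)`, the answer is `M (w_1 ⊗ ⋯ ⊗ w_D)`. -/
def tensorOmv (D s : ℕ) : Problem where
  ι := Fin (s ^ D) × (Fin D → Fin s)
  q := D * s
  a := s ^ D
  f M x i := ∑ c, M (i, c) * tens x c

/-- The program `P` with output registers `out` solves the problem `B` when the data `d` are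
preprocessed into the tables `pre d`: after the run on the packed query, bit `i % w` of register
`out (i / w)` is the `i`-th bit of the answer. -/
def Solves (B : Problem) {w S : ℕ} (P : List Instr) (out : ℕ → ℕ)
    (pre : (B.ι → ZMod 2) → Fin S → Word w → Word w) : Prop :=
  ∀ (d : B.ι → ZMod 2) (x : Fin B.q → ZMod 2) (i : Fin B.a) (b : Fin w),
    (b : ℕ) = (i : ℕ) % w →
      ((run (pre d) (packed w x) P).getD (out ((i : ℕ) / w)) 0) b = B.f d x i

/-- The preprocessing map is affine over `F_2`. -/
def IsAffine {ι : Type} {w S : ℕ} (pre : (ι → ZMod 2) → Fin S → Word w → Word w) : Prop :=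
  ∃ (base : Fin S → Word w → Word w)
    (lin : (ι → ZMod 2) →ₗ[ZMod 2] (Fin S → Word w → Word w)), ∀ d, pre d = base + lin d

/-- The problems `B n` can be solved with `n^(e - ε)` instructions for some `ε > 0`: there are
`ε > 0` and a constant `k ≥ 1` such that for all large `n` there is a straight-line program with at
most `n^(e - ε)` instructions on words of `k ⌈log₂ n⌉` bits, using at most `n^k` tables (of
`2^(k ⌈log₂ n⌉)` words each) that depend on the data only.  If `aff` is true, the tables are
required to be `F_2`-affine functions of the data. -/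
def Fast (aff : Bool) (B : ℕ → Problem) (e : ℕ) : Prop :=
  ∃ (ε : ℝ) (_ : 0 < ε) (k : ℕ) (_ : 1 ≤ k) (n₀ : ℕ), ∀ n : ℕ, n₀ ≤ n →
    ∃ (S : ℕ) (P : List Instr) (out : ℕ → ℕ)
      (pre : ((B n).ι → ZMod 2) → Fin S → Word (k * Nat.clog 2 n) → Word (k * Nat.clog 2 n)),
      S ≤ n ^ k ∧ (P.length : ℝ) ≤ (n : ℝ) ^ ((e : ℝ) - ε) ∧
      (aff = true → IsAffine pre) ∧ Solves (B n) P out pre

end Pool.Agent.OMV.Tens
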