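import Pool.Agent.Work.MP_0f1f76_lc.Tens.Realize

/-!
Module EASY: the trivial splittings.
-/

namespace Pool.Agent.OMV.Tens

open Finset

/-- `Red aff B B' p q`: for every size `n`, every program for `B n` (words of `wq ≥ 1` bits) and
every `w ≥ wq`, `w ≥ 2`, there is a program for `B' n` on words of `w` bits with at most
`C (n^p (len + 1) + n^q)` instructions and tables. -/
def Red (aff : Bool) (B B' : ℕ → Problem) (p q : ℕ) : Prop :=
  ∃ C : ℕ, ∀ (n wq Sq : ℕ) (P : List Instr) (out : ℕ → ℕ)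
    (pre : ((B n).ι → ZMod 2) → Fin Sq → Word wq → Word wq), 1 ≤ n → 0 < wq →
    (aff = true → IsAffine pre) → Solves (B n) P out pre →
    ∀ w : ℕ, wq ≤ w → 2 ≤ w →
      ∃ (S : ℕ) (P' : List Instr) (out' : ℕ → ℕ)
        (pre' : ((B' n).ι → ZMod 2) → Fin S → Word w → Word w),
        S ≤ C * (n ^ p * (P.length + 1) + n ^ q) ∧
        P'.length ≤ C * (n ^ p * (P.length + 1) + n ^ q) ∧
        (aff = true → IsAffine pre') ∧ Solves (B' n) P' out' pre'

/-- The input bit `i` of the query is in position `i % w` of the input wire `i / w`. -/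
theorem inW_bit (B : Problem) {w : ℕ} (hw : 0 < w) (i : Fin B.q) :
    inW B w ((i : ℕ) / w) ∈ inSet B w ∧
      ∀ d x, inW B w ((i : ℕ) / w) d x ⟨(i : ℕ) % w, Nat.mod_lt _ hw⟩ = x i := by
  constructor
  · refine ⟨(i : ℕ) / w, ?_, rfl⟩
    have hi := i.2
    have h1 := Nat.div_add_mod (i : ℕ) w
    have h2 := Nat.mod_lt (i : ℕ) hw
    rw [Nat.lt_iff_add_one_le, Nat.le_div_iff_mul_le hw]
    have h3 : ((i : ℕ) / w + 1) * w = w * ((i : ℕ) / w) + w := by ring
    omega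
  · intro d x
    unfold inW
    rw [packed_apply hw]
    have h1 : (i : ℕ) / w * w + (i : ℕ) % w = i := by
      rw [mul_comm]; exact Nat.div_add_mod _ _
    simp only [h1, i.2, dif_pos]

/-- Sub-calls: the query `χ x` is packed once, and the program is run for the data `δ b d`. -/
theorem subcalls (aff : Bool) (B : Problem) {wq Sq : ℕ} (P : List Instr) (out : ℕ → ℕ)
    (pre : (B.ι → ZMod 2) → Fin Sq → Word wq → Word wq) (haff : aff = true → IsAffine pre)
    (hP : Solves B P out pre) (hwq : 0 < wq) {w : ℕ} (hw : wq ≤ w) {ι 𝒳 β : Type} [Fintype β]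
    (δ : β → (ι → ZMod 2) →ₗ[ZMod 2] (B.ι → ZMod 2)) (χ : 𝒳 → Fin B.q → ZMod 2)
    {I : Set (Wire (ι → ZMod 2) 𝒳 w)} (F : Fin B.q → Wire (ι → ZMod 2) 𝒳 w)
    (p : Fin B.q → Fin w) (hF : ∀ i, F i ∈ I) (hχ : ∀ i d x, F i d x (p i) = χ x i) :
    ∃ (o : β → Fin B.a → Wire (ι → ZMod 2) 𝒳 w) (p' : Fin B.a → Fin w),
      Cost (Adm aff) I {f | ∃ b i, f = o b i}
        (3 * B.q + 1 + Fintype.card β * (P.length + 1)) ∧
      ∀ b i d x, o b i d x (p' i) = B.f (δ b d) (χ x) i := by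
  obtain ⟨inp, hc1, hinp⟩ := Cost.pack (A := Adm aff) (I := I) (fun T => Adm.const T) hwq hw F p hF
  have hinp' : ∀ k < (B.q + wq - 1) / wq, ∀ d x (c : Fin wq),
      inp k d x (Fin.castLE hw c) = (packed wq (χ x)).getD k 0 c := by
    intro k _ d x c
    rw [hinp k d x c]
    have : (fun i => F i d x (p i)) = χ x := funext fun i => hχ i d x
    rw [this]
  choose o hc2 ho using fun b => simulate aff B P out pre haff hP hw (δ b) χ inp hinp'
  refine ⟨fun b i => o b ((i : ℕ) / wq),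
    fun i => Fin.castLE hw ⟨(i : ℕ) % wq, Nat.mod_lt _ hwq⟩, ?_, ?_⟩
  · have h1 := Cost.biUnion (A := Adm aff) (univ : Finset β) (fun b => {f | ∃ j, f = o b j})
      (fun _ => P.length + 1) (fun b _ => hc2 b)
    have h2 := hc1.comp (h1.mono Set.subset_union_right (le_refl _) (le_refl _))
    refine h2.mono (le_refl _) ?_ (by simp [sum_const, card_univ])
    rintro f ⟨b, i, rfl⟩
    right
    simp only [Set.mem_iUnion]
    exact ⟨b, mem_univ b, _, rfl⟩
  · intro b i d x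
    exact ho b d x i ⟨(i : ℕ) % wq, Nat.mod_lt _ hwq⟩ rfl

/-- The sums `∑ b, X b * G b c` for all `c`. -/
theorem mulSum {𝒟 𝒳 : Type} {w : ℕ} {A : (𝒟 → Word w → Word w) → Prop}
    {I : Set (Wire 𝒟 𝒳 w)} (hA : ∀ T : Word w → Word w, A (fun _ => T)) (hw : 2 ≤ w)
    {β γ : Type} [Fintype β] [Fintype γ] (G : β → γ → Wire 𝒟 𝒳 w) (p : β → γ → Fin w)
    (X : β → Wire 𝒟 𝒳 w) (r : β → Fin w) (hG : ∀ b c, G b c ∈ I) (hX : ∀ b, X b ∈ I) :
    ∃ o : γ → Wire 𝒟 𝒳 w,
      Cost A I {f | ∃ c, f = o c} (Fintype.card γ * (6 * Fintype.card β + 1)) ∧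
      ∀ c d x, o c d x ⟨0, by omega⟩ = ∑ b, X b d x (r b) * G b c d x (p b c) := by
  choose m hm1 hm2 using fun (b : β) (c : γ) =>
    Cost.mulBit (A := A) (I := I) hA hw (hX b) (hG b c) (r b) (p b c)
  have hstep : ∀ c : γ, ∃ o : Wire 𝒟 𝒳 w, Cost A I {o} (6 * Fintype.card β + 1) ∧
      ∀ d x, o d x ⟨0, by omega⟩ = ∑ b, X b d x (r b) * G b c d x (p b c) := by
    intro c
    have h1 := Cost.family (A := A) (I := I) (univ : Finset β) (fun b => m b c) 4
      (fun b _ => hm1 b c)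
    obtain ⟨o, ho1, ho2⟩ := Cost.linBit (A := A) (I := I ∪ {f | ∃ b ∈ (univ : Finset β), f = m b c})
      hA (by omega : 0 < w) (univ : Finset β) (fun b => m b c) (fun _ => ⟨0, by omega⟩)
      (fun _ => 1) (fun b _ => Or.inr ⟨b, mem_univ b, rfl⟩)
    refine ⟨o, (h1.comp ho1).mono (le_refl _) Set.subset_union_right ?_, ?_⟩
    · rw [card_univ]; omega
    · intro d x
      rw [ho2 d x]
      apply sum_congr rfl
      intro b _
      rw [one_mul, hm2 b c d x]
  choose o ho1 ho2 using hstep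
  refine ⟨o, ?_, ho2⟩
  have h2 := Cost.family (A := A) (I := I) (univ : Finset γ) o (6 * Fintype.card β + 1)
    (fun c _ => ho1 c)
  refine h2.mono (le_refl _) ?_ (by rw [card_univ])
  rintro f ⟨c, rfl⟩
  exact ⟨c, mem_univ c, rfl⟩

/-- From wires containing the answer bits to a program. -/
theorem finish (aff : Bool) (B : Problem) {w n : ℕ} (hw : 0 < w)
    {O : Set (Wire (B.ι → ZMod 2) (Fin B.q → ZMod 2) w)}
    (hC : Cost (Adm aff) (inSet B w) O n)
    (G : Fin B.a → Wire (B.ι → ZMod 2) (Fin B.q → ZMod 2) w) (p : Fin B.a → Fin w)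
    (hG : ∀ i, G i ∈ O) (hv : ∀ i d x, G i d x (p i) = B.f d x i) {m : ℕ}
    (hm : n + (3 * B.a + 1) ≤ m) :
    ∃ (S : ℕ) (P : List Instr) (out : ℕ → ℕ) (pre : (B.ι → ZMod 2) → Fin S → Word w → Word w),
      S ≤ m ∧ P.length ≤ m ∧ (aff = true → IsAffine pre) ∧ Solves B P out pre := by
  obtain ⟨g, hc1, hg⟩ := Cost.pack (A := Adm aff) (I := inSet B w ∪ O) (fun T => Adm.const T) hw
    (le_refl w) G p (fun i => Or.inr (hG i))
  have h1 := (hC.comp hc1).mono (le_refl _) (le_refl _) hm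
  refine realize aff B w m _ h1 g ?_ ?_
  · intro i
    right
    refine ⟨(i : ℕ) / w, ?_, rfl⟩
    have hi := i.2
    have h1 := Nat.div_add_mod (i : ℕ) w
    have h2 := Nat.mod_lt (i : ℕ) hw
    rw [Nat.lt_iff_add_one_le, Nat.le_div_iff_mul_le hw]
    have h3 : ((i : ℕ) / w + 1) * w = w * ((i : ℕ) / w) + w := by ring
    omega
  · intro d x i b hb
    have h2 := hg ((i : ℕ) / w) d x b
    rw [packed_apply hw] at h2
    have h3 : (i : ℕ) / w * w + (b : ℕ) = i := by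
      rw [hb, mul_comm]; exact Nat.div_add_mod _ _
    simp only [h3, i.2, dif_pos] at h2
    rw [← hv i d x, ← h2]
    rfl

/-! ### Index manipulations -/

/-- The blocks `w_2, …, w_(D+1)` of a query. -/
def tailQ {D s : ℕ} (x : Fin ((D + 1) * s) → ZMod 2) : Fin (D * s) → ZMod 2 :=
  fun i => x (finProdFinEquiv ((finProdFinEquiv.symm i).1.succ, (finProdFinEquiv.symm i).2))

theorem tailQ_apply {D s : ℕ} (x : Fin ((D + 1) * s) → ZMod 2) (j : Fin D) (a : Fin s) :
    tailQ x (finProdFinEquiv (j, a)) = x (finProdFinEquiv (j.succ, a)) := by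
  simp [tailQ]

theorem tens_cons {D s : ℕ} (x : Fin ((D + 1) * s) → ZMod 2) (a : Fin s) (c : Fin D → Fin s) :
    tens x (Fin.cons a c : Fin (D + 1) → Fin s) =
      x (finProdFinEquiv (0, a)) * tens (tailQ x) c := by
  unfold tens tailQ
  rw [Fin.prod_univ_succ]
  simp

theorem sum_tens_cons {D s : ℕ} (T : (Fin (D + 1) → Fin s) → ZMod 2)
    (x : Fin ((D + 1) * s) → ZMod 2) :
    ∑ c, T c * tens x c =
      ∑ a, x (finProdFinEquiv (0, a)) *
        ∑ c : Fin D → Fin s, T (Fin.cons a c : Fin (D + 1) → Fin s) * tens (tailQ x) c := by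
  rw [← (Fin.consEquiv (fun _ : Fin (D + 1) => Fin s)).sum_comp, Fintype.sum_prod_type]
  apply sum_congr rfl
  intro a _
  rw [mul_sum]
  apply sum_congr rfl
  intro c _
  have h1 : (Fin.consEquiv (fun _ : Fin (D + 1) => Fin s)) (a, c) =
      (Fin.cons a c : Fin (D + 1) → Fin s) := rfl
  rw [h1, tens_cons]
  ring

theorem tens_one {s : ℕ} (x : Fin (1 * s) → ZMod 2) (c : Fin 1 → Fin s) :
    tens x c = x (finProdFinEquiv (0, c 0)) := by
  unfold tens
  simp

theorem sum_tens_one {s : ℕ} (T : (Fin 1 → Fin s) → ZMod 2) (x : Fin (1 * s) → ZMod 2) :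
    ∑ c, T c * tens x c = ∑ a, T (fun _ => a) * x (finProdFinEquiv (0, a)) := by
  rw [← (Equiv.funUnique (Fin 1) (Fin s)).symm.sum_comp]
  apply sum_congr rfl
  intro a _
  rw [tens_one]
  rfl

/-! ### The reductions -/

theorem red_omv_form (aff : Bool) : Red aff omv (form 2) 0 1 := by
  refine ⟨20, ?_⟩
  intro n wq Sq P out pre hn hwq haff hP w hw hw2
  have hw0 : 0 < w := by omega
  let F : Fin (omv n).q → Wire (((form 2 n).ι → ZMod 2)) (Fin (form 2 n).q → ZMod 2) w :=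
    fun i => inW (form 2 n) w (((finProdFinEquiv ((1 : Fin 2), i) : Fin (2 * n)) : ℕ) / w)
  let p : Fin (omv n).q → Fin w :=
    fun i => ⟨((finProdFinEquiv ((1 : Fin 2), i) : Fin (2 * n)) : ℕ) % w, Nat.mod_lt _ hw0⟩
  let X : Fin n → Wire (((form 2 n).ι → ZMod 2)) (Fin (form 2 n).q → ZMod 2) w :=
    fun i => inW (form 2 n) w (((finProdFinEquiv ((0 : Fin 2), i) : Fin (2 * n)) : ℕ) / w)
  let r : Fin n → Fin w :=
    fun i => ⟨((finProdFinEquiv ((0 : Fin 2), i) : Fin (2 * n)) : ℕ) % w, Nat.mod_lt _ hw0⟩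
  let χ : (Fin (form 2 n).q → ZMod 2) → Fin (omv n).q → ZMod 2 :=
    fun x i => x (finProdFinEquiv ((1 : Fin 2), i) : Fin (2 * n))
  let δ : Unit → ((form 2 n).ι → ZMod 2) →ₗ[ZMod 2] ((omv n).ι → ZMod 2) :=
    fun _ => LinearMap.funLeft (ZMod 2) (ZMod 2)
      (fun ij : Fin n × Fin n => (Fin.cons ij.1 (fun _ => ij.2) : Fin 2 → Fin n))
  obtain ⟨o, p', hc1, ho⟩ := subcalls aff (omv n) P out pre haff hP hwq hw δ χ
    (I := inSet (form 2 n) w) F p (fun i => (inW_bit (form 2 n) hw0 _).1)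
    (fun i d x => (inW_bit (form 2 n) hw0 _).2 d x)
  obtain ⟨g, hc2, hg⟩ := mulSum (A := Adm aff) (I := inSet (form 2 n) w ∪ {f | ∃ b i, f = o b i})
    (fun T => Adm.const T) hw2 (β := Fin n) (γ := Unit) (fun b _ => o () b) (fun b _ => p' b) X r
    (fun b _ => Or.inr ⟨(), b, rfl⟩) (fun b => Or.inl (inW_bit (form 2 n) hw0 _).1)
  refine finish aff (form 2 n) hw0 (hc1.comp hc2) (fun _ => g ()) (fun _ => ⟨0, hw0⟩)
    (fun _ => Or.inr ⟨(), rfl⟩) ?_ ?_
  · intro i d x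
    rw [hg () d x]
    have h1 : ∀ b : Fin n, X b d x (r b) = x (finProdFinEquiv ((0 : Fin 2), b) : Fin (2 * n)) :=
      fun b => (inW_bit (form 2 n) hw0 _).2 d x
    refine Eq.trans ?_ (sum_tens_cons (D := 1) (s := n) d x).symm
    apply sum_congr rfl
    intro b _
    refine (congrArg₂ (· * ·) (h1 b) (ho () b d x)).trans ?_
    rw [sum_tens_one]
    refine congrArg (fun z : ZMod 2 => x (finProdFinEquiv ((0 : Fin 2), b)) * z) ?_
    have h2 : (omv n).f (δ () d) (χ x) b = ∑ a : Fin n,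
        d (Fin.cons b fun _ => a : Fin 2 → Fin n) *
          x (finProdFinEquiv ((0 : Fin 1).succ, a) : Fin (2 * n)) := rfl
    rw [h2]
    exact sum_congr rfl fun a _ => congrArg
      (fun z : ZMod 2 => d (Fin.cons b fun _ => a : Fin 2 → Fin n) * z)
      (tailQ_apply (D := 1) (s := n) x 0 a).symm
  · change 3 * n + 1 + Fintype.card Unit * (P.length + 1) +
      Fintype.card Unit * (6 * Fintype.card (Fin n) + 1) + (3 * 1 + 1) ≤
        20 * (n ^ 0 * (P.length + 1) + n ^ 1)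
    simp only [Fintype.card_unit, Fintype.card_fin, pow_zero, pow_one]
    omega

theorem red_form_succ (aff : Bool) (D : ℕ) : Red aff (form D) (form (D + 1)) 1 1 := by
  refine ⟨20 + 3 * D, ?_⟩
  intro n wq Sq P out pre hn hwq haff hP w hw hw2
  have hw0 : 0 < w := by omega
  let F : Fin (form D n).q → Wire (((form (D + 1) n).ι → ZMod 2))
      (Fin (form (D + 1) n).q → ZMod 2) w :=
    fun i => inW (form (D + 1) n) w (((finProdFinEquiv ((finProdFinEquiv.symm i).1.succ,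
      (finProdFinEquiv.symm i).2) : Fin ((D + 1) * n)) : ℕ) / w)
  let p : Fin (form D n).q → Fin w :=
    fun i => ⟨((finProdFinEquiv ((finProdFinEquiv.symm i).1.succ,
      (finProdFinEquiv.symm i).2) : Fin ((D + 1) * n)) : ℕ) % w, Nat.mod_lt _ hw0⟩
  let X : Fin n → Wire (((form (D + 1) n).ι → ZMod 2)) (Fin (form (D + 1) n).q → ZMod 2) w :=
    fun i => inW (form (D + 1) n) w
      (((finProdFinEquiv ((0 : Fin (D + 1)), i) : Fin ((D + 1) * n)) : ℕ) / w)
  let r : Fin n → Fin w :=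
    fun i => ⟨((finProdFinEquiv ((0 : Fin (D + 1)), i) : Fin ((D + 1) * n)) : ℕ) % w,
      Nat.mod_lt _ hw0⟩
  let χ : (Fin (form (D + 1) n).q → ZMod 2) → Fin (form D n).q → ZMod 2 :=
    fun x => tailQ x
  let δ : Fin n → ((form (D + 1) n).ι → ZMod 2) →ₗ[ZMod 2] ((form D n).ι → ZMod 2) :=
    fun a => LinearMap.funLeft (ZMod 2) (ZMod 2)
      (fun c : Fin D → Fin n => (Fin.cons a c : Fin (D + 1) → Fin n))
  obtain ⟨o, p', hc1, ho⟩ := subcalls aff (form D n) P out pre haff hP hwq hw δ χ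
    (I := inSet (form (D + 1) n) w) F p (fun i => (inW_bit (form (D + 1) n) hw0 _).1)
    (fun i d x => (inW_bit (form (D + 1) n) hw0 _).2 d x)
  obtain ⟨g, hc2, hg⟩ := mulSum (A := Adm aff)
    (I := inSet (form (D + 1) n) w ∪ {f | ∃ b i, f = o b i})
    (fun T => Adm.const T) hw2 (β := Fin n) (γ := Unit) (fun b _ => o b (0 : Fin 1))
    (fun b _ => p' (0 : Fin 1)) X r (fun b _ => Or.inr ⟨b, (0 : Fin 1), rfl⟩) (fun b => Or.inl (inW_bit (form (D + 1) n) hw0 _).1)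
  refine finish aff (form (D + 1) n) hw0 (hc1.comp hc2) (fun _ => g ()) (fun _ => ⟨0, hw0⟩)
    (fun _ => Or.inr ⟨(), rfl⟩) ?_ ?_
  · intro i d x
    rw [hg () d x]
    have h1 : ∀ b : Fin n, X b d x (r b) =
        x (finProdFinEquiv ((0 : Fin (D + 1)), b) : Fin ((D + 1) * n)) :=
      fun b => (inW_bit (form (D + 1) n) hw0 _).2 d x
    refine Eq.trans ?_ (sum_tens_cons (D := D) (s := n) d x).symm
    apply sum_congr rfl
    intro b _
    exact congrArg₂ (· * ·) (h1 b) (ho b (0 : Fin 1) d x)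
  · change 3 * (D * n) + 1 + Fintype.card (Fin n) * (P.length + 1) +
      Fintype.card Unit * (6 * Fintype.card (Fin n) + 1) + (3 * 1 + 1) ≤
        (20 + 3 * D) * (n ^ 1 * (P.length + 1) + n ^ 1)
    simp only [Fintype.card_unit, Fintype.card_fin, pow_one]
    nlinarith [Nat.zero_le (D * n * P.length), Nat.zero_le (D * n), Nat.zero_le (n * P.length)]

theorem red_form_tensor (aff : Bool) (D : ℕ) (hD : 1 ≤ D) :
    Red aff (form D) (tensorOmv D) D D := by
  refine ⟨5 + 3 * D, ?_⟩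
  intro n wq Sq P out pre hn hwq haff hP w hw hw2
  have hw0 : 0 < w := by omega
  let F : Fin (form D n).q → Wire (((tensorOmv D n).ι → ZMod 2))
      (Fin (tensorOmv D n).q → ZMod 2) w :=
    fun i => inW (tensorOmv D n) w ((i : ℕ) / w)
  let p : Fin (form D n).q → Fin w :=
    fun i => ⟨(i : ℕ) % w, Nat.mod_lt _ hw0⟩
  let χ : (Fin (tensorOmv D n).q → ZMod 2) → Fin (form D n).q → ZMod 2 := fun x => x
  let δ : Fin (n ^ D) → ((tensorOmv D n).ι → ZMod 2) →ₗ[ZMod 2] ((form D n).ι → ZMod 2) :=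
    fun a => LinearMap.funLeft (ZMod 2) (ZMod 2)
      (fun c : Fin D → Fin n => ((a, c) : Fin (n ^ D) × (Fin D → Fin n)))
  obtain ⟨o, p', hc1, ho⟩ := subcalls aff (form D n) P out pre haff hP hwq hw δ χ
    (I := inSet (tensorOmv D n) w) F p (fun i => (inW_bit (tensorOmv D n) hw0 i).1)
    (fun i d x => (inW_bit (tensorOmv D n) hw0 i).2 d x)
  refine finish aff (tensorOmv D n) hw0 hc1 (fun i => o i (0 : Fin 1)) (fun _ => p' (0 : Fin 1))
    (fun i => ⟨i, (0 : Fin 1), rfl⟩) ?_ ?_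
  · intro i d x
    exact ho i (0 : Fin 1) d x
  · change 3 * (D * n) + 1 + Fintype.card (Fin (n ^ D)) * (P.length + 1) + (3 * n ^ D + 1) ≤
        (5 + 3 * D) * (n ^ D * (P.length + 1) + n ^ D)
    simp only [Fintype.card_fin]
    have h3 : n ≤ n ^ D := Nat.le_self_pow (by omega) n
    have h4 : 1 ≤ n ^ D := Nat.one_le_pow _ _ hn
    have h5 : D * n ≤ D * n ^ D := Nat.mul_le_mul_left _ h3
    nlinarith [Nat.zero_le (D * (n ^ D * (P.length + 1))), Nat.zero_le (n ^ D * (P.length + 1))]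

theorem red_tensor_succ (aff : Bool) (D : ℕ) (hD : 1 ≤ D) :
    Red aff (tensorOmv D) (tensorOmv (D + 1)) 2 (D + 2) := by
  refine ⟨20 + 3 * D, ?_⟩
  intro n wq Sq P out pre hn hwq haff hP w hw hw2
  have hw0 : 0 < w := by omega
  let e : Fin (n ^ (D + 1)) ≃ Fin n × Fin (n ^ D) :=
    (finCongr (by rw [pow_succ, mul_comm])).trans finProdFinEquiv.symm
  let F : Fin (tensorOmv D n).q → Wire (((tensorOmv (D + 1) n).ι → ZMod 2))
      (Fin (tensorOmv (D + 1) n).q → ZMod 2) w :=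
    fun i => inW (tensorOmv (D + 1) n) w (((finProdFinEquiv ((finProdFinEquiv.symm i).1.succ,
      (finProdFinEquiv.symm i).2) : Fin ((D + 1) * n)) : ℕ) / w)
  let p : Fin (tensorOmv D n).q → Fin w :=
    fun i => ⟨((finProdFinEquiv ((finProdFinEquiv.symm i).1.succ,
      (finProdFinEquiv.symm i).2) : Fin ((D + 1) * n)) : ℕ) % w, Nat.mod_lt _ hw0⟩
  let X : Fin n → Wire (((tensorOmv (D + 1) n).ι → ZMod 2))
      (Fin (tensorOmv (D + 1) n).q → ZMod 2) w :=
    fun i => inW (tensorOmv (D + 1) n) w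
      (((finProdFinEquiv ((0 : Fin (D + 1)), i) : Fin ((D + 1) * n)) : ℕ) / w)
  let r : Fin n → Fin w :=
    fun i => ⟨((finProdFinEquiv ((0 : Fin (D + 1)), i) : Fin ((D + 1) * n)) : ℕ) % w,
      Nat.mod_lt _ hw0⟩
  let χ : (Fin (tensorOmv (D + 1) n).q → ZMod 2) → Fin (tensorOmv D n).q → ZMod 2 :=
    fun x => tailQ x
  let δ : Fin n × Fin n →
      ((tensorOmv (D + 1) n).ι → ZMod 2) →ₗ[ZMod 2] ((tensorOmv D n).ι → ZMod 2) :=
    fun ia => LinearMap.funLeft (ZMod 2) (ZMod 2)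
      (fun jc : Fin (n ^ D) × (Fin D → Fin n) =>
        ((e.symm (ia.1, jc.1), (Fin.cons ia.2 jc.2 : Fin (D + 1) → Fin n)) :
          Fin (n ^ (D + 1)) × (Fin (D + 1) → Fin n)))
  obtain ⟨o, p', hc1, ho⟩ := subcalls aff (tensorOmv D n) P out pre haff hP hwq hw δ χ
    (I := inSet (tensorOmv (D + 1) n) w) F p (fun i => (inW_bit (tensorOmv (D + 1) n) hw0 _).1)
    (fun i d x => (inW_bit (tensorOmv (D + 1) n) hw0 _).2 d x)
  obtain ⟨g, hc2, hg⟩ := mulSum (A := Adm aff)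
    (I := inSet (tensorOmv (D + 1) n) w ∪ {f | ∃ b i, f = o b i})
    (fun T => Adm.const T) hw2 (β := Fin n) (γ := Fin n × Fin (n ^ D))
    (fun b ij => o (ij.1, b) ij.2) (fun b ij => p' ij.2) X r
    (fun b ij => Or.inr ⟨(ij.1, b), ij.2, rfl⟩)
    (fun b => Or.inl (inW_bit (tensorOmv (D + 1) n) hw0 _).1)
  refine finish aff (tensorOmv (D + 1) n) hw0 (hc1.comp hc2) (fun i => g (e i))
    (fun _ => ⟨0, hw0⟩) (fun i => Or.inr ⟨e i, rfl⟩) ?_ ?_
  · intro i d x
    rw [hg (e i) d x]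
    have h1 : ∀ b : Fin n, X b d x (r b) =
        x (finProdFinEquiv ((0 : Fin (D + 1)), b) : Fin ((D + 1) * n)) :=
      fun b => (inW_bit (tensorOmv (D + 1) n) hw0 _).2 d x
    refine Eq.trans ?_ (sum_tens_cons (D := D) (s := n) (fun c => d (i, c)) x).symm
    apply sum_congr rfl
    intro b _
    refine (congrArg₂ (· * ·) (h1 b) (ho ((e i).1, b) (e i).2 d x)).trans ?_
    exact congrArg (fun i' : Fin (n ^ (D + 1)) => x (finProdFinEquiv ((0 : Fin (D + 1)), b)) *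
      ∑ c : Fin D → Fin n, d (i', (Fin.cons b c : Fin (D + 1) → Fin n)) * tens (tailQ x) c)
      (e.symm_apply_apply i)
  · change 3 * (D * n) + 1 + Fintype.card (Fin n × Fin n) * (P.length + 1) +
      Fintype.card (Fin n × Fin (n ^ D)) * (6 * Fintype.card (Fin n) + 1) +
        (3 * n ^ (D + 1) + 1) ≤ (20 + 3 * D) * (n ^ 2 * (P.length + 1) + n ^ (D + 2))
    simp only [Fintype.card_prod, Fintype.card_fin]
    have h0 : n ^ (D + 2) = n * n ^ (D + 1) := by ring
    have h0' : n ^ (D + 1) = n * n ^ D := by ring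
    have h3 : n ≤ n ^ (D + 2) := Nat.le_self_pow (by omega) n
    have h4 : 1 ≤ n ^ (D + 2) := Nat.one_le_pow _ _ hn
    have h5 : D * n ≤ D * n ^ (D + 2) := Nat.mul_le_mul_left _ h3
    have h6 : n ^ (D + 1) ≤ n ^ (D + 2) := Nat.pow_le_pow_right hn (by omega)
    have h7 : n * n ^ D * (6 * n + 1) ≤ 7 * n ^ (D + 2) := by
      rw [← h0']
      have : n ^ (D + 1) * (6 * n + 1) = 6 * n ^ (D + 2) + n ^ (D + 1) := by rw [h0]; ring
      omega
    have h8 : n * n * (P.length + 1) = n ^ 2 * (P.length + 1) := by ring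
    rw [h8]
    have h9 : (20 + 3 * D) * (n ^ 2 * (P.length + 1) + n ^ (D + 2)) =
      20 * (n ^ 2 * (P.length + 1)) + 20 * n ^ (D + 2) + 3 * (D * (n ^ 2 * (P.length + 1))) +
        3 * (D * n ^ (D + 2)) := by ring
    rw [h9]
    omega

theorem red_omv_tensor (aff : Bool) : Red aff omv (tensorOmv 1) 0 1 := by
  refine ⟨20, ?_⟩
  intro n wq Sq P out pre hn hwq haff hP w hw hw2
  have hw0 : 0 < w := by omega
  let e : Fin (n ^ 1) ≃ Fin n := finCongr (pow_one n)
  let F : Fin (omv n).q → Wire (((tensorOmv 1 n).ι → ZMod 2))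
      (Fin (tensorOmv 1 n).q → ZMod 2) w :=
    fun i => inW (tensorOmv 1 n) w (((finProdFinEquiv ((0 : Fin 1), i) : Fin (1 * n)) : ℕ) / w)
  let p : Fin (omv n).q → Fin w :=
    fun i => ⟨((finProdFinEquiv ((0 : Fin 1), i) : Fin (1 * n)) : ℕ) % w, Nat.mod_lt _ hw0⟩
  let χ : (Fin (tensorOmv 1 n).q → ZMod 2) → Fin (omv n).q → ZMod 2 :=
    fun x i => x (finProdFinEquiv ((0 : Fin 1), i) : Fin (1 * n))
  let δ : Unit → ((tensorOmv 1 n).ι → ZMod 2) →ₗ[ZMod 2] ((omv n).ι → ZMod 2) :=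
    fun _ => LinearMap.funLeft (ZMod 2) (ZMod 2)
      (fun ij : Fin n × Fin n => ((e.symm ij.1, fun _ => ij.2) :
        Fin (n ^ 1) × (Fin 1 → Fin n)))
  obtain ⟨o, p', hc1, ho⟩ := subcalls aff (omv n) P out pre haff hP hwq hw δ χ
    (I := inSet (tensorOmv 1 n) w) F p (fun i => (inW_bit (tensorOmv 1 n) hw0 _).1)
    (fun i d x => (inW_bit (tensorOmv 1 n) hw0 _).2 d x)
  refine finish aff (tensorOmv 1 n) hw0 hc1 (fun i => o () (e i)) (fun i => p' (e i))
    (fun i => ⟨(), e i, rfl⟩) ?_ ?_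
  · intro i d x
    refine (ho () (e i) d x).trans ?_
    refine Eq.trans ?_ (sum_tens_one (s := n) (fun c => d (i, c)) x).symm
    rfl
  · change 3 * n + 1 + Fintype.card Unit * (P.length + 1) + (3 * n ^ 1 + 1) ≤
        20 * (n ^ 0 * (P.length + 1) + n ^ 1)
    simp only [Fintype.card_unit, pow_zero, pow_one]
    omega

end Pool.Agent.OMV.Tens
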