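import Pool.Agent.Work.MP_0f1f76_lc.Tens.Defs
import Pool.Agent.Work.MP_0f1f76_lc.Toric.Gadget

/-!
# The tensor gadget: definitions

`D = 2^b`.  Classes are the words `a c : Fin D → Fin s`, `c : Fin C`, `C = s^D`; the columns are
`Col C M = Fin C × (Fin M → Bool)`, the rows `Row D h M`, the cells are the points of the grid and
one cell for each bad pair (row, column).
-/

namespace Pool.Agent.OMV.Tens

open Finset Pool.Agent.OMV.Toric

/-- A gadget over `F_2`: `t` cells, each with `D` address vectors of `s` bits (linear in the `m`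
column bits), carrying a `D`-linear form which is linear in the `r × m` matrix, and a linear
decoder. -/
structure FormGadget (D r m s t : ℕ) where
  addr : Fin t → (Fin m → ZMod 2) →ₗ[ZMod 2] (Fin (D * s) → ZMod 2)
  dec : Fin r → Fin t → ZMod 2
  tab : (Fin r → Fin m → ZMod 2) →ₗ[ZMod 2] (Fin t → (Fin D → Fin s) → ZMod 2)
  univ : ∀ M x i, ∑ c, dec i c * ∑ a, tab M c a * tens (addr c x) a = ∑ j, M i j * x j

/-- The clean blocks of a pair (row, bits). -/
def clean {D h M : ℕ} (τ : Row D h M) (β : Fin M → Bool) : Finset (Fin M) :=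
  univ.filter (fun i => β i = true ∧ ((τ i).1.1 : ℕ) = 0 ∧ ((τ i).1.2 : ℕ) = 0)

/-- The pair (row, bits) is good for the sign words `σ`: they are distinct on the clean blocks. -/
def Fine {D h M C : ℕ} (σ : Fin C → Fin M → Bool) (τ : Row D h M) (β : Fin M → Bool) : Prop :=
  ∀ c c', c ≠ c' → ∃ i ∈ clean τ β, σ c i ≠ σ c' i

end Pool.Agent.OMV.Tens
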