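import Pool.Agent.Work.MP_0f1f76_lc.Tens.Realize
import Pool.Agent.Work.MP_0f1f76_lc.Tens.GDefs

/-!
Module REDUCE: a tensor gadget and a program for `tensorOmv D s` give a program for `omv n`.
-/

namespace Pool.Agent.OMV.Tens

open Finset

/-- The number of instructions of the reduction: addresses, runs, accumulation, decoding. -/
def redCost (D r m s t n len : ℕ) : ℕ :=
  (n / m + 1) * t * (D * s * (2 * m + 1) + (3 * (D * s) + 1)) +
    (n / m + 1) * ((n / r + 1) / s ^ D + 1) * t * (len + 1) +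
    ((n / r + 1) / s ^ D + 1) * t * (s ^ D + 1) * (n / m + 2) +
    (n * (2 * t + 1) + (3 * n + 1))

/-- extension of a vector by zero -/
def extV {n : ℕ} (x : Fin n → ZMod 2) (p : ℕ) : ZMod 2 := if h : p < n then x ⟨p, h⟩ else 0

/-- extension of a matrix by zero -/
def extM' {n : ℕ} (M : Fin n × Fin n → ZMod 2) (i p : ℕ) : ZMod 2 :=
  if h : i < n ∧ p < n then M (⟨i, h.1⟩, ⟨p, h.2⟩) else 0

theorem div_lt_words {w n q : ℕ} (hw : 0 < w) (h : q < n) : q / w < (n + w - 1) / w := by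
  have h1 : q / w < (n - 1) / w + 1 := Nat.lt_succ_of_le (Nat.div_le_div_right (by omega))
  have h2 : (n + w - 1) / w = (n - 1) / w + 1 := by
    have h3 : n + w - 1 = (n - 1) + w := by omega
    rw [h3, Nat.add_div_right _ hw]
  rw [h2]
  exact h1

theorem omvIn_bit {n w : ℕ} (hw : 0 < w) (p : ℕ) (d : (omv n).ι → ZMod 2) (x : Fin n → ZMod 2) :
    inW (omv n) w (p / w) d x ⟨p % w, Nat.mod_lt _ hw⟩ = extV x p := by
  have h1 := packed_apply hw x (p / w) ⟨p % w, Nat.mod_lt _ hw⟩
  have h3 : p / w * w + p % w = p := Nat.div_add_mod' _ _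
  simp only [h3] at h1
  exact h1

/-- the block of the matrix with row block `ρ` and column block `γ` -/
def blk {n : ℕ} (r m ρ γ : ℕ) : (Fin n × Fin n → ZMod 2) →ₗ[ZMod 2] (Fin r → Fin m → ZMod 2) where
  toFun M := fun i j => extM' M (ρ * r + i) (γ * m + j)
  map_add' M M' := by
    funext i j
    simp only [extM', Pi.add_apply]
    split_ifs <;> simp
  map_smul' a M := by
    funext i j
    simp only [extM', Pi.smul_apply, RingHom.id_apply]
    split_ifs <;> simp

section

variable {D r m s t : ℕ} (g : FormGadget D r m s t)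

/-- the address of cell `c` for the column block `γ` -/
def chi {n : ℕ} (γ : ℕ) (c : Fin t) (x : Fin n → ZMod 2) : Fin (D * s) → ZMod 2 :=
  g.addr c (fun j => extV x (γ * m + j))

/-- the data of the batch `bt` for cell `c` and column block `γ` -/
def del {n : ℕ} (γ bt : ℕ) (c : Fin t) :
    (Fin n × Fin n → ZMod 2) →ₗ[ZMod 2] (Fin (s ^ D) × (Fin D → Fin s) → ZMod 2) where
  toFun M := fun p => g.tab (blk r m (bt * s ^ D + p.1) γ M) c p.2
  map_add' M M' := by
    funext p
    simp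
  map_smul' a M := by
    funext p
    simp

/-- Stage 1: the addresses, packed. -/
theorem stage1 (aff : Bool) {wq w : ℕ} (hwq : 0 < wq) (hw : wq ≤ w) (n γ : ℕ) (c : Fin t) :
    ∃ inp : ℕ → Wire ((omv n).ι → ZMod 2) (Fin (omv n).q → ZMod 2) w,
      Cost (Adm aff) (inSet (omv n) w) {f | ∃ k < (D * s + wq - 1) / wq, f = inp k}
        (D * s * (2 * m + 1) + (3 * (D * s) + 1)) ∧
      ∀ k d (x : Fin n → ZMod 2) (b : Fin wq), inp k d x (Fin.castLE hw b) =
        (packed wq (chi g γ c x)).getD k 0 b := by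
  classical
  have hw0 : 0 < w := hwq.trans_le hw
  have h1 : ∀ p : Fin (D * s), ∃ o : Wire ((omv n).ι → ZMod 2) (Fin (omv n).q → ZMod 2) w,
      Cost (Adm aff) (inSet (omv n) w) {o} (2 * m + 1) ∧
      ∀ d (x : Fin n → ZMod 2), o d x ⟨0, hw0⟩ = chi g γ c x p := by
    intro p
    obtain ⟨o, ho, hv⟩ := Cost.linBit (A := Adm aff) (I := inSet (omv n) w)
      (fun T => Adm.const T) hw0
      ((univ : Finset (Fin m)).filter (fun j : Fin m => γ * m + (j : ℕ) < n))
      (fun j : Fin m => inW (omv n) w ((γ * m + (j : ℕ)) / w))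
      (fun j : Fin m => ⟨(γ * m + (j : ℕ)) % w, Nat.mod_lt _ hw0⟩)
      (fun j : Fin m => g.addr c (Pi.single j 1) p) (by
        intro j hj
        refine ⟨_, ?_, rfl⟩
        have hj' := (mem_filter.1 hj).2
        exact div_lt_words hw0 hj')
    refine ⟨o, ho.mono (le_refl _) (le_refl _) ?_, ?_⟩
    · have := card_filter_le (univ : Finset (Fin m)) (fun j : Fin m => γ * m + (j : ℕ) < n)
      rw [card_univ, Fintype.card_fin] at this
      omega
    · intro d x
      rw [hv d x]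
      have h2 : (fun j : Fin m => extV x (γ * m + (j : ℕ))) =
          ∑ j : Fin m, extV x (γ * m + (j : ℕ)) • (Pi.single j (1 : ZMod 2) : Fin m → ZMod 2) := by
        funext j
        simp [Finset.sum_apply, Pi.single_apply]
      unfold chi
      rw [h2, map_sum, Finset.sum_apply, sum_filter]
      refine sum_congr rfl (fun j _ => ?_)
      rw [map_smul, Pi.smul_apply, smul_eq_mul]
      rw [omvIn_bit hw0 (γ * m + (j : ℕ)) d x]
      split_ifs with hj
      · rw [mul_comm]
      · rw [extV, dif_neg hj, zero_mul]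
  choose o ho hv using h1
  obtain ⟨inp, hinp, hval⟩ := Cost.pack (A := Adm aff)
    (I := inSet (omv n) w ∪ {f | ∃ p ∈ (univ : Finset (Fin (D * s))), f = o p})
    (fun T => Adm.const T) hwq hw o (fun _ => ⟨0, hw0⟩) (fun i => Or.inr ⟨i, mem_univ _, rfl⟩)
  refine ⟨inp, ?_, ?_⟩
  · have h2 := (Cost.family (univ : Finset (Fin (D * s))) o (2 * m + 1) (fun p _ => ho p)).comp
      hinp
    refine h2.mono (le_refl _) Set.subset_union_right ?_
    rw [card_univ, Fintype.card_fin]
  · intro k d x b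
    rw [hval k d x b]
    have h3 : (fun i => o i d x ⟨0, hw0⟩) = chi g γ c x := funext (fun i => hv i d x)
    rw [h3]

theorem tab_sum (M : Fin r → Fin m → ZMod 2) (y : Fin m → ZMod 2) (i : Fin r) :
    ∑ c, g.dec i c * ∑ a, g.tab M c a * tens (g.addr c y) a = ∑ j, M i j * y j := g.univ M y i

/-- The sum over the column blocks of the values of the form gadgets. -/
theorem block_sum {n : ℕ} (hm : 1 ≤ m) (hr : 0 < r) (hs : 0 < s ^ D)
    (d : Fin n × Fin n → ZMod 2) (x : Fin n → ZMod 2) (i : ℕ) (hi : i < n) :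
    ∑ c, g.dec ⟨i % r, Nat.mod_lt _ hr⟩ c * ∑ γ ∈ range (n / m + 1),
        ∑ a, del g γ (i / r / s ^ D) c d (⟨i / r % s ^ D, Nat.mod_lt _ hs⟩, a) *
          tens (chi g γ c x) a =
      ∑ j, d (⟨i, hi⟩, j) * x j := by
  have h1 : ∀ γ, ∑ c, g.dec ⟨i % r, Nat.mod_lt _ hr⟩ c *
      ∑ a, del g γ (i / r / s ^ D) c d (⟨i / r % s ^ D, Nat.mod_lt _ hs⟩, a) *
        tens (chi g γ c x) a = ∑ j : Fin m, extM' d i (γ * m + j) * extV x (γ * m + j) := by
    intro γ
    have h2 : i / r / s ^ D * s ^ D + i / r % s ^ D = i / r := Nat.div_add_mod' _ _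
    have h3 : i / r * r + i % r = i := Nat.div_add_mod' _ _
    have h4 := tab_sum g (blk r m (i / r) γ d) (fun j => extV x (γ * m + j))
      ⟨i % r, Nat.mod_lt _ hr⟩
    have h5 : ∀ j : Fin m, blk r m (i / r) γ d ⟨i % r, Nat.mod_lt _ hr⟩ j =
        extM' d i (γ * m + j) := by
      intro j
      change extM' d (i / r * r + i % r) (γ * m + j) = _
      rw [h3]
    simp only [h5] at h4
    rw [← h4]
    refine sum_congr rfl (fun c _ => ?_)
    congr 1
    refine sum_congr rfl (fun a _ => ?_)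
    have h6 : del g γ (i / r / s ^ D) c d (⟨i / r % s ^ D, Nat.mod_lt _ hs⟩, a) =
        g.tab (blk r m (i / r) γ d) c a := by
      change g.tab (blk r m (i / r / s ^ D * s ^ D + i / r % s ^ D) γ d) c a = _
      rw [h2]
    rw [h6]
    rfl
  have h2 : ∑ c, g.dec ⟨i % r, Nat.mod_lt _ hr⟩ c * ∑ γ ∈ range (n / m + 1),
        ∑ a, del g γ (i / r / s ^ D) c d (⟨i / r % s ^ D, Nat.mod_lt _ hs⟩, a) *
          tens (chi g γ c x) a =
      ∑ γ ∈ range (n / m + 1), ∑ j : Fin m, extM' d i (γ * m + j) * extV x (γ * m + j) := by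
    simp only [mul_sum]
    rw [sum_comm]
    refine sum_congr rfl (fun γ _ => ?_)
    rw [← h1 γ]
    simp only [mul_sum]
  rw [h2]
  -- the blocks cover all columns
  have h3 : ∀ N : ℕ, ∑ γ ∈ range N, ∑ j : Fin m, extM' d i (γ * m + j) * extV x (γ * m + j) =
      ∑ p ∈ range (N * m), extM' d i p * extV x p := by
    intro N
    induction N with
    | zero => simp
    | succ N ih =>
      rw [sum_range_succ, ih, Nat.succ_mul, sum_range_add]
      congr 1
      exact Fin.sum_univ_eq_sum_range (fun j => extM' d i (N * m + j) * extV x (N * m + j)) m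
  rw [h3]
  have h4 : n ≤ (n / m + 1) * m := by
    have h5 := Nat.div_add_mod' n m
    have h6 := Nat.mod_lt n (show 0 < m from hm)
    rw [Nat.succ_mul]
    omega
  rw [← Nat.add_sub_of_le h4, sum_range_add, ← Fin.sum_univ_eq_sum_range]
  rw [add_eq_left.2]
  · refine sum_congr rfl (fun j _ => ?_)
    simp [extM', extV, hi]
  · refine sum_eq_zero (fun p _ => ?_)
    rw [extV, dif_neg (by omega), mul_zero]

end

theorem reduce_omv (aff : Bool) {D r m s t : ℕ} (g : FormGadget D r m s t) (hr : 1 ≤ r)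
    (hm : 1 ≤ m) (hs : 1 ≤ s) {wq Sq : ℕ} (P : List Instr) (out : ℕ → ℕ)
    (pre : ((tensorOmv D s).ι → ZMod 2) → Fin Sq → Word wq → Word wq)
    (haff : aff = true → IsAffine pre) (hP : Solves (tensorOmv D s) P out pre)
    (hwq : 0 < wq) (n w : ℕ) (hw : wq ≤ w) :
    ∃ (S : ℕ) (P' : List Instr) (out' : ℕ → ℕ)
      (pre' : ((omv n).ι → ZMod 2) → Fin S → Word w → Word w),
      S ≤ redCost D r m s t n P.length ∧ P'.length ≤ redCost D r m s t n P.length ∧
      (aff = true → IsAffine pre') ∧ Solves (omv n) P' out' pre' := by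
  classical
  have hw0 : 0 < w := hwq.trans_le hw
  have hr0 : 0 < r := hr
  have hsD : 0 < s ^ D := Nat.pow_pos hs
  set Γ := n / m + 1 with hΓ
  set Bt := (n / r + 1) / s ^ D + 1 with hBt
  set K := (D * s + wq - 1) / wq with hK
  -- stage 1
  choose inp hinp hinpv using fun γ c => stage1 g aff hwq hw n γ c
  set O1 : Set (Wire ((omv n).ι → ZMod 2) (Fin (omv n).q → ZMod 2) w) :=
    ⋃ p ∈ (range Γ ×ˢ (univ : Finset (Fin t))), {f | ∃ k < K, f = inp p.1 p.2 k} with hO1
  have C1 : Cost (Adm aff) (inSet (omv n) w) O1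
      (Γ * t * (D * s * (2 * m + 1) + (3 * (D * s) + 1))) := by
    refine (Cost.biUnion (range Γ ×ˢ (univ : Finset (Fin t))) _ _
      (fun p _ => hinp p.1 p.2)).mono (le_refl _) (le_refl _) ?_
    rw [sum_const, card_product, card_range, card_univ, Fintype.card_fin, smul_eq_mul]
  -- stage 2
  have h2 : ∀ γ bt c, ∃ o : ℕ → Wire ((omv n).ι → ZMod 2) (Fin (omv n).q → ZMod 2) w,
      Cost (Adm aff) {f | ∃ k < K, f = inp γ c k} {f | ∃ j, f = o j} (P.length + 1) ∧
      ∀ d (x : Fin n → ZMod 2) (i : Fin (s ^ D)) (b : Fin wq), (b : ℕ) = (i : ℕ) % wq →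
        o ((i : ℕ) / wq) d x (Fin.castLE hw b) =
          ∑ a, del g γ bt c d (i, a) * tens (chi g γ c x) a := by
    intro γ bt c
    exact simulate aff (tensorOmv D s) P out pre haff hP hw (del g γ bt c)
      (fun x : Fin n → ZMod 2 => chi g γ c x) (inp γ c) (fun k _ d x b => hinpv γ c k d x b)
  choose o ho hov using h2
  set O2 : Set (Wire ((omv n).ι → ZMod 2) (Fin (omv n).q → ZMod 2) w) :=
    ⋃ p ∈ ((range Γ ×ˢ range Bt) ×ˢ (univ : Finset (Fin t))),
      {f | ∃ j, f = o p.1.1 p.1.2 p.2 j} with hO2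
  have C2 : Cost (Adm aff) (inSet (omv n) w ∪ O1) O2 (Γ * Bt * t * (P.length + 1)) := by
    refine (Cost.biUnion ((range Γ ×ˢ range Bt) ×ˢ (univ : Finset (Fin t))) _ _
      (fun p hp => (ho p.1.1 p.1.2 p.2).mono (I' := inSet (omv n) w ∪ O1) ?_ (le_refl _)
        (le_refl _))).mono (le_refl _) (le_refl _) ?_
    · rintro f ⟨k, hk, rfl⟩
      right
      rw [hO1]
      simp only [Set.mem_iUnion]
      simp only [mem_product, mem_range] at hp
      exact ⟨(p.1.1, p.2), by simp [hp.1.1], k, hk, rfl⟩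
    · rw [sum_const, card_product, card_product, card_range, card_range, card_univ,
        Fintype.card_fin, smul_eq_mul]
  -- stage 3
  let V : (ℕ × Fin t) × ℕ → Wire ((omv n).ι → ZMod 2) (Fin (omv n).q → ZMod 2) w :=
    fun p d x => ∑ γ ∈ range Γ, o γ p.1.1 p.1.2 p.2 d x
  set O3 : Set (Wire ((omv n).ι → ZMod 2) (Fin (omv n).q → ZMod 2) w) :=
    {f | ∃ p ∈ (range Bt ×ˢ (univ : Finset (Fin t))) ×ˢ range (s ^ D + 1), f = V p} with hO3
  have C3 : Cost (Adm aff) (inSet (omv n) w ∪ (O1 ∪ O2)) O3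
      (Bt * t * (s ^ D + 1) * (n / m + 2)) := by
    refine (Cost.family ((range Bt ×ˢ (univ : Finset (Fin t))) ×ˢ range (s ^ D + 1)) V
      (n / m + 2) (fun p hp => ?_)).mono (le_refl _) (le_refl _) ?_
    · refine (Cost.sum (Adm.const 0) (range Γ) (fun γ => o γ p.1.1 p.1.2 p.2)
        (fun γ hγ => ?_)).mono (le_refl _) (le_refl _) ?_
      · right
        right
        rw [hO2]
        simp only [Set.mem_iUnion]
        simp only [mem_product, mem_range] at hp
        rw [mem_range] at hγ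
        exact ⟨((γ, p.1.1), p.1.2), by simp [hγ, hp.1.1], p.2, rfl⟩
      · rw [card_range]
    · rw [card_product, card_product, card_range, card_range, card_univ, Fintype.card_fin]
  -- stage 4
  have hbt : ∀ i, i < n → i / r / s ^ D < Bt := by
    intro i hi
    rw [hBt]
    refine Nat.lt_succ_of_le (Nat.div_le_div_right ?_)
    exact (Nat.div_le_div_right hi.le).trans (Nat.le_succ _)
  have h4 : ∀ i : Fin n, ∃ y : Wire ((omv n).ι → ZMod 2) (Fin (omv n).q → ZMod 2) w,
      Cost (Adm aff) (inSet (omv n) w ∪ (O1 ∪ O2 ∪ O3)) {y} (2 * t + 1) ∧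
      ∀ d (x : Fin n → ZMod 2), y d x ⟨0, hw0⟩ = ∑ j, d (i, j) * x j := by
    intro i
    obtain ⟨y, hy, hyv⟩ := Cost.linBit (A := Adm aff) (I := inSet (omv n) w ∪ (O1 ∪ O2 ∪ O3))
      (fun T => Adm.const T) hw0 (univ : Finset (Fin t))
      (fun c : Fin t => V (((i : ℕ) / r / s ^ D, c), (i : ℕ) / r % s ^ D / wq))
      (fun _ : Fin t => Fin.castLE hw ⟨(i : ℕ) / r % s ^ D % wq, Nat.mod_lt _ hwq⟩)
      (fun c : Fin t => g.dec ⟨(i : ℕ) % r, Nat.mod_lt _ hr0⟩ c) (by
        intro c _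
        right
        right
        rw [hO3]
        refine ⟨_, ?_, rfl⟩
        simp only [mem_product, mem_range, mem_univ, and_true]
        refine ⟨hbt i i.2, ?_⟩
        have h5 := Nat.mod_lt ((i : ℕ) / r) hsD
        have h6 := Nat.div_le_self ((i : ℕ) / r % s ^ D) wq
        omega)
    refine ⟨y, hy.mono (le_refl _) (le_refl _) (by rw [card_univ, Fintype.card_fin]), ?_⟩
    intro d x
    rw [hyv d x, ← block_sum g hm hr0 hsD d x i i.2]
    refine sum_congr rfl (fun c _ => ?_)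
    congr 1
    simp only [V, Finset.sum_apply]
    refine sum_congr rfl (fun γ _ => ?_)
    exact hov γ ((i : ℕ) / r / s ^ D) c d x ⟨(i : ℕ) / r % s ^ D, Nat.mod_lt _ hsD⟩
      ⟨(i : ℕ) / r % s ^ D % wq, Nat.mod_lt _ hwq⟩ rfl
  choose y hy hyv using h4
  have C4 : Cost (Adm aff) (inSet (omv n) w ∪ (O1 ∪ O2 ∪ O3))
      {f | ∃ i ∈ (univ : Finset (Fin n)), f = y i} (n * (2 * t + 1)) := by
    refine (Cost.family (univ : Finset (Fin n)) y (2 * t + 1) (fun i _ => hy i)).mono (le_refl _)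
      (le_refl _) ?_
    rw [card_univ, Fintype.card_fin]
  -- packing
  obtain ⟨z, hz, hzv⟩ := Cost.pack (A := Adm aff)
    (I := inSet (omv n) w ∪ (O1 ∪ O2 ∪ O3 ∪ {f | ∃ i ∈ (univ : Finset (Fin n)), f = y i}))
    (fun T => Adm.const T) hw0 (le_refl w) y (fun _ => ⟨0, hw0⟩)
    (fun i => Or.inr (Or.inr ⟨i, mem_univ _, rfl⟩))
  have C := (((C1.comp C2).comp C3).comp C4).comp hz
  obtain ⟨S, P', out', pre', hS, hP', haff', hsol⟩ := realize aff (omv n) w
    (redCost D r m s t n P.length) {f | ∃ k < (n + w - 1) / w, f = z k}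
    (C.mono (le_refl _) Set.subset_union_right (by unfold redCost; rw [← hBt, ← hΓ]; omega)) z
    (fun i => ⟨_, div_lt_words hw0 i.2, rfl⟩) (by
      intro d x i b hb
      have h5 := hzv ((i : ℕ) / w) d x b
      rw [packed_apply hw0] at h5
      have h6 : (i : ℕ) / w * w + (b : ℕ) = i := by
        rw [hb]
        exact Nat.div_add_mod' _ _
      simp only [h6] at h5
      rw [show Fin.castLE (le_refl w) b = b from rfl] at h5
      rw [h5, dif_pos (show (i : ℕ) < n from i.2)]
      exact hyv i d x)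
  exact ⟨S, P', out', pre', hS, hP', haff', hsol⟩

end Pool.Agent.OMV.Tens
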