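import Pool.Agent.Work.MP_0f1f76_lc.Tens.Easy
import Pool.Agent.Work.MP_0f1f76_lc.Tens.Reduce

/-!
Module FASTL: exponents.
-/

namespace Pool.Agent.OMV.Tens

open Finset Filter

/-- large powers exceed constants -/
theorem ev_rpow {a : ℝ} (ha : 0 < a) (c : ℝ) : ∀ᶠ n : ℕ in atTop, c ≤ (n : ℝ) ^ a :=
  ((tendsto_rpow_atTop ha).comp tendsto_natCast_atTop_atTop).eventually_ge_atTop c

/-- A reduction `Red` transports `Fast`. -/
theorem Fast.of_red {aff : Bool} {B B' : ℕ → Problem} {p q e : ℕ} (h : Red aff B B' p q)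
    (he : 1 ≤ e) (hq : q < e + p) (hB : Fast aff B e) : Fast aff B' (e + p) := by
  obtain ⟨C, hC⟩ := h
  obtain ⟨ε, hε, k, hk, n₀, hF⟩ := hB
  set ε' : ℝ := min ε 1 / 2 with hε'
  have h1 : 0 < min ε 1 := lt_min hε one_pos
  have h2 : min ε 1 ≤ ε := min_le_left _ _
  have h3 : min ε 1 ≤ 1 := min_le_right _ _
  obtain ⟨N, hN⟩ := eventually_atTop.1 (ev_rpow (by linarith : 0 < ε') (3 * C))
  refine ⟨ε', by linarith, k + e + p, by omega, max n₀ (max N 2), ?_⟩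
  intro n hn
  have hn0 : n₀ ≤ n := (le_max_left _ _).trans hn
  have hnN : N ≤ n := ((le_max_left _ _).trans (le_max_right _ _)).trans hn
  have hn2 : 2 ≤ n := ((le_max_right _ _).trans (le_max_right _ _)).trans hn
  obtain ⟨S, P, out, pre, hS, hP, haff, hsol⟩ := hF n hn0
  have hclog : 1 ≤ Nat.clog 2 n := Nat.clog_pos one_lt_two hn2
  have hwq : 0 < k * Nat.clog 2 n := Nat.mul_pos hk hclog
  obtain ⟨S', P', out', pre', hS', hP', haff', hsol'⟩ := hC n (k * Nat.clog 2 n) S P out pre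
    (by omega) hwq haff hsol ((k + e + p) * Nat.clog 2 n)
    (Nat.mul_le_mul_right _ (by omega)) (by
      calc 2 ≤ (k + e + p) * 1 := by omega
        _ ≤ (k + e + p) * Nat.clog 2 n := Nat.mul_le_mul_left _ hclog)
  have hnR : (1 : ℝ) ≤ n := by exact_mod_cast (by omega : 1 ≤ n)
  have hnR0 : (0 : ℝ) < n := by linarith
  -- the bound
  have hb : ((C * (n ^ p * (P.length + 1) + n ^ q) : ℕ) : ℝ) ≤
      (n : ℝ) ^ (((e + p : ℕ) : ℝ) - ε') := by
    push_cast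
    have e1 : (n : ℝ) ^ p * (P.length : ℝ) ≤ (n : ℝ) ^ ((e : ℝ) + p - 2 * ε') := by
      calc (n : ℝ) ^ p * (P.length : ℝ) ≤ (n : ℝ) ^ (p : ℝ) * (n : ℝ) ^ ((e : ℝ) - ε) := by
            rw [Real.rpow_natCast]
            exact mul_le_mul_of_nonneg_left hP (by positivity)
        _ = (n : ℝ) ^ ((p : ℝ) + ((e : ℝ) - ε)) := (Real.rpow_add hnR0 _ _).symm
        _ ≤ _ := Real.rpow_le_rpow_of_exponent_le hnR (by linarith)
    have e2 : (n : ℝ) ^ p ≤ (n : ℝ) ^ ((e : ℝ) + p - 2 * ε') := by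
      rw [← Real.rpow_natCast]
      have : (1 : ℝ) ≤ e := by exact_mod_cast he
      exact Real.rpow_le_rpow_of_exponent_le hnR (by linarith)
    have e3 : (n : ℝ) ^ q ≤ (n : ℝ) ^ ((e : ℝ) + p - 2 * ε') := by
      rw [← Real.rpow_natCast]
      have : (q : ℝ) + 1 ≤ e + p := by exact_mod_cast hq
      exact Real.rpow_le_rpow_of_exponent_le hnR (by linarith)
    calc (C : ℝ) * ((n : ℝ) ^ p * ((P.length : ℝ) + 1) + (n : ℝ) ^ q)
        ≤ C * (3 * (n : ℝ) ^ ((e : ℝ) + p - 2 * ε')) :=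
          mul_le_mul_of_nonneg_left (by linarith) (Nat.cast_nonneg _)
      _ = (3 * C) * (n : ℝ) ^ ((e : ℝ) + p - 2 * ε') := by ring
      _ ≤ (n : ℝ) ^ ε' * (n : ℝ) ^ ((e : ℝ) + p - 2 * ε') :=
          mul_le_mul_of_nonneg_right (hN n hnN) (by positivity)
      _ = (n : ℝ) ^ ((e : ℝ) + p - ε') := by
          rw [← Real.rpow_add hnR0]
          congr 1
          ring
  refine ⟨S', P', out', pre', ?_, ?_, haff', hsol'⟩
  · have h4 : (S' : ℝ) ≤ (n : ℝ) ^ (k + e + p) := by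
      calc (S' : ℝ) ≤ ((C * (n ^ p * (P.length + 1) + n ^ q) : ℕ) : ℝ) := by exact_mod_cast hS'
        _ ≤ (n : ℝ) ^ (((e + p : ℕ) : ℝ) - ε') := hb
        _ ≤ (n : ℝ) ^ (((k + e + p : ℕ) : ℝ)) := by
            refine Real.rpow_le_rpow_of_exponent_le hnR ?_
            push_cast
            have : (0 : ℝ) ≤ k := Nat.cast_nonneg _
            linarith
        _ = (n : ℝ) ^ (k + e + p) := Real.rpow_natCast _ _
    exact_mod_cast h4
  · exact le_trans (by exact_mod_cast hP') hb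

/-- The cost of the reduction. -/
theorem redCost_le (D r m s t n len κ : ℕ) (ε : ℝ) (hε0 : 0 < ε) (hε1 : ε ≤ 1) (hD : 1 ≤ D)
    (hr : 1 ≤ r) (hm : 1 ≤ m) (hs : 1 ≤ s) (hn : 1 ≤ n) (hm' : m ≤ s ^ κ)
    (ht' : t ≤ s ^ κ) (hlen : (len : ℝ) ≤ (s : ℝ) ^ (((2 * D : ℕ) : ℝ) - ε))
    (hgad : (t : ℝ) * (s : ℝ) ^ D ≤ (r : ℝ) * m * (s : ℝ) ^ (ε / 2)) :
    (redCost D r m s t n len : ℝ) ≤ 4 * (n : ℝ) ^ 2 * (s : ℝ) ^ (-(ε / 2)) +
      (14 * D + 33) * n * (s : ℝ) ^ (2 * κ + 2 * D + 1) := by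
  have hsR : (1 : ℝ) ≤ s := by exact_mod_cast hs
  have hs0 : (0 : ℝ) < s := by linarith
  have hN : (1 : ℝ) ≤ n := by exact_mod_cast hn
  have hM : (1 : ℝ) ≤ m := by exact_mod_cast hm
  have hR : (1 : ℝ) ≤ r := by exact_mod_cast hr
  have hT0 : (0 : ℝ) ≤ t := Nat.cast_nonneg _
  set Y : ℝ := (s : ℝ) ^ (ε / 2) with hY
  set W : ℝ := (s : ℝ) ^ (-(ε / 2)) with hW
  set X : ℝ := (s : ℝ) ^ (2 * κ + 2 * D + 1) with hX
  set Sd : ℝ := (s : ℝ) ^ D with hSd
  set Z : ℝ := (s : ℝ) ^ (((2 * D : ℕ) : ℝ) - ε) with hZ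
  have hY0 : 0 < Y := Real.rpow_pos_of_pos hs0 _
  have hW0 : 0 < W := Real.rpow_pos_of_pos hs0 _
  have hX1 : 1 ≤ X := one_le_pow₀ hsR
  have hSd1 : 1 ≤ Sd := one_le_pow₀ hsR
  have hYW : Y * W = 1 := by
    rw [hY, hW, ← Real.rpow_add hs0]
    simp
  have hZe : Z = Sd ^ 2 * W ^ 2 := by
    rw [hZ, hSd, hW, Real.rpow_sub hs0, Real.rpow_natCast, ← pow_mul, mul_comm D 2,
      ← Real.rpow_natCast (_ ^ (-(ε / 2))) 2, ← Real.rpow_mul hs0.le, div_eq_mul_inv,
      ← Real.rpow_neg hs0.le]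
    congr 2
    push_cast
    ring
  have hZ1 : 1 ≤ Z := by
    refine Real.one_le_rpow hsR ?_
    have : (1 : ℝ) ≤ D := by exact_mod_cast hD
    push_cast
    linarith
  have hW1 : W ≤ 1 := by
    rw [hW, Real.rpow_neg hs0.le]
    exact inv_le_one_of_one_le₀ (Real.one_le_rpow hsR (by linarith))
  have hYS : Y ^ 2 ≤ Sd := by
    rw [hY, hSd, ← Real.rpow_natCast (_ ^ (ε / 2)) 2, ← Real.rpow_mul hs0.le,
      ← Real.rpow_natCast _ D]
    refine Real.rpow_le_rpow_of_exponent_le hsR ?_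
    have : (1 : ℝ) ≤ D := by exact_mod_cast hD
    push_cast
    linarith
  have hTX : (t : ℝ) ≤ (s : ℝ) ^ κ := by exact_mod_cast ht'
  have hMX : (m : ℝ) ≤ (s : ℝ) ^ κ := by exact_mod_cast hm'
  set Q : ℝ := (s : ℝ) ^ κ with hQ
  have hQ1 : 1 ≤ Q := one_le_pow₀ hsR
  have hXe : X = Q * Q * Sd * Sd * s := by
    rw [hX, hQ, hSd]
    ring
  -- powers below X
  have hX1' : Q * Q * s ≤ X := by
    rw [hXe]
    have h1 : 1 ≤ Sd * Sd := one_le_mul_of_one_le_of_one_le hSd1 hSd1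
    have h2 : 0 ≤ Q * Q * s := by positivity
    linarith [mul_le_mul_of_nonneg_left h1 h2]
  have hX2' : Q * (Sd * Sd) ≤ X := by
    rw [hXe]
    have h1 : 1 ≤ Q * s := one_le_mul_of_one_le_of_one_le hQ1 hsR
    have h2 : 0 ≤ Q * (Sd * Sd) := by positivity
    linarith [mul_le_mul_of_nonneg_left h1 h2]
  have hX3' : Q * Sd ≤ X := by
    refine le_trans ?_ hX2'
    have h2 : 0 ≤ Q * Sd := by positivity
    linarith [mul_le_mul_of_nonneg_left hSd1 h2]
  have hX4' : Q ≤ X := by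
    refine le_trans ?_ hX3'
    have h2 : 0 ≤ Q := by positivity
    linarith [mul_le_mul_of_nonneg_left hSd1 h2]
  -- divisions
  have ha : ((n / m : ℕ) : ℝ) ≤ n / m := Nat.cast_div_le
  have hb : (((n / r + 1) / s ^ D : ℕ) : ℝ) ≤ (n / r + 1) / Sd := by
    refine Nat.cast_div_le.trans ?_
    push_cast
    refine div_le_div_of_nonneg_right ?_ (by positivity)
    have : ((n / r : ℕ) : ℝ) ≤ n / r := Nat.cast_div_le
    linarith
  set a : ℝ := ((n / m : ℕ) : ℝ) with haa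
  set b : ℝ := (((n / r + 1) / s ^ D : ℕ) : ℝ) with hbb
  have ha0 : 0 ≤ a := Nat.cast_nonneg _
  have hb0 : 0 ≤ b := Nat.cast_nonneg _
  set u : ℝ := (n : ℝ) / m with hu
  set v : ℝ := (n : ℝ) / (r * Sd) with hv
  have hu0 : 0 ≤ u := by positivity
  have hv0 : 0 ≤ v := by positivity
  have huN : u ≤ n := div_le_self (by linarith) hM
  have hvN : v ≤ n := div_le_self (by linarith) (one_le_mul_of_one_le_of_one_le hR hSd1)
  have hb' : b ≤ v + 1 := by
    refine hb.trans ?_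
    rw [add_div, div_div]
    have : 1 / Sd ≤ 1 := (div_le_one (by linarith)).2 hSd1
    linarith
  -- the main ratio
  have hratio : (t : ℝ) * Sd / (m * r) ≤ Y := by
    rw [div_le_iff₀ (by positivity)]
    linarith
  -- first term
  have T1 : (a + 1) * t * (D * s * (2 * m + 1) + (3 * (D * s) + 1)) ≤ 14 * D * n * X := by
    have hD1 : (1 : ℝ) ≤ D := by exact_mod_cast hD
    have h1 : a + 1 ≤ 2 * n := by linarith
    have h2 : (D : ℝ) * s * (2 * m + 1) + (3 * (D * s) + 1) ≤ 7 * (D * s * Q) := by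
      have h3 : (1 : ℝ) ≤ D * s := one_le_mul_of_one_le_of_one_le hD1 hsR
      have h4 : (D : ℝ) * s * m ≤ D * s * Q := mul_le_mul_of_nonneg_left hMX (by positivity)
      have h5 : (D : ℝ) * s * 1 ≤ D * s * Q := mul_le_mul_of_nonneg_left hQ1 (by positivity)
      linarith
    calc (a + 1) * t * (D * s * (2 * m + 1) + (3 * (D * s) + 1))
        ≤ (2 * n * Q) * (7 * (D * s * Q)) := by
          refine mul_le_mul (mul_le_mul h1 hTX hT0 (by positivity)) h2 (by positivity)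
            (by positivity)
      _ = 14 * D * n * (Q * Q * s) := by ring
      _ ≤ 14 * D * n * X := mul_le_mul_of_nonneg_left hX1' (by positivity)
  -- fourth term
  have T4 : (n : ℝ) * (2 * t + 1) + (3 * n + 1) ≤ 7 * n * X := by
    have h1 : (t : ℝ) ≤ X := hTX.trans hX4'
    have h2 : (n : ℝ) * t ≤ n * X := mul_le_mul_of_nonneg_left h1 (by linarith)
    have h3 : (n : ℝ) * 1 ≤ n * X := mul_le_mul_of_nonneg_left hX1 (by linarith)
    linarith
  -- second term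
  have T2 : (a + 1) * (b + 1) * t * (len + 1) ≤ 2 * (n : ℝ) ^ 2 * W + 10 * n * X := by
    have h1 : (a + 1) * (b + 1) ≤ u * v + 5 * n := by
      calc (a + 1) * (b + 1) ≤ (u + 1) * (v + 2) := by
            refine mul_le_mul (by linarith) (by linarith) (by positivity) (by positivity)
        _ = u * v + (2 * u + v + 2) := by ring
        _ ≤ _ := by linarith
    have h2 : (len : ℝ) + 1 ≤ 2 * Z := by linarith
    have h3 : u * v * t * (2 * Z) ≤ 2 * (n : ℝ) ^ 2 * W := by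
      have h4 : u * v * t * (2 * Z) = 2 * (n : ℝ) ^ 2 * (t * Sd / (m * r)) * W ^ 2 := by
        rw [hu, hv, hZe]
        field_simp
      have h5 : 2 * (n : ℝ) ^ 2 * Y * W ^ 2 = 2 * (n : ℝ) ^ 2 * W := by
        calc 2 * (n : ℝ) ^ 2 * Y * W ^ 2 = 2 * (n : ℝ) ^ 2 * W * (Y * W) := by ring
          _ = _ := by rw [hYW, mul_one]
      rw [h4, ← h5]
      refine mul_le_mul_of_nonneg_right ?_ (by positivity)
      exact mul_le_mul_of_nonneg_left hratio (by positivity)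
    have h6 : 5 * (n : ℝ) * t * (2 * Z) ≤ 10 * n * X := by
      have h7 : Z ≤ Sd * Sd := by
        rw [hZe]
        have h8 : W ^ 2 ≤ 1 := pow_le_one₀ hW0.le hW1
        have h9 : 0 ≤ Sd ^ 2 := by positivity
        linarith [mul_le_mul_of_nonneg_left h8 h9]
      have h8 : (t : ℝ) * Z ≤ X := (mul_le_mul hTX h7 (by positivity) (by positivity)).trans hX2'
      have h9 : 10 * (n : ℝ) * (t * Z) ≤ 10 * n * X :=
        mul_le_mul_of_nonneg_left h8 (by positivity)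
      linarith
    calc (a + 1) * (b + 1) * t * (len + 1) ≤ (u * v + 5 * n) * t * (2 * Z) := by
          refine mul_le_mul (mul_le_mul_of_nonneg_right h1 hT0) h2 (by positivity) (by positivity)
      _ = u * v * t * (2 * Z) + 5 * (n : ℝ) * t * (2 * Z) := by ring
      _ ≤ _ := add_le_add h3 h6
  -- third term
  have T3 : (b + 1) * t * (Sd + 1) * (a + 2) ≤ 2 * (n : ℝ) ^ 2 * W + 16 * n * X := by
    have h1 : (b + 1) * (Sd + 1) ≤ 2 * (n / r) + 4 * Sd := by
      calc (b + 1) * (Sd + 1) ≤ (v + 2) * (2 * Sd) := by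
            refine mul_le_mul (by linarith) (by linarith) (by positivity) (by positivity)
        _ = 2 * (v * Sd) + 4 * Sd := by ring
        _ = _ := by
            rw [hv]
            congr 2
            field_simp
    have h2 : 2 * ((n : ℝ) / r) * t * u ≤ 2 * (n : ℝ) ^ 2 * W := by
      have h3 : 2 * ((n : ℝ) / r) * t * u = 2 * (n : ℝ) ^ 2 * (t * Sd / (m * r)) / Sd := by
        rw [hu]
        field_simp
      rw [h3, div_le_iff₀ (by linarith)]
      have h4 : Y ≤ W * Sd := by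
        have h5 : Y * (Y * W) ≤ W * Sd := by
          have := mul_le_mul_of_nonneg_right hYS hW0.le
          linarith
        rwa [hYW, mul_one] at h5
      calc 2 * (n : ℝ) ^ 2 * (t * Sd / (m * r)) ≤ 2 * (n : ℝ) ^ 2 * (W * Sd) :=
            mul_le_mul_of_nonneg_left (hratio.trans h4) (by positivity)
        _ = _ := by ring
    have h3 : 4 * ((n : ℝ) / r) * t + 4 * Sd * t * u + 8 * Sd * t ≤ 16 * n * X := by
      have h4 : (n : ℝ) / r ≤ n := div_le_self (by linarith) hR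
      have h5 : (t : ℝ) ≤ X := hTX.trans hX4'
      have h6 : (t : ℝ) * Sd ≤ X := (mul_le_mul_of_nonneg_right hTX (by positivity)).trans hX3'
      have h7 : (n : ℝ) / r * t ≤ n * X := mul_le_mul h4 h5 hT0 (by linarith)
      have h8 : (t : ℝ) * Sd * u ≤ X * n := mul_le_mul h6 huN hu0 (by linarith)
      have h9 : X ≤ n * X := le_mul_of_one_le_left (by linarith) hN
      linarith
    calc (b + 1) * t * (Sd + 1) * (a + 2) = ((b + 1) * (Sd + 1)) * t * (a + 2) := by ring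
      _ ≤ (2 * (n / r) + 4 * Sd) * t * (u + 2) := by
          refine mul_le_mul (mul_le_mul_of_nonneg_right h1 hT0) (by linarith) (by positivity)
            (by positivity)
      _ = 2 * ((n : ℝ) / r) * t * u + (4 * ((n : ℝ) / r) * t + 4 * Sd * t * u + 8 * Sd * t) := by
          ring
      _ ≤ _ := add_le_add h2 h3
  have hexp : (redCost D r m s t n len : ℝ) =
      (a + 1) * t * (D * s * (2 * m + 1) + (3 * (D * s) + 1)) +
      (a + 1) * (b + 1) * t * (len + 1) + (b + 1) * t * (Sd + 1) * (a + 2) +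
      ((n : ℝ) * (2 * t + 1) + (3 * n + 1)) := by
    rw [redCost, haa, hbb, hSd]
    push_cast
    ring
  rw [hexp]
  linarith

/-- The family of gadgets gives the main reduction.  Choose `s = ⌊n^γ⌋` with `γ` small. -/
theorem Fast.of_gadget {aff : Bool} (D : ℕ) (hD : 1 ≤ D)
    (hgad : ∀ δ : ℝ, 0 < δ → ∃ (e κ s₀ : ℕ) (_ : 1 ≤ e), ∀ s : ℕ, s₀ ≤ s → ∃ r m t : ℕ,
      1 ≤ r ∧ 1 ≤ m ∧ 1 ≤ t ∧ r ≤ s ^ κ ∧ m ≤ s ^ κ ∧ t ≤ s ^ κ ∧
      (t : ℝ) * ((s * e : ℕ) : ℝ) ^ D ≤ (r : ℝ) * m * ((s * e : ℕ) : ℝ) ^ δ ∧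
      Nonempty (FormGadget D r m (s * e) t))
    (hB : Fast aff (tensorOmv D) (2 * D)) : Fast aff omv 2 := by
  obtain ⟨ε₀, hε₀, k, hk, N₀, hF⟩ := hB
  set ε : ℝ := min ε₀ 1 with hε
  have hεpos : 0 < ε := lt_min hε₀ one_pos
  have hεle : ε ≤ ε₀ := min_le_left _ _
  have hε1 : ε ≤ 1 := min_le_right _ _
  obtain ⟨e, κ, s₀, he, hg⟩ := hgad (ε / 2) (by linarith)
  set K : ℕ := 2 * κ + 2 * D + 1 with hK
  have hKR : (1 : ℝ) ≤ K := by exact_mod_cast (by omega : 1 ≤ K)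
  set γ : ℝ := 1 / (4 * K) with hγ
  have hγ0 : 0 < γ := by positivity
  have hγK : γ * K = 1 / 4 := by
    rw [hγ]
    field_simp
  have hγ4 : γ ≤ 1 / 4 := by
    rw [← hγK]
    exact le_mul_of_one_le_right hγ0.le hKR
  set c₂ : ℝ := (14 * D + 33) * (e : ℝ) ^ K with hc₂
  have hc₂0 : 0 ≤ c₂ := by positivity
  have E := (ev_rpow hγ0 ((s₀ + N₀ + 2 : ℕ) : ℝ)).and
    ((ev_rpow (by positivity : 0 < γ * ε / 4) (8 + c₂)).and
      ((ev_rpow (by linarith : 0 < 1 - γ) (e : ℝ)).and (eventually_ge_atTop 2)))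
  obtain ⟨N, hN⟩ := eventually_atTop.1 E
  refine ⟨γ * ε / 4, by positivity, k + 2, by omega, N, ?_⟩
  intro n hn
  obtain ⟨h1, h2, h3, h4⟩ := hN n hn
  have hnR : (1 : ℝ) ≤ n := by exact_mod_cast (by omega : 1 ≤ n)
  have hn0 : (0 : ℝ) < n := by linarith
  set s : ℕ := ⌊(n : ℝ) ^ γ⌋₊ with hs
  have hs1 : s₀ + N₀ + 2 ≤ s := Nat.le_floor h1
  have hs2 : (s : ℝ) ≤ (n : ℝ) ^ γ := Nat.floor_le (by positivity)
  have hs3 : (n : ℝ) ^ γ / 2 ≤ s := by
    have h5 := Nat.lt_floor_add_one ((n : ℝ) ^ γ)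
    rw [← hs] at h5
    have h6 : (1 : ℝ) ≤ s := by exact_mod_cast (by omega : 1 ≤ s)
    linarith
  obtain ⟨r, m, t, hr, hm, ht, hr', hm', ht', hgd, ⟨g⟩⟩ := hg s (by omega)
  have hse : s ≤ s * e := Nat.le_mul_of_pos_right s he
  obtain ⟨S, P, out, pre, hS, hP, haff, hsol⟩ := hF (s * e) (by omega)
  have hseR : ((s * e : ℕ) : ℝ) ≤ (n : ℝ) ^ γ * e := by
    push_cast
    exact mul_le_mul_of_nonneg_right hs2 (Nat.cast_nonneg _)
  have hsen : s * e ≤ n := by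
    have : ((s * e : ℕ) : ℝ) ≤ n := by
      calc ((s * e : ℕ) : ℝ) ≤ (n : ℝ) ^ γ * e := hseR
        _ ≤ (n : ℝ) ^ γ * (n : ℝ) ^ (1 - γ) := mul_le_mul_of_nonneg_left h3 (by positivity)
        _ = n := by
            rw [← Real.rpow_add hn0]
            simp
    exact_mod_cast this
  have hclog : 1 ≤ Nat.clog 2 (s * e) := Nat.clog_pos one_lt_two (by omega)
  have hw : k * Nat.clog 2 (s * e) ≤ (k + 2) * Nat.clog 2 n :=
    Nat.mul_le_mul (by omega) (Nat.clog_mono_right 2 hsen)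
  obtain ⟨S', P', out', pre', hS', hP', haff', hsol'⟩ := reduce_omv aff g hr hm
    (by omega : 1 ≤ s * e) P out pre haff hsol (Nat.mul_pos hk hclog) n _ hw
  have hs'R : (1 : ℝ) ≤ ((s * e : ℕ) : ℝ) := by exact_mod_cast (by omega : 1 ≤ s * e)
  have hb : (redCost D r m (s * e) t n P.length : ℝ) ≤
      (n : ℝ) ^ (((2 : ℕ) : ℝ) - γ * ε / 4) := by
    have h5 := redCost_le D r m (s * e) t n P.length κ ε hεpos hε1 hD hr hm (by omega)
      (by omega) (hm'.trans (Nat.pow_le_pow_left hse κ)) (ht'.trans (Nat.pow_le_pow_left hse κ))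
      (hP.trans (Real.rpow_le_rpow_of_exponent_le hs'R (by linarith))) hgd
    have h6 : (((s * e : ℕ) : ℝ)) ^ (-(ε / 2)) ≤ 2 * (n : ℝ) ^ (-(γ * ε / 2)) := by
      have h7 : (n : ℝ) ^ γ / 2 ≤ ((s * e : ℕ) : ℝ) :=
        hs3.trans (by exact_mod_cast hse)
      have h8 : 0 < (n : ℝ) ^ γ / 2 := by positivity
      calc (((s * e : ℕ) : ℝ)) ^ (-(ε / 2)) ≤ ((n : ℝ) ^ γ / 2) ^ (-(ε / 2)) :=
            Real.rpow_le_rpow_of_nonpos h8 h7 (by linarith)
        _ = (2 : ℝ) ^ (ε / 2) * (n : ℝ) ^ (-(γ * ε / 2)) := by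
            rw [div_eq_mul_inv, Real.mul_rpow (by positivity) (by positivity),
              ← Real.rpow_mul hn0.le, Real.inv_rpow (by norm_num), ← Real.rpow_neg (by norm_num),
              neg_neg, mul_comm]
            congr 2
            ring
        _ ≤ 2 * (n : ℝ) ^ (-(γ * ε / 2)) := by
            refine mul_le_mul_of_nonneg_right ?_ (by positivity)
            calc (2 : ℝ) ^ (ε / 2) ≤ (2 : ℝ) ^ (1 : ℝ) :=
                  Real.rpow_le_rpow_of_exponent_le (by norm_num) (by linarith)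
              _ = 2 := Real.rpow_one 2
    have h7 : (((s * e : ℕ) : ℝ)) ^ K ≤ (e : ℝ) ^ K * (n : ℝ) ^ ((1 : ℝ) / 4) := by
      calc (((s * e : ℕ) : ℝ)) ^ K ≤ ((n : ℝ) ^ γ * e) ^ K :=
            pow_le_pow_left₀ (by linarith) hseR K
        _ = _ := by
            rw [mul_pow, ← Real.rpow_natCast ((n : ℝ) ^ γ) K, ← Real.rpow_mul hn0.le, hγK,
              mul_comm]
    have h8 : 4 * (n : ℝ) ^ 2 * (((s * e : ℕ) : ℝ)) ^ (-(ε / 2)) ≤
        8 * (n : ℝ) ^ (2 - γ * ε / 2) := by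
      calc 4 * (n : ℝ) ^ 2 * (((s * e : ℕ) : ℝ)) ^ (-(ε / 2))
          ≤ 4 * (n : ℝ) ^ 2 * (2 * (n : ℝ) ^ (-(γ * ε / 2))) :=
            mul_le_mul_of_nonneg_left h6 (by positivity)
        _ = 8 * ((n : ℝ) ^ (2 : ℝ) * (n : ℝ) ^ (-(γ * ε / 2))) := by
            rw [Real.rpow_two]
            ring
        _ = _ := by
            rw [← Real.rpow_add hn0]
            congr 2
    have h9 : (14 * (D : ℝ) + 33) * n * (((s * e : ℕ) : ℝ)) ^ K ≤
        c₂ * (n : ℝ) ^ (2 - γ * ε / 2) := by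
      calc (14 * (D : ℝ) + 33) * n * (((s * e : ℕ) : ℝ)) ^ K
          ≤ (14 * (D : ℝ) + 33) * n * ((e : ℝ) ^ K * (n : ℝ) ^ ((1 : ℝ) / 4)) :=
            mul_le_mul_of_nonneg_left h7 (by positivity)
        _ = c₂ * ((n : ℝ) ^ (1 : ℝ) * (n : ℝ) ^ ((1 : ℝ) / 4)) := by
            rw [hc₂, Real.rpow_one]
            ring
        _ = c₂ * (n : ℝ) ^ ((1 : ℝ) + 1 / 4) := by rw [← Real.rpow_add hn0]
        _ ≤ _ := by
            refine mul_le_mul_of_nonneg_left ?_ hc₂0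
            refine Real.rpow_le_rpow_of_exponent_le hnR ?_
            have : γ * ε ≤ 1 / 4 * 1 := mul_le_mul hγ4 hε1 hεpos.le (by norm_num)
            linarith
    calc (redCost D r m (s * e) t n P.length : ℝ)
        ≤ 8 * (n : ℝ) ^ (2 - γ * ε / 2) + c₂ * (n : ℝ) ^ (2 - γ * ε / 2) := by linarith
      _ = (8 + c₂) * (n : ℝ) ^ (2 - γ * ε / 2) := by ring
      _ ≤ (n : ℝ) ^ (γ * ε / 4) * (n : ℝ) ^ (2 - γ * ε / 2) :=
          mul_le_mul_of_nonneg_right h2 (by positivity)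
      _ = _ := by
          rw [← Real.rpow_add hn0]
          congr 1
          push_cast
          ring
  refine ⟨S', P', out', pre', ?_, ?_, haff', hsol'⟩
  · have h5 : (S' : ℝ) ≤ (n : ℝ) ^ (k + 2) := by
      calc (S' : ℝ) ≤ (redCost D r m (s * e) t n P.length : ℝ) := by exact_mod_cast hS'
        _ ≤ (n : ℝ) ^ (((2 : ℕ) : ℝ) - γ * ε / 4) := hb
        _ ≤ (n : ℝ) ^ (((k + 2 : ℕ) : ℝ)) := by
            refine Real.rpow_le_rpow_of_exponent_le hnR ?_
            push_cast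
            have h6 : (0 : ℝ) ≤ k := Nat.cast_nonneg _
            have h7 : 0 < γ * ε / 4 := by positivity
            linarith
        _ = (n : ℝ) ^ (k + 2) := Real.rpow_natCast _ _
    exact_mod_cast h5
  · exact le_trans (by exact_mod_cast hP') hb

end Pool.Agent.OMV.Tens
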