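import Pool.Agent.Work.MP_0f1f76_lc.Tens.Signs
import Pool.Agent.Work.MP_0f1f76_lc.Tens.Conv

/-!
Module PARAM.
-/

namespace Pool.Agent.OMV.Tens

open Finset Pool.Agent.OMV.Toric

/-- `A^(K L) ≤ s^((D+1) A K)` when `2^L ≤ s^(D+1)`. -/
theorem par_pow {A K L s D : ℕ} (hL : 2 ^ L ≤ s ^ (D + 1)) :
    A ^ (K * L) ≤ s ^ ((D + 1) * (A * K)) := by
  calc A ^ (K * L) ≤ (2 ^ A) ^ (K * L) := Nat.pow_le_pow_left Nat.lt_two_pow_self.le _
    _ = (2 ^ L) ^ (A * K) := by rw [← pow_mul, ← pow_mul]; congr 1; ring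
    _ ≤ (s ^ (D + 1)) ^ (A * K) := Nat.pow_le_pow_left hL _
    _ = _ := by rw [← pow_mul]

/-- The term of the grid. -/
theorem par_grid {D h M : ℕ} (hh : 0 < h) :
    (((D * (2 * h + 2)) ^ (2 * M) : ℕ) : ℝ) ≤
      ((4 * D ^ 2 * h ^ 2 : ℕ) : ℝ) ^ M * Real.exp (2 * M / h) := by
  have h0 : (0 : ℝ) < h := by exact_mod_cast hh
  have h1 : ((D : ℝ) * (2 * h + 2)) ^ (2 * M) =
      (4 * (D : ℝ) ^ 2 * (h : ℝ) ^ 2) ^ M * (1 / (h : ℝ) + 1) ^ (2 * M) := by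
    rw [pow_mul, pow_mul, ← mul_pow]
    congr 1
    field_simp
    ring
  have h2 : (1 / (h : ℝ) + 1) ^ (2 * M) ≤ Real.exp (2 * M / h) := by
    calc (1 / (h : ℝ) + 1) ^ (2 * M) ≤ Real.exp (1 / h) ^ (2 * M) :=
          pow_le_pow_left₀ (by positivity) (Real.add_one_le_exp _) _
      _ = Real.exp (2 * M / h) := by
          rw [← Real.exp_nat_mul]
          congr 1
          push_cast
          ring
  push_cast
  rw [h1]
  exact mul_le_mul_of_nonneg_left h2 (by positivity)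

/-- The term of the bad pairs. -/
theorem par_bad {D h L s : ℕ} (hD : 0 < D) (hL : s ^ D ≤ 2 ^ L) :
    ((s ^ D * ((s ^ D) ^ 2 * (h ^ 2 * (4 * D ^ 2 - 1)) ^ (12 * D ^ 2 * L)) : ℕ) : ℝ) ≤
      ((4 * D ^ 2 * h ^ 2 : ℕ) : ℝ) ^ (12 * D ^ 2 * L) := by
  have h0 : (0 : ℝ) < D := by exact_mod_cast hD
  have hD1 : 1 ≤ 4 * D ^ 2 := by nlinarith
  have h1 : ((h ^ 2 * (4 * D ^ 2 - 1) : ℕ) : ℝ) =
      ((4 * D ^ 2 * h ^ 2 : ℕ) : ℝ) * (-(1 / (4 * (D : ℝ) ^ 2)) + 1) := by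
    rw [Nat.cast_mul, Nat.cast_sub hD1]
    push_cast
    field_simp
    ring
  have h2 : (-(1 / (4 * (D : ℝ) ^ 2)) + 1) ^ (12 * D ^ 2 * L) ≤ Real.exp (-1) ^ (3 * L) := by
    have h3 : 0 ≤ -(1 / (4 * (D : ℝ) ^ 2)) + 1 := by
      have h4 : (1 : ℝ) ≤ D := by exact_mod_cast hD
      have h5 : 1 / (4 * (D : ℝ) ^ 2) ≤ 1 := by
        rw [div_le_one (by positivity)]
        nlinarith
      linarith
    calc (-(1 / (4 * (D : ℝ) ^ 2)) + 1) ^ (12 * D ^ 2 * L)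
        ≤ Real.exp (-(1 / (4 * (D : ℝ) ^ 2))) ^ (12 * D ^ 2 * L) :=
          pow_le_pow_left₀ h3 (Real.add_one_le_exp _) _
      _ = Real.exp (-1) ^ (3 * L) := by
          rw [← Real.exp_nat_mul, ← Real.exp_nat_mul]
          congr 1
          push_cast
          field_simp
          ring
  have h3 : Real.exp (-1) ≤ 1 / 2 := by
    rw [Real.exp_neg, ← one_div]
    apply one_div_le_one_div_of_le (by norm_num)
    have := Real.add_one_le_exp (1 : ℝ)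
    linarith
  have h4 : ((s ^ D : ℕ) : ℝ) ^ 3 * Real.exp (-1) ^ (3 * L) ≤ 1 := by
    have h5 : ((s ^ D : ℕ) : ℝ) ≤ 2 ^ L := by exact_mod_cast hL
    have h5' : (0 : ℝ) ≤ ((s ^ D : ℕ) : ℝ) := Nat.cast_nonneg _
    calc ((s ^ D : ℕ) : ℝ) ^ 3 * Real.exp (-1) ^ (3 * L)
        ≤ (2 ^ L) ^ 3 * (1 / 2) ^ (3 * L) := by
          gcongr
      _ = 1 := by
          rw [← pow_mul, mul_comm L 3, ← mul_pow]
          norm_num
  have h6 : ((s ^ D * ((s ^ D) ^ 2 * (h ^ 2 * (4 * D ^ 2 - 1)) ^ (12 * D ^ 2 * L)) : ℕ) : ℝ) =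
      ((s ^ D : ℕ) : ℝ) ^ 3 * (((h ^ 2 * (4 * D ^ 2 - 1) : ℕ) : ℝ)) ^ (12 * D ^ 2 * L) := by
    rw [Nat.cast_mul, Nat.cast_mul, Nat.cast_pow (h ^ 2 * (4 * D ^ 2 - 1)), Nat.cast_pow (s ^ D) 2]
    ring
  rw [h6, h1, mul_pow]
  calc ((s ^ D : ℕ) : ℝ) ^ 3 * (((4 * D ^ 2 * h ^ 2 : ℕ) : ℝ) ^ (12 * D ^ 2 * L) *
        (-(1 / (4 * (D : ℝ) ^ 2)) + 1) ^ (12 * D ^ 2 * L))
      = ((4 * D ^ 2 * h ^ 2 : ℕ) : ℝ) ^ (12 * D ^ 2 * L) * (((s ^ D : ℕ) : ℝ) ^ 3 *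
        (-(1 / (4 * (D : ℝ) ^ 2)) + 1) ^ (12 * D ^ 2 * L)) := by ring
    _ ≤ ((4 * D ^ 2 * h ^ 2 : ℕ) : ℝ) ^ (12 * D ^ 2 * L) * 1 := by
        refine mul_le_mul_of_nonneg_left ?_ (by positivity)
        refine le_trans ?_ h4
        exact mul_le_mul_of_nonneg_left h2 (by positivity)
    _ = _ := mul_one _

/-- Choice of the parameters: `M = 12 D^2 clog₂ (s^D)`, `h` and `e` constants. -/
theorem gadget_family (b : ℕ) (δ : ℝ) (hδ : 0 < δ) :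
    ∃ (e κ s₀ : ℕ) (_ : 1 ≤ e), ∀ s : ℕ, s₀ ≤ s → ∃ r m t : ℕ, 1 ≤ r ∧ 1 ≤ m ∧ 1 ≤ t ∧
      r ≤ s ^ κ ∧ m ≤ s ^ κ ∧ t ≤ s ^ κ ∧
      (t : ℝ) * ((s * e : ℕ) : ℝ) ^ (2 ^ b) ≤ (r : ℝ) * m * ((s * e : ℕ) : ℝ) ^ δ ∧
      Nonempty (FormGadget (2 ^ b) r m (s * e) t) := by
  obtain ⟨D, hDdef⟩ : ∃ D, D = 2 ^ b := ⟨_, rfl⟩
  have hD : 0 < D := by rw [hDdef]; positivity
  obtain ⟨K, hK⟩ : ∃ K, K = 12 * D ^ 2 := ⟨_, rfl⟩
  obtain ⟨h, hh⟩ : ∃ h, h = ⌈12 * (K : ℝ) * D / δ⌉₊ + 1 := ⟨_, rfl⟩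
  have hh0 : 0 < h := by omega
  have hhδ : 12 * (K : ℝ) * D ≤ δ * h := by
    have h1 : 12 * (K : ℝ) * D / δ ≤ h := by
      rw [hh]
      push_cast
      exact (Nat.le_ceil _).trans (by linarith)
    rw [div_le_iff₀ hδ] at h1
    linarith
  obtain ⟨e, he⟩ : ∃ e, e = D * (2 * h + 2) := ⟨_, rfl⟩
  have he1 : 1 ≤ e := by
    rw [he]
    exact Nat.mul_pos hD (by omega)
  obtain ⟨κ, hκ⟩ : ∃ κ, κ = (D + 1) * ((D ^ 2 * (2 * h * h)) * K) +
      (D + (D + 1) * (2 * K) + 1) +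
      ((D + 1) * ((D * (2 * h + 2)) ^ 2 * K) +
        (3 * D + (D + 1) * ((h ^ 2 * (4 * D ^ 2 - 1)) * K)) + 1 + 1) := ⟨_, rfl⟩
  refine ⟨e, κ, max (max 3 e) ⌈(2 * (e : ℝ) ^ D) ^ (2 / δ)⌉₊, he1, fun s hs => ?_⟩
  have hs3 : 3 ≤ s := (le_max_left _ _).trans ((le_max_left _ _).trans hs)
  have hse : e ≤ s := (le_max_right _ _).trans ((le_max_left _ _).trans hs)
  have hsδ : (2 * (e : ℝ) ^ D) ^ (2 / δ) ≤ s :=
    (Nat.le_ceil _).trans (by exact_mod_cast (le_max_right _ _).trans hs)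
  obtain ⟨L, hL⟩ : ∃ L, L = Nat.clog 2 (s ^ D) := ⟨_, rfl⟩
  have hL1 : s ^ D ≤ 2 ^ L := by
    rw [hL]
    exact Nat.le_pow_clog (by norm_num) _
  have hsD : 1 < s ^ D := Nat.one_lt_pow hD.ne' (by omega)
  have hL2 : 2 ^ L ≤ 2 * s ^ D := by
    have h1 := Nat.pow_pred_clog_lt_self (b := 2) (by norm_num) hsD
    have h2 : 0 < Nat.clog 2 (s ^ D) := Nat.clog_pos (by norm_num) hsD
    rw [hL]
    obtain ⟨l, hl⟩ : ∃ l, Nat.clog 2 (s ^ D) = l + 1 := ⟨_, (Nat.succ_pred_eq_of_pos h2).symm⟩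
    rw [hl] at h1 ⊢
    rw [Nat.pred_succ] at h1
    rw [pow_succ]
    omega
  have hL3 : 2 ^ L ≤ s ^ (D + 1) := by
    refine hL2.trans ?_
    rw [pow_succ, mul_comm]
    exact Nat.mul_le_mul_left _ (by omega)
  obtain ⟨M, hM⟩ : ∃ M, M = K * L := ⟨_, rfl⟩
  classical
  obtain ⟨σ, hσ⟩ := exists_signs (2 ^ b) h M (s ^ 2 ^ b) (by positivity)
  have hgad := gadget_exists b h M s e _ (by omega)
    (by rw [← hDdef, ← he]; exact Nat.lt_two_pow_self.le) σ hσ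
  rw [← hDdef] at hgad ⊢
  refine ⟨_, _, _, ?_, ?_, ?_, ?_, ?_, ?_, ?_, hgad⟩
  · exact Nat.one_le_pow _ _ (Nat.mul_pos (pow_pos hD 2) (by positivity))
  · have hs0 : 0 < s := by omega
    have h1 : 0 < s ^ D * 2 ^ M * e := by positivity
    exact h1
  · have h1 : 0 < (D * (2 * h + 2)) ^ (2 * M) := by positivity
    exact Nat.mul_pos (by omega) he1
  · rw [hM]
    refine (par_pow hL3).trans (Nat.pow_le_pow_right (by omega) ?_)
    rw [hκ]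
    omega
  · have h1 : 2 ^ M ≤ s ^ ((D + 1) * (2 * K)) := by
      rw [hM]
      exact par_pow hL3
    calc s ^ D * 2 ^ M * e ≤ s ^ D * s ^ ((D + 1) * (2 * K)) * s ^ 1 := by
          rw [pow_one]
          exact Nat.mul_le_mul (Nat.mul_le_mul_left _ h1) hse
      _ = s ^ (D + (D + 1) * (2 * K) + 1) := by rw [← pow_add, ← pow_add]
      _ ≤ s ^ κ := by
          refine Nat.pow_le_pow_right (by omega) ?_
          rw [hκ]
          omega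
  · have h1 : (D * (2 * h + 2)) ^ (2 * M) ≤ s ^ ((D + 1) * ((D * (2 * h + 2)) ^ 2 * K)) := by
      rw [hM, pow_mul]
      exact par_pow hL3
    have h2 : s ^ D * ((s ^ D) ^ 2 * (h ^ 2 * (4 * D ^ 2 - 1)) ^ M) ≤
        s ^ (3 * D + (D + 1) * ((h ^ 2 * (4 * D ^ 2 - 1)) * K)) := by
      rw [hM]
      calc s ^ D * ((s ^ D) ^ 2 * (h ^ 2 * (4 * D ^ 2 - 1)) ^ (K * L))
          = s ^ (3 * D) * (h ^ 2 * (4 * D ^ 2 - 1)) ^ (K * L) := by
            rw [← mul_assoc, mul_comm 3 D, pow_mul s D 3]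
            ring
        _ ≤ s ^ (3 * D) * s ^ ((D + 1) * ((h ^ 2 * (4 * D ^ 2 - 1)) * K)) :=
            Nat.mul_le_mul_left _ (par_pow hL3)
        _ = _ := by rw [← pow_add]
    have h3 : ∀ a c : ℕ, s ^ a + s ^ c ≤ s ^ (a + c + 1) := by
      intro a c
      have h4 : s ^ a ≤ s ^ (a + c) := Nat.pow_le_pow_right (by omega) (by omega)
      have h5 : s ^ c ≤ s ^ (a + c) := Nat.pow_le_pow_right (by omega) (by omega)
      have h6 : s ^ (a + c) * 2 ≤ s ^ (a + c) * s := Nat.mul_le_mul_left _ (by omega)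
      rw [pow_succ]
      omega
    calc ((D * (2 * h + 2)) ^ (2 * M) +
          s ^ D * ((s ^ D) ^ 2 * (h ^ 2 * (4 * D ^ 2 - 1)) ^ M)) * e
        ≤ (s ^ ((D + 1) * ((D * (2 * h + 2)) ^ 2 * K)) +
          s ^ (3 * D + (D + 1) * ((h ^ 2 * (4 * D ^ 2 - 1)) * K))) * s :=
          Nat.mul_le_mul (Nat.add_le_add h1 h2) hse
      _ ≤ s ^ ((D + 1) * ((D * (2 * h + 2)) ^ 2 * K) +
          (3 * D + (D + 1) * ((h ^ 2 * (4 * D ^ 2 - 1)) * K)) + 1) * s :=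
          Nat.mul_le_mul_right _ (h3 _ _)
      _ = s ^ ((D + 1) * ((D * (2 * h + 2)) ^ 2 * K) +
          (3 * D + (D + 1) * ((h ^ 2 * (4 * D ^ 2 - 1)) * K)) + 1 + 1) := by
          rw [← pow_succ]
      _ ≤ s ^ κ := by
          refine Nat.pow_le_pow_right (by omega) ?_
          rw [hκ]
          omega
  · -- the main inequality
    have hs0 : (0 : ℝ) < s := by
      have : 0 < s := by omega
      exact_mod_cast this
    have he0 : (1 : ℝ) ≤ e := by exact_mod_cast he1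
    obtain ⟨Q, hQ⟩ : ∃ Q : ℝ, Q = ((4 * D ^ 2 * h ^ 2 : ℕ) : ℝ) ^ M := ⟨_, rfl⟩
    have hQ0 : 0 ≤ Q := by rw [hQ]; positivity
    have hgrid : (((D * (2 * h + 2)) ^ (2 * M) : ℕ) : ℝ) ≤ Q * Real.exp (2 * M / h) := by
      rw [hQ]
      exact par_grid hh0
    have hbad : ((s ^ D * ((s ^ D) ^ 2 * (h ^ 2 * (4 * D ^ 2 - 1)) ^ M) : ℕ) : ℝ) ≤ Q := by
      rw [hQ, hM, hK]
      exact par_bad hD hL1
    have hexp1 : 1 ≤ Real.exp (2 * (M : ℝ) / h) := Real.one_le_exp (by positivity)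
    -- logarithms
    have hlog : (1 : ℝ) ≤ Real.log s := by
      rw [Real.le_log_iff_exp_le hs0]
      have h1 := Real.exp_one_lt_d9
      have h2 : (3 : ℝ) ≤ s := by exact_mod_cast hs3
      linarith
    have hLlog : (L : ℝ) ≤ 3 * D * Real.log s := by
      have h1 : ((2 ^ L : ℕ) : ℝ) ≤ ((2 * s ^ D : ℕ) : ℝ) := by exact_mod_cast hL2
      push_cast at h1
      have h2 := Real.log_le_log (by positivity) h1
      rw [Real.log_pow, Real.log_mul (by norm_num) (by positivity), Real.log_pow] at h2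
      have h3 : (1 / 2 : ℝ) ≤ Real.log 2 := by
        have := Real.log_two_gt_d9
        linarith
      have h3' : Real.log 2 ≤ 1 := by
        have := Real.log_two_lt_d9
        linarith
      have h4 : (1 : ℝ) ≤ D := by exact_mod_cast hD
      have h5 : (0 : ℝ) ≤ (L : ℝ) := Nat.cast_nonneg _
      have h6 : (1 : ℝ) ≤ D * Real.log s := by nlinarith
      -- L * log 2 ≤ log 2 + D log s
      have h7 : ((L : ℝ) - 1) * Real.log 2 ≤ D * Real.log s := by linarith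
      have h8 : (L : ℝ) - 1 ≤ 2 * (D * Real.log s) := by
        by_contra hcon
        push Not at hcon
        nlinarith
      nlinarith
    have hexp2 : Real.exp (2 * (M : ℝ) / h) ≤ (s : ℝ) ^ (δ / 2) := by
      rw [Real.rpow_def_of_pos hs0]
      apply Real.exp_le_exp.mpr
      have hh0' : (0 : ℝ) < h := by exact_mod_cast hh0
      rw [div_le_iff₀ hh0', hM]
      push_cast
      have h1 : (2 : ℝ) * (K * L) ≤ 2 * (K * (3 * D * Real.log s)) := by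
        have : (0 : ℝ) ≤ (K : ℝ) := Nat.cast_nonneg _
        gcongr
      have h2 : Real.log s * (12 * (K : ℝ) * D) ≤ Real.log s * (δ * h) :=
        mul_le_mul_of_nonneg_left hhδ (by linarith)
      nlinarith
    have he2 : 2 * (e : ℝ) ^ D ≤ (s : ℝ) ^ (δ / 2) := by
      have h1 : (0 : ℝ) ≤ 2 * (e : ℝ) ^ D := by positivity
      calc 2 * (e : ℝ) ^ D = ((2 * (e : ℝ) ^ D) ^ (2 / δ)) ^ (δ / 2) := by
            rw [← Real.rpow_mul h1]
            have : 2 / δ * (δ / 2) = 1 := by field_simp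
            rw [this, Real.rpow_one]
        _ ≤ (s : ℝ) ^ (δ / 2) :=
            Real.rpow_le_rpow (Real.rpow_nonneg h1 _) hsδ (by positivity)
    have hfin : Real.exp (2 * (M : ℝ) / h) * (2 * (e : ℝ) ^ D) ≤ ((s * e : ℕ) : ℝ) ^ δ := by
      calc Real.exp (2 * (M : ℝ) / h) * (2 * (e : ℝ) ^ D)
          ≤ (s : ℝ) ^ (δ / 2) * (s : ℝ) ^ (δ / 2) :=
            mul_le_mul hexp2 he2 (by positivity) (by positivity)
        _ = (s : ℝ) ^ δ := by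
            rw [← Real.rpow_add hs0]
            congr 1
            ring
        _ ≤ ((s * e : ℕ) : ℝ) ^ δ := by
            refine Real.rpow_le_rpow hs0.le ?_ hδ.le
            push_cast
            nlinarith
    -- the product `r m`
    have hrm : (((D ^ 2 * (2 * h * h)) ^ M : ℕ) : ℝ) * ((s ^ D * 2 ^ M * e : ℕ) : ℝ) =
        Q * ((s : ℝ) ^ D * e) := by
      have h1 : (4 * (D : ℝ) ^ 2 * (h : ℝ) ^ 2) ^ M =
          ((D : ℝ) ^ 2 * (2 * h * h)) ^ M * 2 ^ M := by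
        rw [← mul_pow]
        congr 1
        ring
      rw [hQ]
      push_cast
      rw [h1]
      ring
    rw [hrm]
    rw [Nat.cast_mul (_ + _) e, Nat.cast_add]
    have hsum : (((D * (2 * h + 2)) ^ (2 * M) : ℕ) : ℝ) +
        ((s ^ D * ((s ^ D) ^ 2 * (h ^ 2 * (4 * D ^ 2 - 1)) ^ M) : ℕ) : ℝ) ≤
        Q * (2 * Real.exp (2 * M / h)) := by
      nlinarith
    calc ((((D * (2 * h + 2)) ^ (2 * M) : ℕ) : ℝ) +
        ((s ^ D * ((s ^ D) ^ 2 * (h ^ 2 * (4 * D ^ 2 - 1)) ^ M) : ℕ) : ℝ)) * e *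
          ((s * e : ℕ) : ℝ) ^ D
        ≤ Q * (2 * Real.exp (2 * M / h)) * e * ((s * e : ℕ) : ℝ) ^ D := by
          gcongr
      _ = Q * ((s : ℝ) ^ D * e) * (Real.exp (2 * M / h) * (2 * (e : ℝ) ^ D)) := by
          push_cast
          rw [mul_pow]
          ring
      _ ≤ Q * ((s : ℝ) ^ D * e) * ((s * e : ℕ) : ℝ) ^ δ :=
          mul_le_mul_of_nonneg_left hfin (by positivity)

end Pool.Agent.OMV.Tens
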