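import Pool.Agent.Work.MP_0f1f76_lc.Tens.FastL
import Pool.Agent.Work.MP_0f1f76_lc.Tens.Param

/-!
Module FINAL.
-/

namespace Pool.Agent.OMV.Tens

open Finset

theorem tensor_mono (aff : Bool) {D : ℕ} (hD : 1 ≤ D) (k : ℕ)
    (h : Fast aff (tensorOmv D) (2 * D)) : Fast aff (tensorOmv (D + k)) (2 * (D + k)) := by
  induction k with
  | zero => exact h
  | succ k ih =>
    have h1 := Fast.of_red (red_tensor_succ aff (D + k) (by omega)) (by omega)
      (by omega : D + k + 2 < 2 * (D + k) + 2) ih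
    have h2 : 2 * (D + k) + 2 = 2 * (D + (k + 1)) := by ring
    rw [h2] at h1
    exact h1

theorem form_mono (aff : Bool) {D : ℕ} (hD : 2 ≤ D) (k : ℕ)
    (h : Fast aff (form D) D) : Fast aff (form (D + k)) (D + k) := by
  induction k with
  | zero => exact h
  | succ k ih =>
    exact Fast.of_red (e := D + k) (p := 1) (red_form_succ aff (D + k)) (by omega) (by omega) ih

theorem omv_of_tensor (aff : Bool) {D : ℕ} (hD : 1 ≤ D)
    (h : Fast aff (tensorOmv D) (2 * D)) : Fast aff omv 2 := by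
  have h1 : D ≤ 2 ^ D := Nat.lt_two_pow_self.le
  have h2 := tensor_mono aff hD (2 ^ D - D) h
  rw [Nat.add_sub_cancel' h1] at h2
  exact Fast.of_gadget (2 ^ D) (Nat.one_le_two_pow) (fun δ hδ => gadget_family D δ hδ) h2

theorem main (aff : Bool) (D : ℕ) (hD : 1 ≤ D) :
    (Fast aff omv 2 ↔ Fast aff (tensorOmv D) (2 * D)) ∧
      (2 ≤ D → (Fast aff omv 2 ↔ Fast aff (form D) D)) := by
  have hform : Fast aff omv 2 → ∀ D, 2 ≤ D → Fast aff (form D) D := by
    intro h D hD
    have h1 : Fast aff (form 2) 2 :=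
      Fast.of_red (e := 2) (p := 0) (red_omv_form aff) (by omega) (by omega) h
    have h2 := form_mono aff le_rfl (D - 2) h1
    rwa [Nat.add_sub_cancel' hD] at h2
  have hft : ∀ D, 2 ≤ D → Fast aff (form D) D → Fast aff (tensorOmv D) (2 * D) := by
    intro D hD h
    have h1 := Fast.of_red (red_form_tensor aff D (by omega)) (by omega)
      (by omega : D < D + D) h
    rwa [← two_mul] at h1
  refine ⟨⟨fun h => ?_, fun h => omv_of_tensor aff hD h⟩, fun hD2 => ⟨fun h => hform h D hD2,
    fun h => omv_of_tensor aff hD (hft D hD2 h)⟩⟩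
  rcases Nat.lt_or_ge D 2 with hlt | hge
  · have hD1 : D = 1 := by omega
    subst hD1
    exact Fast.of_red (e := 2) (p := 0) (red_omv_tensor aff) (by omega) (by omega) h
  · exact hft D hge (hform h D hge)

/-- The three problems are equally hard. -/
theorem tfae (aff : Bool) {D : ℕ} (hD : 2 ≤ D) :
    [Fast aff omv 2, Fast aff (form D) D, Fast aff (tensorOmv D) (2 * D)].TFAE := by
  have h := main aff D (by omega)
  tfae_have 1 ↔ 3 := h.1
  tfae_have 1 ↔ 2 := h.2 hD
  tfae_finish

end Pool.Agent.OMV.Tens
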