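import Pool.Agent.Work.MP_0f1f76_lc.Tens.GDefs

/-!
Module KEY (helper57): the key identity over a field of characteristic two.
-/

namespace Pool.Agent.OMV.Tens

open Finset Pool.Agent.OMV.Toric

/-- At a clean block the two residues of `κ` vanish and the parity of `k` is even. -/
theorem kap_cleanT {D h M : ℕ} (hD : 0 < D) (τ : Row D h M) (σ β : Fin M → Bool) (i : Fin M)
    (hi : i ∈ clean τ β) :
    (∀ ω, kap τ σ β i ω % D = 0) ∧
      (kap τ σ β i false / D + kap τ σ β i true / D) % 2 = 0 := by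
  unfold clean at hi
  rw [mem_filter] at hi
  obtain ⟨_, hb, h0, h1⟩ := hi
  refine ⟨?_, ?_⟩
  · intro ω
    rw [kap_mod]
    cases ω with
    | false => rw [rowVal_mod_false]; exact h0
    | true => rw [rowVal_mod_true]; exact h1
  · have p1 := rowVal_parity τ i
    rw [← kap_div hD τ σ β i false, ← kap_div hD τ σ β i true] at p1
    have u1 := uvec_add σ β i
    rw [if_pos hb] at u1
    omega

/-- If two of the `D` sign letters at the block `i` differ, the two sums are below `D`. -/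
theorem sum_uvec_lt {M C D : ℕ} (cl : Fin D → Fin C) (β : Fin D → Fin M → Bool)
    (σ : Fin C → Fin M → Bool) (i : Fin M) (j₀ j₁ : Fin D) (hne : σ (cl j₀) i ≠ σ (cl j₁) i)
    (ω : Bool) : ∑ j, uvec (σ (cl j)) (β j) i ω < D := by
  obtain ⟨j₂, hj₂⟩ : ∃ j, σ (cl j) i ≠ ω := by
    by_cases h0 : σ (cl j₀) i = ω
    · exact ⟨j₁, fun h1 => hne (h0.trans h1.symm)⟩
    · exact ⟨j₀, h0⟩
  have h1 : ∑ j, uvec (σ (cl j)) (β j) i ω < ∑ _j : Fin D, 1 := by
    refine sum_lt_sum (fun j _ => uvec_le_one _ _ _ _) ⟨j₂, mem_univ _, ?_⟩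
    unfold uvec
    rw [if_neg (fun h => hj₂ h.2)]
    exact one_pos
  simpa using h1

variable {F : Type*} [Field F] {b h M s C : ℕ}
  (θ : Fin (2 ^ b * (2 * h + 2)) → F) (d : ℕ → Fin (2 ^ b * (2 * h + 2)) → F)
  (a : Fin C → Fin (2 ^ b) → Fin s) (σ : Fin C → Fin M → Bool)

/-- the address vectors of a grid cell -/
def adrT (v : Grid (2 ^ b * (2 * h + 2)) M) (x : Col C M → F) (j : Fin (2 ^ b)) (p : Fin s) : F :=
  ∑ l : Col C M, if a l.1 j = p then mon θ v (uvec (σ l.1) l.2) * x l else 0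

/-- The product of the addresses seen by the class `c`: pure part plus mixed tuples. -/
theorem prod_adrT (ha : Function.Injective a) (c : Fin C) (v : Grid (2 ^ b * (2 * h + 2)) M)
    (x : Col C M → F) :
    ∏ j, adrT θ a σ v x j (a c j) =
      (∑ β', mon θ v (uvec (σ c) β') * x (c, β')) ^ 2 ^ b +
      ∑ φ ∈ (univ : Finset (Fin (2 ^ b) → Col C M)).filter
          (fun φ => (∀ j, a (φ j).1 j = a c j) ∧ ∃ j₀ j₁, (φ j₀).1 ≠ (φ j₁).1),
        (∏ j, x (φ j)) * mon θ v (fun i ω => ∑ j, uvec (σ (φ j).1) (φ j).2 i ω) := by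
  classical
  have h0 : 0 < 2 ^ b := by positivity
  have h1 : ∏ j, adrT θ a σ v x j (a c j) =
      ∑ φ ∈ Fintype.piFinset (fun j => (univ : Finset (Col C M)).filter
        (fun l' => a l'.1 j = a c j)), ∏ j, (mon θ v (uvec (σ (φ j).1) (φ j).2) * x (φ j)) := by
    rw [← prod_univ_sum (fun j : Fin (2 ^ b) => (univ : Finset (Col C M)).filter
        (fun l' => a l'.1 j = a c j)) (fun _ l' => mon θ v (uvec (σ l'.1) l'.2) * x l')]
    refine prod_congr rfl (fun j _ => ?_)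
    rw [sum_filter]
    rfl
  have h2 : (∑ β', mon θ v (uvec (σ c) β') * x (c, β')) ^ 2 ^ b =
      ∑ φ ∈ Fintype.piFinset (fun _ : Fin (2 ^ b) => (univ : Finset (Col C M)).filter
        (fun l' => l'.1 = c)), ∏ j, (mon θ v (uvec (σ (φ j).1) (φ j).2) * x (φ j)) := by
    rw [← prod_univ_sum (fun _ : Fin (2 ^ b) => (univ : Finset (Col C M)).filter
        (fun l' => l'.1 = c)) (fun _ l' => mon θ v (uvec (σ l'.1) l'.2) * x l'),
      prod_const, card_univ, Fintype.card_fin]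
    congr 1
    rw [sum_filter, Fintype.sum_prod_type]
    rw [sum_eq_single c]
    · refine sum_congr rfl (fun β' _ => ?_)
      rw [if_pos rfl]
    · intro c' _ hc'
      apply sum_eq_zero
      intro β' _
      rw [if_neg hc']
    · intro hc
      exact absurd (mem_univ c) hc
  have h3 : Fintype.piFinset (fun j : Fin (2 ^ b) => (univ : Finset (Col C M)).filter
        (fun l' => a l'.1 j = a c j)) =
      Fintype.piFinset (fun _ : Fin (2 ^ b) => (univ : Finset (Col C M)).filter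
        (fun l' => l'.1 = c)) ∪ (univ : Finset (Fin (2 ^ b) → Col C M)).filter
          (fun φ => (∀ j, a (φ j).1 j = a c j) ∧ ∃ j₀ j₁, (φ j₀).1 ≠ (φ j₁).1) := by
    ext φ
    simp only [Fintype.mem_piFinset, mem_filter, mem_univ, true_and, mem_union]
    constructor
    · intro hφ
      by_cases hall : ∃ j₀ j₁, (φ j₀).1 ≠ (φ j₁).1
      · exact Or.inr ⟨hφ, hall⟩
      · left
        push Not at hall
        have hc : (φ ⟨0, h0⟩).1 = c := by
          apply ha
          funext j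
          rw [← hφ j, hall ⟨0, h0⟩ j]
        intro j
        rw [hall j ⟨0, h0⟩, hc]
    · rintro (hφ | hφ)
      · intro j
        rw [hφ j]
      · exact hφ.1
  have h4 : Disjoint (Fintype.piFinset (fun _ : Fin (2 ^ b) => (univ : Finset (Col C M)).filter
        (fun l' => l'.1 = c))) ((univ : Finset (Fin (2 ^ b) → Col C M)).filter
          (fun φ => (∀ j, a (φ j).1 j = a c j) ∧ ∃ j₀ j₁, (φ j₀).1 ≠ (φ j₁).1)) := by
    rw [disjoint_left]
    intro φ hφ hφ'
    rw [mem_filter] at hφ'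
    obtain ⟨j₀, j₁, hne⟩ := hφ'.2.2
    simp only [Fintype.mem_piFinset, mem_filter, mem_univ, true_and] at hφ
    exact hne ((hφ j₀).trans (hφ j₁).symm)
  rw [h1, h3, sum_union h4, ← h2]
  congr 1
  refine sum_congr rfl (fun φ _ => ?_)
  rw [prod_mul_distrib, mon_sum, mul_comm]

/-- The key identity. -/
theorem keyT [CharP F 2] (hd : ∀ n < 2 ^ b * (2 * h + 2), ∀ k < 2 ^ b * (2 * h + 2),
      ∑ x, d n x * θ x ^ k = if k = n then 1 else 0)
    (ha : Function.Injective a)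
    (τ ρ : Row (2 ^ b) h M) (l : Col C M) (hgood : Fine σ τ l.2) (x : Col C M → F) :
    ∑ v, dec d ρ v * (mon θ v (kap τ (σ l.1) l.2) * ∏ j, adrT θ a σ v x j (a l.1 j)) =
      if τ = ρ then x l ^ 2 ^ b else 0 := by
  classical
  have hD : 0 < 2 ^ b := by positivity
  have h1 : ∀ v : Grid (2 ^ b * (2 * h + 2)) M,
      dec d ρ v * (mon θ v (kap τ (σ l.1) l.2) * ∏ j, adrT θ a σ v x j (a l.1 j)) =
      dec d ρ v * (mon θ v (kap τ (σ l.1) l.2) *
        (∑ β', mon θ v (uvec (σ l.1) β') * x (l.1, β')) ^ 2 ^ b) +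
      ∑ φ ∈ (univ : Finset (Fin (2 ^ b) → Col C M)).filter
          (fun φ => (∀ j, a (φ j).1 j = a l.1 j) ∧ ∃ j₀ j₁, (φ j₀).1 ≠ (φ j₁).1),
        (∏ j, x (φ j)) * (dec d ρ v * mon θ v (fun i ω => kap τ (σ l.1) l.2 i ω +
            ∑ j, uvec (σ (φ j).1) (φ j).2 i ω)) := by
    intro v
    rw [prod_adrT θ a σ ha, mul_add, mul_add, mul_sum, mul_sum]
    congr 1
    refine sum_congr rfl (fun φ _ => ?_)
    rw [mon_add]
    ring
  rw [sum_congr rfl (fun v _ => h1 v), sum_add_distrib, pure_part θ d σ hd τ ρ l x]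
  rw [add_eq_left, sum_comm]
  apply sum_eq_zero
  intro φ hφ
  rw [mem_filter] at hφ
  obtain ⟨_, _, j₀, j₁, hne⟩ := hφ
  rw [← mul_sum, dec_mon θ d hd ρ, if_neg, mul_zero]
  · intro hh
    obtain ⟨i, hi, hσ⟩ := hgood _ _ hne
    have hx := sum_uvec_lt (fun j => (φ j).1) (fun j => (φ j).2) σ i j₀ j₁ hσ
    obtain ⟨hm, hp⟩ := kap_cleanT hD τ (σ l.1) l.2 i hi
    have hq : ∀ ω, (kap τ (σ l.1) l.2 i ω + ∑ j, uvec (σ (φ j).1) (φ j).2 i ω) / 2 ^ b =
        kap τ (σ l.1) l.2 i ω / 2 ^ b := by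
      intro ω
      have e1 := Nat.div_add_mod (kap τ (σ l.1) l.2 i ω) (2 ^ b)
      rw [hm ω, add_zero] at e1
      rw [← e1, Nat.mul_add_div hD, Nat.div_eq_of_lt (hx ω), add_zero,
        Nat.mul_div_cancel_left _ hD]
    have p1 := rowVal_parity ρ i
    rw [← hh] at p1
    simp only at p1
    rw [hq false, hq true, hp] at p1
    exact absurd p1 (by norm_num)
  · intro i ω
    have h3 := kap_lt τ (σ l.1) l.2 i ω
    have h4 : ∑ j : Fin (2 ^ b), uvec (σ (φ j).1) (φ j).2 i ω ≤ 2 ^ b * 1 := by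
      calc ∑ j : Fin (2 ^ b), uvec (σ (φ j).1) (φ j).2 i ω ≤ ∑ j : Fin (2 ^ b), 1 :=
            sum_le_sum (fun j _ => uvec_le_one _ _ _ _)
        _ = 2 ^ b * 1 := by
            rw [sum_const, card_univ, Fintype.card_fin, smul_eq_mul]
    have h5 : 2 ^ b * (2 * h + 2) = 2 ^ b * (2 * h + 1) + 2 ^ b * 1 := by ring
    omega

end Pool.Agent.OMV.Tens
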