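import Pool.Agent.Work.MP_0f1f76_lc.Tens.Calc

/-!
Module REALIZE: from the calculus to programs and back.
-/

namespace Pool.Agent.OMV.Tens

open Finset

/-- One step with tables indexed by `ℕ`. -/
def stepN {w : ℕ} (tab : ℕ → Word w → Word w) (R : List (Word w)) : Instr → List (Word w)
  | .xor i j => R ++ [R.getD i 0 + R.getD j 0]
  | .look k i => R ++ [tab k (R.getD i 0)]

/-- Run with tables indexed by `ℕ`. -/
def runN {w : ℕ} (tab : ℕ → Word w → Word w) (R : List (Word w)) (P : List Instr) :
    List (Word w) :=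
  P.foldl (stepN tab) R

/-- the index of the table of an instruction is below `S` -/
def Instr.ok (S : ℕ) : Instr → Prop
  | .xor _ _ => True
  | .look k _ => k < S

theorem run_eq_runN {w S : ℕ} (tab : ℕ → Word w → Word w) (P : List Instr)
    (hP : ∀ I ∈ P, Instr.ok S I) (R : List (Word w)) :
    run (fun k : Fin S => tab k) R P = runN tab R P := by
  unfold run runN
  induction P generalizing R with
  | nil => rfl
  | cons I P ih =>
    simp only [List.foldl_cons]
    have h1 : step (fun k : Fin S => tab k) R I = stepN tab R I := by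
      have h2 := hP I (List.mem_cons_self)
      cases I with
      | xor i j => rfl
      | look k i =>
        simp only [Instr.ok] at h2
        simp [step, stepN, h2]
    rw [h1]
    exact ih (fun J hJ => hP J (List.mem_cons_of_mem _ hJ)) _

theorem runN_congr {w : ℕ} (tab tab' : ℕ → Word w → Word w) (S : ℕ) (P : List Instr)
    (hP : ∀ I ∈ P, Instr.ok S I) (ht : ∀ k < S, tab k = tab' k) (R : List (Word w)) :
    runN tab R P = runN tab' R P := by
  unfold runN
  induction P generalizing R with
  | nil => rfl
  | cons I P ih =>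
    simp only [List.foldl_cons]
    have h1 : stepN tab R I = stepN tab' R I := by
      have h2 := hP I (List.mem_cons_self)
      cases I with
      | xor i j => rfl
      | look k i =>
        simp only [Instr.ok] at h2
        simp [stepN, ht k h2]
    rw [h1]
    exact ih (fun J hJ => hP J (List.mem_cons_of_mem _ hJ)) _

theorem exists_index {𝒟 𝒳 : Type} {w : ℕ} (R : List (Wire 𝒟 𝒳 w)) (f : Wire 𝒟 𝒳 w)
    (hf : f ∈ R ∨ f = 0) :
    ∃ i : ℕ, ∀ d x, (R.map (fun f => f d x)).getD i 0 = f d x := by
  rcases hf with hf | rfl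
  · obtain ⟨i, hi, rfl⟩ := List.mem_iff_getElem.1 hf
    refine ⟨i, fun d x => ?_⟩
    rw [List.getD_eq_getElem?_getD, List.getElem?_map, List.getElem?_eq_getElem hi]
    rfl
  · refine ⟨R.length, fun d x => ?_⟩
    rw [List.getD_eq_getElem?_getD, List.getElem?_map, List.getElem?_eq_none (le_refl _)]
    rfl

theorem Ext.program {𝒟 𝒳 : Type} {w : ℕ} {A : (𝒟 → Word w → Word w) → Prop}
    (hA0 : A (fun _ _ => 0)) {R R' : List (Wire 𝒟 𝒳 w)} {m : ℕ} (h : Ext A R m R') :
    ∃ (P : List Instr) (T : ℕ → 𝒟 → Word w → Word w), (∀ i, A (T i)) ∧ P.length = m ∧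
      (∀ I ∈ P, Instr.ok m I) ∧
      ∀ d x, runN (fun k => T k d) (R.map (fun f => f d x)) P = R'.map (fun f => f d x) := by
  induction h with
  | nil => exact ⟨[], fun _ _ _ => 0, fun _ => hA0, rfl, by simp, fun d x => rfl⟩
  | @xor n R' f g h hf hg ih =>
    obtain ⟨P, T, hT, hl, hok, hrun⟩ := ih
    obtain ⟨i, hi⟩ := exists_index R' f (Or.inl hf)
    obtain ⟨j, hj⟩ := exists_index R' g (Or.inl hg)
    refine ⟨P ++ [.xor i j], T, hT, by simp [hl], ?_, ?_⟩
    · intro I hI
      rw [List.mem_append, List.mem_singleton] at hI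
      rcases hI with hI | rfl
      · have := hok I hI
        cases I with
        | xor i j => trivial
        | look k i => exact Nat.lt_succ_of_lt this
      · trivial
    · intro d x
      have h1 := hrun d x
      unfold runN at h1 ⊢
      rw [List.foldl_append, h1]
      simp only [List.foldl_cons, List.foldl_nil, stepN, hi, hj, List.map_append, List.map_cons,
        List.map_nil]
  | @look n R' T' f h hT' hf ih =>
    obtain ⟨P, T, hT, hl, hok, hrun⟩ := ih
    obtain ⟨i, hi⟩ := exists_index R' f hf
    refine ⟨P ++ [.look n i], Function.update T n T', ?_, by simp [hl], ?_, ?_⟩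
    · intro k
      by_cases hk : k = n
      · subst hk
        simpa using hT'
      · rw [Function.update_of_ne hk]
        exact hT k
    · intro I hI
      rw [List.mem_append, List.mem_singleton] at hI
      rcases hI with hI | rfl
      · have := hok I hI
        cases I with
        | xor i j => trivial
        | look k i => exact Nat.lt_succ_of_lt this
      · exact Nat.lt_succ_self n
    · intro d x
      have h1 := hrun d x
      have h2 := runN_congr (fun k => T k d) (fun k => Function.update T n T' k d) n P hok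
        (fun k hk => by simp only [Function.update_of_ne (ne_of_lt hk)])
        (R.map (fun f => f d x))
      rw [h2] at h1
      unfold runN at h1 ⊢
      rw [List.foldl_append, h1]
      simp only [List.foldl_cons, List.foldl_nil, stepN, hi, List.map_append, List.map_cons,
        List.map_nil, Function.update_self]

/-- A computation of output wires gives a program.  One table per instruction. -/
theorem realize (aff : Bool) (B : Problem) (w n : ℕ) (O : Set (Wire (B.ι → ZMod 2) (Fin B.q → ZMod 2) w))
    (hC : Cost (Adm aff) (inSet B w) O n) (g : ℕ → Wire (B.ι → ZMod 2) (Fin B.q → ZMod 2) w)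
    (hg : ∀ i : Fin B.a, g ((i : ℕ) / w) ∈ O)
    (hv : ∀ d x (i : Fin B.a) (b : Fin w), (b : ℕ) = (i : ℕ) % w →
      g ((i : ℕ) / w) d x b = B.f d x i) :
    ∃ (S : ℕ) (P : List Instr) (out : ℕ → ℕ) (pre : (B.ι → ZMod 2) → Fin S → Word w → Word w),
      S ≤ n ∧ P.length ≤ n ∧ (aff = true → IsAffine pre) ∧ Solves B P out pre := by
  classical
  obtain ⟨m, R', hm, hE, hO⟩ := hC ((List.range ((B.q + w - 1) / w)).map (inW B w)) (by
    rintro f ⟨k, hk, rfl⟩
    exact List.mem_map.2 ⟨k, List.mem_range.2 hk, rfl⟩)
  obtain ⟨P, T, hT, hl, hok, hrun⟩ := hE.program (Adm.const 0)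
  have hidx : ∀ k, ∃ i : ℕ, g k ∈ R' → ∀ d x, (R'.map (fun f => f d x)).getD i 0 = g k d x := by
    intro k
    by_cases hk : g k ∈ R'
    · obtain ⟨i, hi⟩ := exists_index R' (g k) (Or.inl hk)
      exact ⟨i, fun _ => hi⟩
    · exact ⟨0, fun h => absurd h hk⟩
  choose out hout using hidx
  refine ⟨m, P, out, fun d k => T k d, hm, hl.le.trans hm, ?_, ?_⟩
  · intro haff
    choose base lin hbl using fun k => hT k haff
    refine ⟨fun k => base k, LinearMap.pi (fun k => lin k), ?_⟩
    intro d
    funext k
    rw [Pi.add_apply, LinearMap.pi_apply]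
    exact hbl k d
  · intro d x i b hb
    have h1 : run (fun k : Fin m => T k d) (packed w x) P = R'.map (fun f => f d x) := by
      have h2 := run_eq_runN (S := m) (fun k => T k d) P hok (packed w x)
      rw [h2, ← hrun d x]
      congr 1
      rw [List.map_map]
      apply List.ext_getElem
      · simp [packed]
      · intro k h1 h2
        rw [List.getElem_map, List.getElem_range]
        simp only [Function.comp, inW]
        rw [List.getD_eq_getElem?_getD, List.getElem?_eq_getElem h1]
        rfl
    rw [h1, hout _ (hO _ (hg i)) d x]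
    exact hv d x i b hb

/-- the low bits of a word -/
def low {wq w : ℕ} (hw : wq ≤ w) (W : Word w) : Word wq := fun c => W (Fin.castLE hw c)

/-- embedding into the low bits -/
def emb {wq : ℕ} (w : ℕ) (V : Word wq) : Word w := fun b => if h : (b : ℕ) < wq then V ⟨b, h⟩ else 0

theorem low_emb {wq w : ℕ} (hw : wq ≤ w) (V : Word wq) : low hw (emb w V) = V := by
  funext c
  simp [low, emb]

theorem emb_add {wq w : ℕ} (V V' : Word wq) : emb w (V + V') = emb w V + emb w V' := by
  funext b
  simp only [emb, Pi.add_apply]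
  split_ifs <;> simp

theorem emb_smul {wq w : ℕ} (a : ZMod 2) (V : Word wq) : emb w (a • V) = a • emb w V := by
  funext b
  simp only [emb, Pi.smul_apply]
  split_ifs <;> simp

/-- the simulated table -/
def simTab {ι κ : Type} {wq w S : ℕ} (hw : wq ≤ w) (δ : (ι → ZMod 2) →ₗ[ZMod 2] (κ → ZMod 2))
    (pre : (κ → ZMod 2) → Fin S → Word wq → Word wq) (k : ℕ) (d : ι → ZMod 2) (W : Word w) :
    Word w := if h : k < S then emb w (pre (δ d) ⟨k, h⟩ (low hw W)) else 0

theorem simTab_adm {aff : Bool} {ι κ : Type} {wq w S : ℕ} (hw : wq ≤ w)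
    (δ : (ι → ZMod 2) →ₗ[ZMod 2] (κ → ZMod 2))
    (pre : (κ → ZMod 2) → Fin S → Word wq → Word wq) (haff : aff = true → IsAffine pre) (k : ℕ) :
    Adm aff (simTab (w := w) hw δ pre k) := by
  intro h
  obtain ⟨base, lin, hbl⟩ := haff h
  by_cases hk : k < S
  · refine ⟨fun W => emb w (base ⟨k, hk⟩ (low hw W)),
      { toFun := fun d W => emb w (lin (δ d) ⟨k, hk⟩ (low hw W))
        map_add' := ?_
        map_smul' := ?_ }, ?_⟩
    · intro d d'
      funext W
      rw [map_add, map_add, Pi.add_apply, Pi.add_apply, Pi.add_apply, emb_add]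
    · intro a d
      funext W
      rw [map_smul, map_smul, Pi.smul_apply, Pi.smul_apply, Pi.smul_apply, emb_smul]
      rfl
    · intro d
      funext W
      simp only [simTab, hk, dif_pos, hbl, Pi.add_apply, emb_add]
      rfl
  · refine ⟨0, 0, fun d => ?_⟩
    funext W
    simp [simTab, hk]

theorem sim_aux (aff : Bool) {ι κ 𝒳 : Type} {wq w S : ℕ} (hw : wq ≤ w)
    (δ : (ι → ZMod 2) →ₗ[ZMod 2] (κ → ZMod 2))
    (pre : (κ → ZMod 2) → Fin S → Word wq → Word wq) (haff : aff = true → IsAffine pre)
    (P : List Instr) :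
    ∀ (regs : (ι → ZMod 2) → 𝒳 → List (Word wq)) (L : List (Wire (ι → ZMod 2) 𝒳 w)),
      (∀ d x, (regs d x).length = L.length) →
      (∀ j d x, low hw (L.getD j 0 d x) = (regs d x).getD j 0) →
      ∃ L' : List (Wire (ι → ZMod 2) 𝒳 w),
        (∀ R : List (Wire (ι → ZMod 2) 𝒳 w), (∀ f ∈ L, f ∈ R) →
          (0 : Wire (ι → ZMod 2) 𝒳 w) ∈ R → ∃ R' : List (Wire (ι → ZMod 2) 𝒳 w),
            Ext (Adm aff) R P.length R' ∧ ∀ f ∈ L', f ∈ R') ∧
        ∀ j d x, low hw (L'.getD j 0 d x) = (run (pre (δ d)) (regs d x) P).getD j 0 := by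
  induction P with
  | nil =>
    intro regs L hlen hrep
    exact ⟨L, fun R hLR _ => ⟨R, Ext.nil, hLR⟩, hrep⟩
  | cons I P ih =>
    intro regs L hlen hrep
    -- the new wire
    obtain ⟨f, hf, hfr⟩ : ∃ f : Wire (ι → ZMod 2) 𝒳 w,
        (∀ R : List (Wire (ι → ZMod 2) 𝒳 w), (∀ f ∈ L, f ∈ R) →
          (0 : Wire (ι → ZMod 2) 𝒳 w) ∈ R → Ext (Adm aff) R 1 (R ++ [f])) ∧
        ∀ d x, step (pre (δ d)) (regs d x) I = regs d x ++ [low hw (f d x)] := by
      have hmem : ∀ R : List (Wire (ι → ZMod 2) 𝒳 w), (∀ f ∈ L, f ∈ R) →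
          (0 : Wire (ι → ZMod 2) 𝒳 w) ∈ R → ∀ i : ℕ, L.getD i 0 ∈ R := by
        intro R hLR h0 i
        rw [List.getD_eq_getElem?_getD]
        rcases lt_or_ge i L.length with hi | hi
        · rw [List.getElem?_eq_getElem hi]
          exact hLR _ (List.getElem_mem hi)
        · rw [List.getElem?_eq_none hi]
          exact h0
      cases I with
      | xor i j =>
        refine ⟨fun d x => L.getD i 0 d x + L.getD j 0 d x,
          fun R hLR h0 => Ext.xor _ _ Ext.nil (hmem R hLR h0 i) (hmem R hLR h0 j), ?_⟩
        intro d x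
        simp only [step]
        rw [← hrep i d x, ← hrep j d x]
        rfl
      | look k i =>
        refine ⟨fun d x => simTab (w := w) hw δ pre k d (L.getD i 0 d x),
          fun R hLR h0 => Ext.look _ _ Ext.nil (simTab_adm hw δ pre haff k)
            (Or.inl (hmem R hLR h0 i)), ?_⟩
        intro d x
        simp only [step, simTab]
        by_cases hk : k < S
        · simp only [hk, dif_pos, low_emb]
          rw [hrep i d x]
        · simp only [hk, dif_neg, not_false_iff]
          rfl
    obtain ⟨L', hL', hrep'⟩ := ih (fun d x => regs d x ++ [low hw (f d x)])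
      (L ++ [f]) (by intro d x; simp [hlen d x]) (by
        intro j d x
        rw [List.getD_eq_getElem?_getD, List.getD_eq_getElem?_getD, List.getElem?_append,
          List.getElem?_append, hlen d x]
        split_ifs with hj
        · have := hrep j d x
          rw [List.getD_eq_getElem?_getD, List.getD_eq_getElem?_getD] at this
          exact this
        · by_cases hj' : j - L.length = 0
          · simp [hj']
          · rw [List.getElem?_eq_none (by simp; omega), List.getElem?_eq_none (by simp; omega)]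
            rfl)
    refine ⟨L', ?_, ?_⟩
    · intro R hLR h0
      obtain ⟨R', hE, hR'⟩ := hL' (R ++ [f]) (by
        intro g hg
        rw [List.mem_append] at hg ⊢
        exact hg.imp (hLR g) id) (List.mem_append_left _ h0)
      refine ⟨R', ?_, hR'⟩
      have := (hf R hLR h0).trans hE
      rwa [List.length_cons, add_comm]
    · intro j d x
      rw [hrep' j d x]
      unfold run
      rw [List.foldl_cons, hfr d x]

/-- Simulation of a program for the problem `B` inside a computation for other data and queries: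
`inp k` contains the `k`-th word of the packed query `χ x` in its low `wq` bits. -/
theorem simulate (aff : Bool) (B : Problem) {wq Sq : ℕ} (P : List Instr) (out : ℕ → ℕ)
    (pre : (B.ι → ZMod 2) → Fin Sq → Word wq → Word wq) (haff : aff = true → IsAffine pre)
    (hP : Solves B P out pre) {w : ℕ} (hw : wq ≤ w) {ι 𝒳 : Type}
    (δ : (ι → ZMod 2) →ₗ[ZMod 2] (B.ι → ZMod 2)) (χ : 𝒳 → Fin B.q → ZMod 2)
    (inp : ℕ → Wire (ι → ZMod 2) 𝒳 w)
    (hinp : ∀ k < (B.q + wq - 1) / wq, ∀ d x (c : Fin wq),
      inp k d x (Fin.castLE hw c) = (packed wq (χ x)).getD k 0 c) :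
    ∃ o : ℕ → Wire (ι → ZMod 2) 𝒳 w,
      Cost (Adm aff) {f | ∃ k < (B.q + wq - 1) / wq, f = inp k} {f | ∃ j, f = o j}
        (P.length + 1) ∧
      ∀ d x (i : Fin B.a) (c : Fin wq), (c : ℕ) = (i : ℕ) % wq →
        o ((i : ℕ) / wq) d x (Fin.castLE hw c) = B.f (δ d) (χ x) i := by
  set K := (B.q + wq - 1) / wq with hK
  have hlen : ∀ x, (packed wq (χ x)).length = K := by
    intro x
    simp [packed, hK]
  obtain ⟨L', hL', hrep⟩ := sim_aux aff hw δ pre haff P (fun _ x => packed wq (χ x))
    ((List.range K).map inp) (by intro d x; rw [hlen]; simp) (by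
      intro j d x
      rcases lt_or_ge j K with hj | hj
      · funext c
        have h1 := hinp j hj d x c
        rw [List.getD_eq_getElem?_getD, List.getElem?_map, List.getElem?_range hj]
        exact h1
      · rw [List.getD_eq_getElem?_getD, List.getD_eq_getElem?_getD,
          List.getElem?_eq_none (by simpa using hj), List.getElem?_eq_none (by rw [hlen]; exact hj)]
        rfl)
  refine ⟨fun j => L'.getD (out j) 0, ?_, ?_⟩
  · intro R hR
    have hz : Ext (Adm aff) R 1 (R ++ [fun _ _ => 0]) :=
      Ext.look (fun _ _ => 0) 0 Ext.nil (Adm.const 0) (Or.inr rfl)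
    obtain ⟨R', hE, hR'⟩ := hL' (R ++ [fun _ _ => 0]) (by
      intro f hf
      obtain ⟨k, hk, rfl⟩ := List.mem_map.1 hf
      exact List.mem_append_left _ (hR _ ⟨k, List.mem_range.1 hk, rfl⟩)) (by
      rw [List.mem_append, List.mem_singleton]
      exact Or.inr rfl)
    refine ⟨P.length + 1, R', le_rfl, ?_, ?_⟩
    · have := hz.trans hE
      rwa [add_comm] at this
    · rintro f ⟨j, rfl⟩
      simp only
      rw [List.getD_eq_getElem?_getD]
      rcases lt_or_ge (out j) L'.length with hi | hi
      · rw [List.getElem?_eq_getElem hi]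
        exact hR' _ (List.getElem_mem hi)
      · rw [List.getElem?_eq_none hi]
        refine hE.subset _ ?_
        rw [List.mem_append, List.mem_singleton]
        exact Or.inr rfl
  · intro d x i c hc
    have h1 := hP (δ d) (χ x) i c hc
    rw [← h1, ← hrep (out ((i : ℕ) / wq)) d x]
    rfl

end Pool.Agent.OMV.Tens
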