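import Pool.Agent.Work.MP_0f1f76_lc.Tens.GDefs

/-!
Module SIGNS (helper57).
-/

namespace Pool.Agent.OMV.Tens

open Finset Pool.Agent.OMV.Toric

/-- a clean block -/
def ClT {D h : ℕ} (t : Row1 D h) (β : Bool) : Prop :=
  β = true ∧ (t.1.1 : ℕ) = 0 ∧ (t.1.2 : ℕ) = 0

instance (D h : ℕ) (t : Row1 D h) (β : Bool) : Decidable (ClT t β) := by
  unfold ClT; infer_instance

/-- the sum over the blocks with two equal letters -/
theorem sum_all (D h : ℕ) : ∑ _t : Row1 D h, ∑ _β : Bool, 1 = h ^ 2 * (4 * D ^ 2) := by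
  simp only [sum_const, card_univ, Fintype.card_prod, Fintype.card_fin, Fintype.card_bool,
    smul_eq_mul]
  ring

/-- the number of blocks which are not clean -/
theorem sum_not_clean (D h : ℕ) (hD : 0 < D) :
    ∑ t : Row1 D h, ∑ β : Bool, (if ClT t β then 0 else 1) + 2 * h ^ 2 = h ^ 2 * (4 * D ^ 2) := by
  have h1 : ∑ t : Row1 D h, ∑ β : Bool, (if ClT t β then 1 else 0) = 2 * h ^ 2 := by
    have e1 : ∀ t : Row1 D h, ∑ β : Bool, (if ClT t β then 1 else 0) =
        (if t.1 = (⟨0, hD⟩, ⟨0, hD⟩) then 1 else 0) := by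
      intro t
      rw [Fintype.sum_bool]
      unfold ClT
      by_cases ht : t.1 = (⟨0, hD⟩, ⟨0, hD⟩)
      · rw [if_pos ht, if_pos, if_neg]
        · rintro ⟨hf, _⟩
          exact absurd hf (by decide)
        · rw [ht]
          exact ⟨rfl, rfl, rfl⟩
      · rw [if_neg ht, if_neg, if_neg]
        · rintro ⟨hf, _⟩
          exact absurd hf (by decide)
        · rintro ⟨_, h0, h0'⟩
          apply ht
          exact Prod.ext (Fin.ext h0) (Fin.ext h0')
    rw [sum_congr rfl (fun t _ => e1 t), Fintype.sum_prod_type]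
    rw [sum_eq_single (⟨0, hD⟩, ⟨0, hD⟩)]
    · simp only [if_true, sum_const, card_univ, Fintype.card_prod, Fintype.card_fin, smul_eq_mul]
      ring
    · intro x _ hx
      simp [hx]
    · intro hx
      exact absurd (mem_univ _) hx
  rw [← sum_all, ← h1, ← sum_add_distrib]
  refine sum_congr rfl (fun t _ => ?_)
  rw [← sum_add_distrib]
  refine sum_congr rfl (fun β _ => ?_)
  split_ifs <;> rfl

/-- half of the words have equal letters at two given places -/
theorem card_eq_letters {C : ℕ} (c c' : Fin C) (hc : c ≠ c') :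
    2 * ((univ : Finset (Fin C → Bool)).filter (fun s => s c = s c')).card = 2 ^ C := by
  have h1 : ((univ : Finset (Fin C → Bool)).filter (fun s => s c = s c')).card =
      ((univ : Finset (Fin C → Bool)).filter (fun s => ¬ s c = s c')).card := by
    refine card_bij' (fun s _ => Function.update s c (!s c)) (fun s _ => Function.update s c (!s c))
      ?_ ?_ ?_ ?_
    · intro s hs
      rw [mem_filter] at hs ⊢
      refine ⟨mem_univ _, ?_⟩
      rw [Function.update_self, Function.update_of_ne hc.symm, ← hs.2]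
      cases s c <;> decide
    · intro s hs
      rw [mem_filter] at hs ⊢
      refine ⟨mem_univ _, ?_⟩
      rw [Function.update_self, Function.update_of_ne hc.symm]
      have h2 := hs.2
      revert h2
      cases s c <;> cases s c' <;> decide
    · intro s _
      simp
    · intro s _
      simp
  have h2 := card_filter_add_card_filter_not (s := (univ : Finset (Fin C → Bool)))
    (fun s => s c = s c')
  rw [← h1, card_univ, Fintype.card_fun, Fintype.card_bool, Fintype.card_fin] at h2
  omega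

/-- the weight of one block -/
def gw {C D h : ℕ} (c c' : Fin C) (s : Fin C → Bool) (t : Row1 D h) (β : Bool) : ℕ :=
  if ClT t β → s c = s c' then 1 else 0

theorem sum_gw {C D h : ℕ} (hD : 0 < D) (c c' : Fin C) (hc : c ≠ c') :
    ∑ s : Fin C → Bool, ∑ t : Row1 D h, ∑ β : Bool, gw c c' s t β =
      2 ^ C * (h ^ 2 * (4 * D ^ 2 - 1)) := by
  classical
  set E := ((univ : Finset (Fin C → Bool)).filter (fun s => s c = s c')).card with hE
  have hE2 : 2 * E = 2 ^ C := card_eq_letters c c' hc
  set A := ∑ t : Row1 D h, ∑ β : Bool, (if ClT t β then 0 else 1) with hA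
  have hA2 : A + 2 * h ^ 2 = h ^ 2 * (4 * D ^ 2) := sum_not_clean D h hD
  have h1 : ∀ s : Fin C → Bool, ∑ t : Row1 D h, ∑ β : Bool, gw c c' s t β =
      if s c = s c' then h ^ 2 * (4 * D ^ 2) else A := by
    intro s
    by_cases hs : s c = s c'
    · rw [if_pos hs, ← sum_all]
      refine sum_congr rfl (fun t _ => sum_congr rfl (fun β _ => ?_))
      unfold gw
      rw [if_pos (fun _ => hs)]
    · rw [if_neg hs, hA]
      refine sum_congr rfl (fun t _ => sum_congr rfl (fun β _ => ?_))
      unfold gw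
      by_cases hcl : ClT t β
      · rw [if_neg (fun hh => hs (hh hcl)), if_pos hcl]
      · rw [if_pos (fun hh => absurd hh hcl), if_neg hcl]
  rw [sum_congr rfl (fun s _ => h1 s), sum_ite, sum_const, sum_const, smul_eq_mul, smul_eq_mul]
  have h2 := card_filter_add_card_filter_not (s := (univ : Finset (Fin C → Bool)))
    (fun s => s c = s c')
  rw [card_univ, Fintype.card_fun, Fintype.card_bool, Fintype.card_fin] at h2
  have h3 : ((univ : Finset (Fin C → Bool)).filter (fun s => ¬ s c = s c')).card = E := by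
    omega
  rw [h3, ← hE, ← hE2]
  obtain ⟨q, hq⟩ : ∃ q, 4 * D ^ 2 = q + 1 := by
    have : 0 < 4 * D ^ 2 := by positivity
    exact ⟨4 * D ^ 2 - 1, by omega⟩
  rw [hq] at hA2 ⊢
  rw [Nat.add_sub_cancel]
  nlinarith [hA2]

/-- the number of triples with equal sign words on the clean blocks -/
theorem card_pairs {C D h M : ℕ} (hD : 0 < D) (c c' : Fin C) (hc : c ≠ c') :
    ∑ σ : Fin M → Fin C → Bool, ∑ τ : Row D h M, ∑ β : Fin M → Bool,
      ∏ i, gw c c' (σ i) (τ i) (β i) = (2 ^ C * (h ^ 2 * (4 * D ^ 2 - 1))) ^ M := by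
  classical
  have h1 : ∀ (σ : Fin M → Fin C → Bool) (τ : Row D h M), ∑ β : Fin M → Bool,
      ∏ i, gw c c' (σ i) (τ i) (β i) = ∏ i, ∑ β : Bool, gw c c' (σ i) (τ i) β := by
    intro σ τ
    rw [prod_univ_sum, Fintype.piFinset_univ]
  have h2 : ∀ (σ : Fin M → Fin C → Bool), ∑ τ : Row D h M, ∏ i, ∑ β : Bool,
      gw c c' (σ i) (τ i) β = ∏ i, ∑ t : Row1 D h, ∑ β : Bool, gw c c' (σ i) t β := by
    intro σ
    have := prod_univ_sum (fun _ : Fin M => (univ : Finset (Row1 D h)))
      (fun i t => ∑ β : Bool, gw c c' (σ i) t β)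
    rw [Fintype.piFinset_univ] at this
    exact this.symm
  simp only [h1, h2]
  have h3 := prod_univ_sum (fun _ : Fin M => (univ : Finset (Fin C → Bool)))
      (fun _ s => ∑ t : Row1 D h, ∑ β : Bool, gw c c' s t β)
  rw [Fintype.piFinset_univ] at h3
  rw [← h3, prod_const, card_univ, Fintype.card_fin, sum_gw hD c c' hc]

open Classical in
/-- Sign words with few bad pairs. Averaging over all `σ`: for a pair `c ≠ c'` the number of
`(σ c, σ c', τ, β)` with `σ c = σ c'` on the clean blocks is
`(4 (4 D^2 h^2) - 2 (2 h^2))^M = (4 h^2 (4 D^2 - 1))^M`. -/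
theorem exists_signs (D h M C : ℕ) (hD : 0 < D) :
    ∃ σ : Fin C → Fin M → Bool,
      ((univ : Finset (Row D h M × (Fin M → Bool))).filter
        (fun p => ¬ Fine σ p.1 p.2)).card ≤ C ^ 2 * (h ^ 2 * (4 * D ^ 2 - 1)) ^ M := by
  set B := C ^ 2 * (h ^ 2 * (4 * D ^ 2 - 1)) ^ M with hB
  -- bad pairs are counted by the weights
  have hbad : ∀ σ : Fin M → Fin C → Bool,
      ((univ : Finset (Row D h M × (Fin M → Bool))).filter
        (fun p => ¬ Fine (fun c i => σ i c) p.1 p.2)).card ≤
      ∑ q ∈ (univ : Finset (Fin C × Fin C)).filter (fun q => q.1 ≠ q.2),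
        ∑ τ : Row D h M, ∑ β : Fin M → Bool, ∏ i, gw q.1 q.2 (σ i) (τ i) (β i) := by
    intro σ
    have e1 : ∑ q ∈ (univ : Finset (Fin C × Fin C)).filter (fun q => q.1 ≠ q.2),
        ∑ τ : Row D h M, ∑ β : Fin M → Bool, ∏ i, gw q.1 q.2 (σ i) (τ i) (β i) =
        ∑ p : Row D h M × (Fin M → Bool),
          ∑ q ∈ (univ : Finset (Fin C × Fin C)).filter (fun q => q.1 ≠ q.2),
            ∏ i, gw q.1 q.2 (σ i) (p.1 i) (p.2 i) := by
      rw [sum_comm (s := (univ : Finset (Row D h M × (Fin M → Bool))))]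
      refine sum_congr rfl (fun q _ => ?_)
      rw [Fintype.sum_prod_type]
    rw [e1, card_filter]
    refine sum_le_sum (fun p _ => ?_)
    by_cases hp : Fine (fun c i => σ i c) p.1 p.2
    · rw [if_neg (not_not.2 hp)]
      exact Nat.zero_le _
    · rw [if_pos hp]
      unfold Fine at hp
      push Not at hp
      obtain ⟨c, c', hne, hall⟩ := hp
      have h2 : ∏ i, gw c c' (σ i) (p.1 i) (p.2 i) = 1 := by
        apply prod_eq_one
        intro i _
        unfold gw
        rw [if_pos]
        intro hcl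
        apply hall i
        unfold clean
        rw [mem_filter]
        exact ⟨mem_univ _, hcl⟩
      calc 1 = ∏ i, gw c c' (σ i) (p.1 i) (p.2 i) := h2.symm
        _ ≤ _ := single_le_sum (f := fun q : Fin C × Fin C =>
              ∏ i, gw q.1 q.2 (σ i) (p.1 i) (p.2 i)) (fun q _ => Nat.zero_le _)
              (mem_filter.2 ⟨mem_univ (c, c'), hne⟩)
  have hsum : ∑ σ : Fin M → Fin C → Bool,
      ((univ : Finset (Row D h M × (Fin M → Bool))).filter
        (fun p => ¬ Fine (fun c i => σ i c) p.1 p.2)).card ≤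
      Fintype.card (Fin M → Fin C → Bool) * B := by
    refine (sum_le_sum (fun σ _ => hbad σ)).trans ?_
    rw [sum_comm]
    have e2 : ∀ q ∈ (univ : Finset (Fin C × Fin C)).filter (fun q => q.1 ≠ q.2),
        ∑ σ : Fin M → Fin C → Bool, ∑ τ : Row D h M, ∑ β : Fin M → Bool,
          ∏ i, gw q.1 q.2 (σ i) (τ i) (β i) = (2 ^ C * (h ^ 2 * (4 * D ^ 2 - 1))) ^ M :=
      fun q hq => card_pairs hD q.1 q.2 (mem_filter.1 hq).2
    rw [sum_congr rfl e2, sum_const, smul_eq_mul]
    have e3 : ((univ : Finset (Fin C × Fin C)).filter (fun q => q.1 ≠ q.2)).card ≤ C ^ 2 := by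
      refine (card_filter_le _ _).trans ?_
      rw [card_univ, Fintype.card_prod, Fintype.card_fin, sq]
    refine (Nat.mul_le_mul_right _ e3).trans (le_of_eq ?_)
    rw [hB, Fintype.card_fun, Fintype.card_fun, Fintype.card_bool, Fintype.card_fin,
      Fintype.card_fin, mul_pow]
    ring
  by_contra hcon
  push Not at hcon
  have hlt : ∀ σ : Fin M → Fin C → Bool, B + 1 ≤
      ((univ : Finset (Row D h M × (Fin M → Bool))).filter
        (fun p => ¬ Fine (fun c i => σ i c) p.1 p.2)).card :=
    fun σ => hcon (fun c i => σ i c)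
  have h5 := sum_le_sum (s := (univ : Finset (Fin M → Fin C → Bool))) (fun σ _ => hlt σ)
  rw [sum_const, card_univ, smul_eq_mul] at h5
  have h6 := h5.trans hsum
  have h7 : 0 < Fintype.card (Fin M → Fin C → Bool) := Fintype.card_pos
  have h8 := Nat.le_of_mul_le_mul_left h6 h7
  omega

end Pool.Agent.OMV.Tens
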